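import Pool.Agent.Helper85.FC.Defs

/-!
Parts N and N' for MP_cb855e_lc: disjunctive prenex normal form of EP-C[REG] and the easy
inclusion.
-/

namespace Pool.Agent.Helper62.FCNormal
open Pool.Agent.Helper85.FC

variable {A V W : Type}

/-! ### Renaming and congruence -/

/-- Renaming the variables of a pattern. -/
def rn (f : V → W) (α : Pattern A V) : Pattern A W := α.map (Sum.map id f)

theorem subst_nil (σ : V → List A) : subst σ ([] : Pattern A V) = [] := rfl

theorem subst_cons_inl (σ : V → List A) (a : A) (α : Pattern A V) :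
    subst σ (Sum.inl a :: α) = a :: subst σ α := rfl

theorem subst_cons_inr (σ : V → List A) (x : V) (α : Pattern A V) :
    subst σ (Sum.inr x :: α) = σ x ++ subst σ α := rfl

theorem subst_rn (f : V → W) (τ : W → List A) (α : Pattern A V) :
    subst τ (rn f α) = subst (τ ∘ f) α := by
  induction α with
  | nil => rfl
  | cons a t ih =>
    cases a with
    | inl a =>
      show subst τ (Sum.inl a :: rn f t) = _
      rw [subst_cons_inl, subst_cons_inl, ih]
    | inr x =>
      show subst τ (Sum.inr (f x) :: rn f t) = _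
      rw [subst_cons_inr, subst_cons_inr, ih]; rfl

theorem subst_congr {σ τ : V → List A} {α : Pattern A V}
    (h : ∀ x, Sum.inr x ∈ α → σ x = τ x) : subst σ α = subst τ α := by
  induction α with
  | nil => rfl
  | cons a t ih =>
    have ih' := ih (fun x hx => h x (List.mem_cons_of_mem _ hx))
    cases a with
    | inl a => rw [subst_cons_inl, subst_cons_inl, ih']
    | inr x => rw [subst_cons_inr, subst_cons_inr, ih', h x (List.mem_cons_self)]

/-- Renaming the variables of a system. -/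
def rnS (f : V → W) (S : Sys A V) : Sys A W :=
  ⟨S.eqs.map fun e => (rn f e.1, rn f e.2), S.regs.map fun r => (f r.1, r.2)⟩

theorem sat_rnS (f : V → W) (S : Sys A V) (τ : W → List A) :
    (rnS f S).Sat τ ↔ S.Sat (τ ∘ f) := by
  simp only [Sys.Sat, rnS, List.forall_mem_map, subst_rn, Function.comp]

/-- Conjunction of two systems. -/
def conjS (S T : Sys A V) : Sys A V := ⟨S.eqs ++ T.eqs, S.regs ++ T.regs⟩

theorem sat_conjS (S T : Sys A V) (τ : V → List A) :
    (conjS S T).Sat τ ↔ S.Sat τ ∧ T.Sat τ := by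
  simp only [Sys.Sat, conjS, List.forall_mem_append]
  tauto

/-- All constraints are given by regular expressions. -/
def RE (S : Sys A V) : Prop := ∀ r ∈ S.regs, ∃ P : RegularExpression A, P.matches' = r.2

theorem re_rnS {f : V → W} {S : Sys A V} (h : RE S) : RE (rnS f S) := by
  intro r hr
  obtain ⟨r', hr', rfl⟩ := List.mem_map.1 hr
  exact h r' hr'

theorem re_conjS {S T : Sys A V} (hS : RE S) (hT : RE T) : RE (conjS S T) := by
  intro r hr
  rcases List.mem_append.1 hr with h | h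
  · exact hS r h
  · exact hT r h

/-! ### Normal form, with parameters -/

theorem nf (ψ : EPC A) : ∃ l : List ((k : ℕ) × Sys A (ℕ ⊕ Fin k)),
    (∀ S ∈ l, RE S.2) ∧
    ∀ σ : ℕ → List A, ψ.Sat σ ↔ ∃ S ∈ l, ∃ τ : Fin S.1 → List A, S.2.Sat (Sum.elim σ τ) := by
  induction ψ with
  | eq α β =>
    refine ⟨[⟨0, ⟨[(rn Sum.inl α, rn Sum.inl β)], []⟩⟩], ?_, ?_⟩
    · intro S hS r hr
      simp only [List.mem_singleton] at hS
      subst hS
      simp at hr
    · intro σ
      simp only [EPC.Sat, List.mem_singleton, exists_eq_left, Sys.Sat, subst_rn, forall_eq,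
        List.not_mem_nil, false_imp_iff, implies_true, and_true, Sum.elim_comp_inl, exists_const]
  | mem x γ =>
    refine ⟨[⟨0, ⟨[], [(Sum.inl x, γ.matches')]⟩⟩], ?_, ?_⟩
    · intro S hS r hr
      simp only [List.mem_singleton] at hS
      subst hS
      simp only [List.mem_singleton] at hr
      subst hr
      exact ⟨γ, rfl⟩
    · intro σ
      simp only [EPC.Sat, List.mem_singleton, exists_eq_left, Sys.Sat, forall_eq,
        List.not_mem_nil, false_imp_iff, implies_true, true_and, Sum.elim_inl, exists_const]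
  | and φ ψ ih1 ih2 =>
    obtain ⟨l1, h1, s1⟩ := ih1
    obtain ⟨l2, h2, s2⟩ := ih2
    refine ⟨l1.flatMap fun S => l2.map fun T => ⟨S.1 + T.1,
      conjS (rnS (Sum.map id (Fin.castAdd T.1)) S.2)
        (rnS (Sum.map id (Fin.natAdd S.1)) T.2)⟩, ?_, ?_⟩
    · intro U hU
      obtain ⟨S, hS, hU⟩ := List.mem_flatMap.1 hU
      obtain ⟨T, hT, rfl⟩ := List.mem_map.1 hU
      exact re_conjS (re_rnS (h1 S hS)) (re_rnS (h2 T hT))
    · intro σ
      rw [EPC.Sat, s1 σ, s2 σ]
      constructor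
      · rintro ⟨⟨S, hS, τ1, t1⟩, T, hT, τ2, t2⟩
        refine ⟨_, List.mem_flatMap.2 ⟨S, hS, List.mem_map.2 ⟨T, hT, rfl⟩⟩,
          Fin.append τ1 τ2, ?_⟩
        rw [sat_conjS, sat_rnS, sat_rnS]
        refine ⟨?_, ?_⟩
        · convert t1 using 1
          funext z
          rcases z with z | z <;> simp
        · convert t2 using 1
          funext z
          rcases z with z | z <;> simp
      · rintro ⟨U, hU, τ, t⟩
        obtain ⟨S, hS, hU⟩ := List.mem_flatMap.1 hU
        obtain ⟨T, hT, rfl⟩ := List.mem_map.1 hU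
        rw [sat_conjS, sat_rnS, sat_rnS] at t
        refine ⟨⟨S, hS, fun i => τ (Fin.castAdd T.1 i), ?_⟩,
          T, hT, fun i => τ (Fin.natAdd S.1 i), ?_⟩
        · convert t.1 using 1
          funext z
          rcases z with z | z <;> simp
        · convert t.2 using 1
          funext z
          rcases z with z | z <;> simp
  | or φ ψ ih1 ih2 =>
    obtain ⟨l1, h1, s1⟩ := ih1
    obtain ⟨l2, h2, s2⟩ := ih2
    refine ⟨l1 ++ l2, ?_, ?_⟩
    · intro S hS
      rcases List.mem_append.1 hS with h | h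
      · exact h1 S h
      · exact h2 S h
    · intro σ
      rw [EPC.Sat, s1 σ, s2 σ]
      constructor
      · rintro (⟨S, hS, h⟩ | ⟨S, hS, h⟩)
        · exact ⟨S, List.mem_append_left _ hS, h⟩
        · exact ⟨S, List.mem_append_right _ hS, h⟩
      · rintro ⟨S, hS, h⟩
        rcases List.mem_append.1 hS with h' | h'
        · exact Or.inl ⟨S, h', h⟩
        · exact Or.inr ⟨S, h', h⟩
  | ex x φ ih =>
    obtain ⟨l, h, s⟩ := ih
    let g : (k : ℕ) → ℕ ⊕ Fin k → ℕ ⊕ Fin (k + 1) := fun k z =>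
      Sum.elim (fun y => if y = x then Sum.inr (Fin.last k) else Sum.inl y)
        (fun j => Sum.inr j.castSucc) z
    refine ⟨l.map fun S => ⟨S.1 + 1, rnS (g S.1) S.2⟩, ?_, ?_⟩
    · intro U hU
      obtain ⟨S, hS, rfl⟩ := List.mem_map.1 hU
      exact re_rnS (h S hS)
    · intro σ
      rw [EPC.Sat]
      constructor
      · rintro ⟨u, hu⟩
        obtain ⟨S, hS, τ, t⟩ := (s _).1 hu
        refine ⟨_, List.mem_map.2 ⟨S, hS, rfl⟩, Fin.snoc τ u, ?_⟩
        rw [sat_rnS]
        convert t using 1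
        funext z
        rcases z with z | z
        · by_cases hz : z = x
          · subst hz
            simp [g]
          · simp [g, hz]
        · simp [g]
      · rintro ⟨U, hU, τ, t⟩
        obtain ⟨S, hS, rfl⟩ := List.mem_map.1 hU
        rw [sat_rnS] at t
        refine ⟨τ (Fin.last S.1), (s _).2 ⟨S, hS, fun j => τ j.castSucc, ?_⟩⟩
        convert t using 1
        funext z
        rcases z with z | z
        · by_cases hz : z = x
          · subst hz
            simp [g]
          · simp [g, hz]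
        · simp [g]

theorem exists_bound (l : List (Pattern A (ℕ ⊕ W))) :
    ∃ n : ℕ, ∀ α ∈ l, ∀ x : ℕ, Sum.inr (Sum.inl x) ∈ α → x ≤ n := by
  induction l with
  | nil => exact ⟨0, by simp⟩
  | cons α l ih =>
    obtain ⟨n, hn⟩ := ih
    have : ∃ m : ℕ, ∀ x : ℕ, Sum.inr (Sum.inl x) ∈ α → x ≤ m := by
      clear hn
      induction α with
      | nil => exact ⟨0, by simp⟩
      | cons a t ih' =>
        obtain ⟨m, hm⟩ := ih'
        rcases a with a | (y | y)
        · exact ⟨m, by intro x hx; simp at hx; exact hm x hx⟩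
        · refine ⟨max m y, ?_⟩
          intro x hx
          simp at hx
          rcases hx with rfl | hx
          · exact le_max_right _ _
          · exact (hm x hx).trans (le_max_left _ _)
        · exact ⟨m, by intro x hx; simp at hx; exact hm x hx⟩
    obtain ⟨m, hm⟩ := this
    refine ⟨max n m, ?_⟩
    intro β hβ x hx
    rcases List.mem_cons.1 hβ with rfl | hβ
    · exact (hm x hx).trans (le_max_right _ _)
    · exact (hn β hβ x hx).trans (le_max_left _ _)

theorem exists_bound' (l : List (ℕ ⊕ W)) :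
    ∃ n : ℕ, ∀ x : ℕ, Sum.inl x ∈ l → x ≤ n := by
  obtain ⟨n, hn⟩ := exists_bound (A := Unit) (l.map fun z => [Sum.inr z])
  refine ⟨n, fun x hx => hn [Sum.inr (Sum.inl x)] ?_ x (by simp)⟩
  exact List.mem_map.2 ⟨_, hx, rfl⟩

theorem normalForm : NormalFormStatement := by
  intro A ψ
  obtain ⟨l, hl, hs⟩ := nf ψ
  have key : ∀ S : (k : ℕ) × Sys A (ℕ ⊕ Fin k), RE S.2 →
      ∃ T : (k : ℕ) × Sys A (Fin (k + 1)), RE T.2 ∧
        ∀ u, (∃ σ : ℕ → List A, (∃ τ : Fin S.1 → List A, S.2.Sat (Sum.elim σ τ)) ∧ σ 0 = u) ↔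
          ∃ σ : Fin (T.1 + 1) → List A, T.2.Sat σ ∧ σ 0 = u := by
    rintro ⟨k, S⟩ hS
    obtain ⟨n1, hn1⟩ := exists_bound (S.eqs.map Prod.fst)
    obtain ⟨n2, hn2⟩ := exists_bound (S.eqs.map Prod.snd)
    obtain ⟨n3, hn3⟩ := exists_bound' (S.regs.map Prod.fst)
    obtain ⟨n, e1, e2, e3⟩ : ∃ n, n1 ≤ n ∧ n2 ≤ n ∧ n3 ≤ n :=
      ⟨max n1 (max n2 n3), by simp, by simp, by simp⟩
    let f : ℕ ⊕ Fin k → Fin (n + k + 1) :=
      Sum.elim (fun x : ℕ => if h : x ≤ n then (⟨x, by omega⟩ : Fin (n + k + 1)) else 0)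
        (fun j : Fin k => (⟨n + 1 + j.1, by have := j.2; omega⟩ : Fin (n + k + 1)))
    refine ⟨⟨n + k, rnS f S⟩, re_rnS hS, ?_⟩
    intro u
    constructor
    · rintro ⟨σ, ⟨τ, t⟩, rfl⟩
      change Fin k → List A at τ
      let ρ : Fin (n + k + 1) → List A := fun i =>
        if h : (i : ℕ) ≤ n then σ i else τ ⟨i - (n + 1), by
          have := i.2
          omega⟩
      have hρ1 : ∀ x, x ≤ n → ρ (f (Sum.inl x)) = σ x := by
        intro x hx
        simp [ρ, f, hx]
      have hρ2 : ∀ j, ρ (f (Sum.inr j)) = τ j := by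
        intro j
        have h1 : ¬ (n + 1 + (j : ℕ) ≤ n) := by omega
        simp only [ρ, f, Sum.elim_inr, h1, dite_false]
        congr 1
        ext
        simp
      refine ⟨ρ, ?_, ?_⟩
      · rw [sat_rnS]
        have agree : ∀ α : Pattern A (ℕ ⊕ Fin k), (∀ x : ℕ, Sum.inr (Sum.inl x) ∈ α → x ≤ n) →
            subst (ρ ∘ f) α = subst (Sum.elim σ τ) α := by
          intro α hα
          apply subst_congr
          rintro (x | j) hx
          · simp only [Function.comp, Sum.elim_inl]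
            exact hρ1 x (hα x hx)
          · simp only [Function.comp, Sum.elim_inr]
            exact hρ2 j
        refine ⟨fun e he => ?_, fun r hr => ?_⟩
        · rw [agree e.1 (fun x hx => (hn1 e.1 (List.mem_map.2 ⟨e, he, rfl⟩) x hx).trans e1),
            agree e.2 (fun x hx => (hn2 e.2 (List.mem_map.2 ⟨e, he, rfl⟩) x hx).trans e2)]
          exact t.1 e he
        · have := t.2 r hr
          obtain ⟨z, L⟩ := r
          rcases z with x | j
          · have hx : x ≤ n := (hn3 x (List.mem_map.2 ⟨_, hr, rfl⟩)).trans e3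
            simp only [Function.comp, Sum.elim_inl] at this ⊢
            rw [hρ1 x hx]
            exact this
          · simp only [Function.comp, Sum.elim_inr] at this ⊢
            rw [hρ2 j]
            exact this
      · simp [ρ]
    · rintro ⟨ρ, t, rfl⟩
      rw [sat_rnS] at t
      refine ⟨fun x => ρ (f (Sum.inl x)), ⟨fun j => ρ (f (Sum.inr j)), ?_⟩, ?_⟩
      · convert t using 1
        funext z
        rcases z with z | z <;> rfl
      · show ρ (f (Sum.inl 0)) = ρ 0
        congr 1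
  choose T hT1 hT2 using key
  refine ⟨l.attach.map fun S => T S.1 (hl S.1 S.2), ?_, ?_⟩
  · intro U hU
    obtain ⟨S, -, rfl⟩ := List.mem_map.1 hU
    exact hT1 _ _
  · ext u
    simp only [EPC.lang, Set.mem_ofPred_eq]
    constructor
    · rintro ⟨σ, h, rfl⟩
      obtain ⟨S, hS, τ, t⟩ := (hs σ).1 h
      have := (hT2 S (hl S hS) (σ 0)).1 ⟨σ, ⟨τ, t⟩, rfl⟩
      exact ⟨_, List.mem_map.2 ⟨⟨S, hS⟩, List.mem_attach _ _, rfl⟩, this⟩
    · rintro ⟨U, hU, h⟩
      obtain ⟨⟨S, hS⟩, -, rfl⟩ := List.mem_map.1 hU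
      obtain ⟨σ, ⟨τ, t⟩, h0⟩ := (hT2 S (hl S hS) u).2 h
      exact ⟨σ, (hs σ).2 ⟨S, hS, τ, t⟩, h0⟩

/-! ### Easy inclusion -/

/-- Conjunction of a list of formulas. -/
def conjL : List (EPC A) → EPC A
  | [] => .eq [] []
  | φ :: l => .and φ (conjL l)

theorem sat_conjL (l : List (EPC A)) (σ : ℕ → List A) :
    (conjL l).Sat σ ↔ ∀ φ ∈ l, φ.Sat σ := by
  induction l with
  | nil => simp [conjL, EPC.Sat]
  | cons φ l ih => simp [conjL, EPC.Sat, ih]

theorem free_conjL {l : List (EPC A)} {F : Set ℕ} (h : ∀ φ ∈ l, φ.free ⊆ F) :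
    (conjL l).free ⊆ F := by
  induction l with
  | nil => simp [conjL, EPC.free]
  | cons φ l ih =>
    simp only [conjL, EPC.free, Set.union_subset_iff]
    exact ⟨h φ (by simp), ih (fun ψ hψ => h ψ (by simp [hψ]))⟩

/-- Quantify the variables `1, ..., k`. -/
def exL : ℕ → EPC A → EPC A
  | 0, ψ => ψ
  | k + 1, ψ => .ex (k + 1) (exL k ψ)

theorem sat_exL (k : ℕ) (ψ : EPC A) : ∀ σ : ℕ → List A,
    (exL k ψ).Sat σ ↔ ∃ σ' : ℕ → List A, (∀ x, (x = 0 ∨ k < x) → σ' x = σ x) ∧ ψ.Sat σ' := by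
  induction k with
  | zero =>
    intro σ
    simp only [exL]
    constructor
    · intro h
      exact ⟨σ, fun _ _ => rfl, h⟩
    · rintro ⟨σ', h, h'⟩
      have : σ' = σ := by
        funext x
        exact h x (by omega)
      rwa [← this]
  | succ k ih =>
    intro σ
    simp only [exL, EPC.Sat]
    constructor
    · rintro ⟨u, hu⟩
      obtain ⟨σ', h1, h2⟩ := (ih _).1 hu
      refine ⟨σ', fun x hx => ?_, h2⟩
      rw [h1 x (by omega), Function.update_of_ne (by omega)]
    · rintro ⟨σ', h1, h2⟩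
      refine ⟨σ' (k + 1), (ih _).2 ⟨σ', fun x hx => ?_, h2⟩⟩
      by_cases hx' : x = k + 1
      · subst hx'
        simp
      · rw [Function.update_of_ne hx']
        exact h1 x (by omega)

theorem free_exL (k : ℕ) (ψ : EPC A) : (exL k ψ).free ⊆ ψ.free \ {x | 1 ≤ x ∧ x ≤ k} := by
  induction k with
  | zero =>
    intro x hx
    refine ⟨hx, ?_⟩
    rintro ⟨h1, h2⟩
    omega
  | succ k ih =>
    intro x hx
    simp only [exL, EPC.free] at hx
    obtain ⟨h1, h2⟩ := hx
    obtain ⟨h3, h4⟩ := ih h1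
    refine ⟨h3, ?_⟩
    simp only [Set.mem_ofPred_eq, Set.mem_singleton_iff] at *
    omega

/-- `x` is a factor of `w`. -/
def safeF (n x : ℕ) : EPC A :=
  .ex n (.ex (n + 1) (.eq [Sum.inr 0] [Sum.inr n, Sum.inr x, Sum.inr (n + 1)]))

theorem sat_safeF {n x : ℕ} (hn : 0 < n) (hx : x < n) (σ : ℕ → List A) :
    (safeF n x).Sat σ ↔ ∃ p s, σ 0 = p ++ σ x ++ s := by
  simp only [safeF, EPC.Sat, subst_cons_inr, subst_nil, List.append_nil]
  constructor
  · rintro ⟨p, s, h⟩
    refine ⟨p, s, ?_⟩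
    rw [Function.update_of_ne (by omega), Function.update_of_ne (by omega),
      Function.update_of_ne (by omega), Function.update_self,
      Function.update_of_ne (by omega), Function.update_of_ne (by omega),
      Function.update_self] at h
    rw [h, List.append_assoc]
  · rintro ⟨p, s, h⟩
    refine ⟨p, s, ?_⟩
    rw [Function.update_of_ne (by omega), Function.update_of_ne (by omega),
      Function.update_of_ne (by omega), Function.update_self,
      Function.update_of_ne (by omega), Function.update_of_ne (by omega),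
      Function.update_self]
    rw [h, List.append_assoc]

theorem free_safeF (n x : ℕ) : (safeF n x : EPC A).free ⊆ {0, x} := by
  intro y hy
  simp only [safeF, EPC.free, List.mem_cons, Sum.inr.injEq, List.not_mem_nil, or_false,
    Set.mem_sdiff, Set.mem_ofPred_eq, Set.mem_singleton_iff] at hy
  simp only [Set.mem_insert_iff, Set.mem_singleton_iff]
  obtain ⟨⟨h1, h2⟩, h3⟩ := hy
  omega

theorem exists_boundP (l : List (Pattern A ℕ)) :
    ∃ n : ℕ, ∀ α ∈ l, ∀ x : ℕ, Sum.inr x ∈ α → x < n := by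
  obtain ⟨n, hn⟩ := exists_bound (W := Unit) (l.map (rn Sum.inl))
  refine ⟨n + 1, fun α hα x hx => Nat.lt_succ_of_le (hn _ (List.mem_map.2 ⟨α, hα, rfl⟩) x ?_)⟩
  exact List.mem_map.2 ⟨_, hx, rfl⟩

theorem exists_boundV (l : List ℕ) : ∃ n : ℕ, ∀ x ∈ l, x < n := by
  obtain ⟨n, hn⟩ := exists_boundP (A := Unit) (l.map fun z => [Sum.inr z])
  refine ⟨n, fun x hx => hn [Sum.inr x] ?_ x (by simp)⟩
  exact List.mem_map.2 ⟨_, hx, rfl⟩

theorem easyInclusion : EasyInclusionStatement := by
  intro A φ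
  obtain ⟨n1, hn1⟩ := exists_boundV (φ.eqs.map Prod.fst)
  obtain ⟨n2, hn2⟩ := exists_boundP (φ.eqs.map Prod.snd)
  obtain ⟨n3, hn3⟩ := exists_boundV (φ.regs.map Prod.fst)
  obtain ⟨n, n0, e1, e2, e3⟩ : ∃ n, 0 < n ∧ n1 ≤ n ∧ n2 ≤ n ∧ n3 ≤ n :=
    ⟨max 1 (max n1 (max n2 n3)), by simp, by simp, by simp, by simp⟩
  have b1 : ∀ e ∈ φ.eqs, e.1 < n := fun e he =>
    lt_of_lt_of_le (hn1 _ (List.mem_map.2 ⟨e, he, rfl⟩)) e1
  have b2 : ∀ e ∈ φ.eqs, ∀ x, Sum.inr x ∈ e.2 → x < n := fun e he x hx =>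
    lt_of_lt_of_le (hn2 _ (List.mem_map.2 ⟨e, he, rfl⟩) x hx) e2
  have b3 : ∀ r ∈ φ.regs, r.1 < n := fun r hr =>
    lt_of_lt_of_le (hn3 _ (List.mem_map.2 ⟨r, hr, rfl⟩)) e3
  let C : EPC A := conjL ((φ.eqs.map fun e => EPC.eq [Sum.inr e.1] e.2) ++
    ((φ.regs.map fun r => EPC.mem r.1 r.2) ++ ((List.range n).map fun x => safeF n x)))
  have satC : ∀ σ : ℕ → List A, C.Sat σ ↔ φ.Sat σ ∧ ∀ x < n, ∃ p s, σ 0 = p ++ σ x ++ s := by
    intro σ
    simp only [C, sat_conjL, List.forall_mem_append, List.forall_mem_map, EPC.Sat,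
      subst_cons_inr, subst_nil, List.append_nil, CQ.Sat, List.mem_range]
    constructor
    · rintro ⟨h1, h2, h3⟩
      exact ⟨⟨h1, h2⟩, fun x hx => (sat_safeF n0 hx σ).1 (h3 x hx)⟩
    · rintro ⟨⟨h1, h2⟩, h3⟩
      exact ⟨h1, h2, fun x hx => (sat_safeF n0 hx σ).2 (h3 x hx)⟩
  have freeC : C.free ⊆ {x | x < n} := by
    apply free_conjL
    simp only [List.forall_mem_append, List.forall_mem_map, List.mem_range]
    refine ⟨fun e he => ?_, fun r hr => ?_, fun x hx => ?_⟩
    · intro y hy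
      simp only [EPC.free, List.mem_singleton, Sum.inr.injEq, Set.mem_ofPred_eq] at hy
      rcases hy with rfl | hy
      · exact b1 e he
      · exact b2 e he y hy
    · intro y hy
      simp only [EPC.free, Set.mem_singleton_iff] at hy
      subst hy
      exact b3 r hr
    · intro y hy
      have := free_safeF n x hy
      simp only [Set.mem_insert_iff, Set.mem_singleton_iff] at this
      rcases this with rfl | rfl
      · exact n0
      · exact hx
  refine ⟨exL (n - 1) C, ?_, ?_⟩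
  · intro x hx
    obtain ⟨h1, h2⟩ := free_exL (n - 1) C hx
    have h3 : x < n := freeC h1
    simp only [Set.mem_ofPred_eq] at h2
    simp only [Set.mem_singleton_iff]
    omega
  · ext u
    simp only [EPC.lang, CQ.lang, Set.mem_ofPred_eq]
    constructor
    · rintro ⟨σ, h, rfl⟩
      obtain ⟨σ', h1, h2⟩ := (sat_exL _ _ _).1 h
      obtain ⟨h3, h4⟩ := (satC σ').1 h2
      let ρ : ℕ → List A := fun x => if x < n then σ' x else []
      have hρ : ∀ x, x < n → ρ x = σ' x := fun x hx => by simp [ρ, hx]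
      refine ⟨ρ, ?_, ⟨fun e he => ?_, fun r hr => ?_⟩, ?_⟩
      · intro x
        by_cases hx : x < n
        · rw [hρ x hx, hρ 0 n0]
          exact h4 x hx
        · exact ⟨ρ 0, [], by simp [ρ, hx]⟩
      · rw [hρ _ (b1 e he), subst_congr (fun x hx => hρ x (b2 e he x hx))]
        exact h3.1 e he
      · rw [hρ _ (b3 r hr)]
        exact h3.2 r hr
      · rw [hρ 0 n0]
        exact h1 0 (Or.inl rfl)
    · rintro ⟨σ, h1, h2, rfl⟩
      refine ⟨σ, (sat_exL _ _ _).2 ⟨σ, fun _ _ => rfl, (satC σ).2 ⟨h2, fun x _ => h1 x⟩⟩, rfl⟩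

end Pool.Agent.Helper62.FCNormal
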