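import Mathlib

set_option autoImplicit false

namespace Pool.Agent.Helper62.Fedadc

open MvPolynomial

/-!
Definitions for the problem on CPET trees: the chromatic symmetric function, its coefficients in
the elementary basis, and trees with a connected partition of every type.
-/

open Classical in
/-- The chromatic symmetric function of `G` in the `N` variables `x_0, ..., x_{N-1}`: the sum over
all proper colourings `κ : V → {0, ..., N-1}` of the product of the variables `x_{κ v}`. -/
noncomputable def chromaticSym {n : ℕ} (G : SimpleGraph (Fin n)) (N : ℕ) :
    MvPolynomial (Fin N) ℚ :=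
  ∑ κ ∈ (Finset.univ : Finset (Fin n → Fin N)).filter (fun κ => ∀ u v, G.Adj u v → κ u ≠ κ v),
    ∏ v, X (κ v)

/-- `c` is the family of coefficients of the chromatic symmetric function of `G` in the elementary
basis: in any number `N` of variables, `X_G` is the sum over all partitions `μ` of the number `n`
of vertices of `c μ` times the product of the elementary symmetric polynomials `e_{μ_i}`. -/
def IsEExpansion {n : ℕ} (G : SimpleGraph (Fin n)) (c : n.Partition → ℚ) : Prop :=
  ∀ N : ℕ, chromaticSym G N = ∑ μ : n.Partition, c μ • esymmPart (Fin N) ℚ μ

/-- Every partition `μ` of the number of vertices is the type of a connected partition: the vertex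
set can be partitioned into blocks that induce connected subgraphs and whose sizes are the parts
of `μ`. -/
def IsCPET {n : ℕ} (G : SimpleGraph (Fin n)) : Prop :=
  ∀ μ : n.Partition, ∃ P : Finpartition (Finset.univ : Finset (Fin n)),
    (∀ B ∈ P.parts, (G.induce (B : Set (Fin n))).Connected) ∧ P.parts.val.map Finset.card = μ.parts

/-- the partition `(3, 2^10)` of 23 -/
def threeTwos : Nat.Partition 23 :=
  ⟨3 ::ₘ Multiset.replicate 10 2, by
    intro i hi
    rcases Multiset.mem_cons.1 hi with h | h
    · omega
    · have := Multiset.eq_of_mem_replicate h; omega, by decide⟩

end Pool.Agent.Helper62.Fedadc
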