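import Pool.Agent.Helper62.FedadcDefs

set_option autoImplicit false

namespace Pool.Agent.Helper62.Fedadc

open MvPolynomial

/-! Graphs given by a parent function -/

def pg (par : ℕ → ℕ) (n : ℕ) : SimpleGraph (Fin n) where
  Adj u v := (v.val < u.val ∧ par u.val = v.val) ∨ (u.val < v.val ∧ par v.val = u.val)
  symm := ⟨fun u v h => h.symm⟩
  loopless := ⟨fun u h => by rcases h with h | h <;> omega⟩

instance (par : ℕ → ℕ) (n : ℕ) : DecidableRel (pg par n).Adj := fun u v => by
  unfold pg; infer_instance

section Z

variable {R : Type} [CommRing R]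

def Z (par : ℕ → ℕ) (N n : ℕ) (W : ℕ → Fin N → R) : R :=
  ∑ κ : Fin n → Fin N, ∏ i : Fin n,
    (if (∀ j : Fin n, j.val < i.val ∧ par i.val = j.val → κ i ≠ κ j) then W i.val (κ i) else 0)

lemma Z_congr (par : ℕ → ℕ) (N n : ℕ) (W W' : ℕ → Fin N → R)
    (h : ∀ i < n, W i = W' i) : Z par N n W = Z par N n W' := by
  unfold Z
  refine Finset.sum_congr rfl fun κ _ => Finset.prod_congr rfl fun i _ => ?_
  rw [h i.val i.isLt]

lemma Z_one (par : ℕ → ℕ) (N : ℕ) (W : ℕ → Fin N → R) :
    Z par N 1 W = ∑ c, W 0 c := by
  unfold Z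
  rw [← Equiv.sum_comp (Equiv.funUnique (Fin 1) (Fin N)).symm]
  refine Finset.sum_congr rfl fun c _ => ?_
  rw [Fin.prod_univ_one, if_pos]
  · rfl
  · intro j hj
    have := j.isLt
    exact absurd hj.1 (by simp)

def msgSum {N : ℕ} (w : Fin N → R) (c : Fin N) : R := ∑ c' : Fin N, if c' ≠ c then w c' else 0

lemma snoc_cs {N n : ℕ} (c' : Fin N) (κ : Fin n → Fin N) (k : Fin n) :
    (Fin.snocEquiv (fun _ => Fin N)) (c', κ) k.castSucc = κ k := by
  simp [Fin.snocEquiv]

lemma snoc_last {N n : ℕ} (c' : Fin N) (κ : Fin n → Fin N) :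
    (Fin.snocEquiv (fun _ => Fin N)) (c', κ) (Fin.last n) = c' := by
  simp [Fin.snocEquiv]

lemma Z_mark (par : ℕ → ℕ) (N n p : ℕ) (hp : p < n) (W : ℕ → Fin N → R) (A : Fin N → R) :
    Z par N n (fun i c => W i c * (if i = p then A c else 1)) =
      ∑ κ : Fin n → Fin N, (∏ i : Fin n,
        (if (∀ j : Fin n, j.val < i.val ∧ par i.val = j.val → κ i ≠ κ j) then W i.val (κ i)
          else 0)) * A (κ ⟨p, hp⟩) := by
  unfold Z
  refine Finset.sum_congr rfl fun κ _ => ?_
  have h2 : ∀ i : Fin n, (if (∀ j : Fin n, j.val < i.val ∧ par i.val = j.val → κ i ≠ κ j)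
        then W i.val (κ i) * (if i.val = p then A (κ i) else 1) else 0) =
        (if (∀ j : Fin n, j.val < i.val ∧ par i.val = j.val → κ i ≠ κ j)
        then W i.val (κ i) else 0) * (if i = ⟨p, hp⟩ then A (κ i) else 1) := by
    intro i
    have : (i = ⟨p, hp⟩) ↔ i.val = p := by
      constructor
      · intro h; rw [h]
      · intro h; ext; exact h
    simp only [this]
    split_ifs <;> simp
  rw [Finset.prod_congr rfl fun i _ => h2 i, Finset.prod_mul_distrib,
    Finset.prod_ite_eq' Finset.univ (⟨p, hp⟩ : Fin n) (fun i => A (κ i)),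
    if_pos (Finset.mem_univ _)]

lemma Z_mark_sub (par : ℕ → ℕ) (N n p : ℕ) (hp : p < n) (W : ℕ → Fin N → R) (A B : Fin N → R) :
    Z par N n (fun i c => W i c * (if i = p then A c - B c else 1)) =
    Z par N n (fun i c => W i c * (if i = p then A c else 1)) -
    Z par N n (fun i c => W i c * (if i = p then B c else 1)) := by
  rw [Z_mark par N n p hp W (fun c => A c - B c), Z_mark par N n p hp, Z_mark par N n p hp,
    ← Finset.sum_sub_distrib]
  exact Finset.sum_congr rfl fun κ _ => by ring

lemma Z_mark_const (par : ℕ → ℕ) (N n p : ℕ) (hp : p < n) (W : ℕ → Fin N → R) (A : R) :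
    Z par N n (fun i c => W i c * (if i = p then A else 1)) = A * Z par N n W := by
  rw [Z_mark par N n p hp W (fun _ => A), ← Finset.sum_mul, mul_comm]
  rfl

lemma Z_succ (par : ℕ → ℕ) (N n : ℕ) (hp : par n < n) (W : ℕ → Fin N → R) :
    Z par N (n + 1) W =
      Z par N n (fun i c => W i c * (if i = par n then msgSum (W n) c else 1)) := by
  rw [Z_mark par N n (par n) hp]
  unfold Z
  rw [← Equiv.sum_comp (Fin.snocEquiv (fun _ => Fin N)), Fintype.sum_prod_type_right]
  refine Finset.sum_congr rfl fun κ _ => ?_
  have h1 : ∀ c' : Fin N, (∏ i : Fin (n + 1),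
      (if (∀ j : Fin (n + 1), j.val < i.val ∧ par i.val = j.val →
        (Fin.snocEquiv (fun _ => Fin N)) (c', κ) i ≠ (Fin.snocEquiv (fun _ => Fin N)) (c', κ) j)
        then W i.val ((Fin.snocEquiv (fun _ => Fin N)) (c', κ) i) else 0)) =
      (∏ i : Fin n, (if (∀ j : Fin n, j.val < i.val ∧ par i.val = j.val → κ i ≠ κ j)
        then W i.val (κ i) else 0)) * (if c' ≠ κ ⟨par n, hp⟩ then W n c' else 0) := by
    intro c'
    rw [Fin.prod_univ_castSucc]
    congr 1
    · refine Finset.prod_congr rfl fun i _ => ?_
      rw [snoc_cs]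
      have : (∀ j : Fin (n + 1), j.val < i.castSucc.val ∧ par i.castSucc.val = j.val →
          κ i ≠ (Fin.snocEquiv (fun _ => Fin N)) (c', κ) j) ↔
          (∀ j : Fin n, j.val < i.val ∧ par i.val = j.val → κ i ≠ κ j) := by
        constructor
        · intro h j hj
          have := h j.castSucc (by simpa using hj)
          rwa [snoc_cs] at this
        · intro h j hj
          have hjn : j.val < n := lt_trans hj.1 i.isLt
          have hj' : j = (⟨j.val, hjn⟩ : Fin n).castSucc := by ext; rfl
          rw [hj', snoc_cs]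
          exact h ⟨j.val, hjn⟩ hj
      simp only [this]
      rfl
    · rw [snoc_last]
      have : (∀ j : Fin (n + 1), j.val < (Fin.last n).val ∧ par (Fin.last n).val = j.val →
          c' ≠ (Fin.snocEquiv (fun _ => Fin N)) (c', κ) j) ↔ c' ≠ κ ⟨par n, hp⟩ := by
        have e2 := snoc_cs c' κ (⟨par n, hp⟩ : Fin n)
        constructor
        · intro h
          have := h (⟨par n, hp⟩ : Fin n).castSucc ⟨by simpa using hp, by simp⟩
          rwa [e2] at this
        · intro h j hj
          have hj' : j = (⟨par n, hp⟩ : Fin n).castSucc := by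
            ext; simpa using hj.2.symm
          rw [hj', e2]
          exact h
      simp only [this]
      rfl
  rw [Finset.sum_congr rfl fun c' _ => h1 c', ← Finset.mul_sum]
  rfl

end Z

lemma chromaticSym_eq (par : ℕ → ℕ) (N n : ℕ) :
    chromaticSym (pg par n) N = Z par N n (fun _ c => X c) := by
  classical
  unfold chromaticSym Z
  rw [Finset.sum_filter]
  refine Finset.sum_congr rfl fun κ _ => ?_
  rw [Finset.prod_ite_zero]
  have : (∀ u v, (pg par n).Adj u v → κ u ≠ κ v) ↔
      (∀ i ∈ (Finset.univ : Finset (Fin n)), ∀ j : Fin n, j.val < i.val ∧ par i.val = j.val → κ i ≠ κ j) := by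
    constructor
    · intro h i _ j hj
      exact h i j (Or.inl hj)
    · intro h u v huv
      rcases huv with h' | h'
      · exact h u (Finset.mem_univ _) v h'
      · exact (h v (Finset.mem_univ _) u h').symm
  simp only [this]


/-! Existence of the expansion -/

/-- products of elementary symmetric polynomials of total degree `n`, in all numbers of variables -/
noncomputable def ESpan (n : ℕ) : Submodule ℚ (∀ N : ℕ, MvPolynomial (Fin N) ℚ) :=
  Submodule.span ℚ (Set.range (fun (μ : n.Partition) (N : ℕ) => esymmPart (Fin N) ℚ μ))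

lemma ESpan_mul {a b : ℕ} {f g : ∀ N : ℕ, MvPolynomial (Fin N) ℚ}
    (hf : f ∈ ESpan a) (hg : g ∈ ESpan b) : f * g ∈ ESpan (a + b) := by
  have h := Submodule.mul_mem_mul hf hg
  unfold ESpan at h
  rw [Submodule.span_mul_span] at h
  refine Submodule.span_le.2 ?_ h
  rintro _ ⟨_, ⟨μ, rfl⟩, _, ⟨ν, rfl⟩, rfl⟩
  refine Submodule.subset_span ⟨⟨μ.parts + ν.parts, ?_, ?_⟩, ?_⟩
  · intro i hi
    rcases Multiset.mem_add.1 hi with h | h
    · exact μ.parts_pos h
    · exact ν.parts_pos h
  · rw [Multiset.sum_add, μ.parts_sum, ν.parts_sum]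
  · funext N
    simp [esymmPart, Multiset.map_add, Multiset.prod_add]

lemma esymm_mem (k : ℕ) : (fun N : ℕ => esymm (Fin N) ℚ k) ∈ ESpan k := by
  refine Submodule.subset_span ⟨Nat.Partition.indiscrete k, ?_⟩
  funext N
  exact esymmPart_indiscrete (Fin N) ℚ k

lemma psum_mem (k : ℕ) (hk : 0 < k) : (fun N : ℕ => psum (Fin N) ℚ k) ∈ ESpan k := by
  induction k using Nat.strong_induction_on with
  | _ k ih =>
    have h : (fun N : ℕ => psum (Fin N) ℚ k) =
        ((-1 : ℚ) ^ (k + 1) * (k : ℚ)) • (fun N : ℕ => esymm (Fin N) ℚ k) -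
        ∑ a ∈ Finset.HasAntidiagonal.antidiagonal k with a.1 ∈ Set.Ioo 0 k,
          ((-1 : ℚ) ^ a.1) • ((fun N : ℕ => esymm (Fin N) ℚ a.1) * (fun N : ℕ => psum (Fin N) ℚ a.2)) := by
      funext N
      rw [psum_eq_mul_esymm_sub_sum (Fin N) ℚ k hk]
      rw [Pi.sub_apply, Pi.smul_apply, Finset.sum_apply]
      congr 1
      · rw [smul_eq_C_mul]; simp
      · refine Finset.sum_congr rfl fun a _ => ?_
        rw [Pi.smul_apply, Pi.mul_apply, smul_eq_C_mul]
        simp [mul_assoc]
    rw [h]
    refine Submodule.sub_mem _ (Submodule.smul_mem _ _ (esymm_mem k)) ?_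
    refine Submodule.sum_mem _ fun a ha => Submodule.smul_mem _ _ ?_
    rw [Finset.mem_filter, Finset.HasAntidiagonal.mem_antidiagonal] at ha
    obtain ⟨h1, h2, h3⟩ := ha
    have := ESpan_mul (esymm_mem a.1) (ih a.2 (by omega) (by omega))
    rwa [h1] at this

lemma Z_mem (par : ℕ → ℕ) (hpar : ∀ i, 0 < i → par i < i) (n : ℕ) :
    ∀ s : ℕ → ℕ, (∀ i, 0 < s i) →
      (fun N : ℕ => Z par N (n + 1) (fun i c => (X c : MvPolynomial (Fin N) ℚ) ^ (s i))) ∈
        ESpan (∑ i ∈ Finset.range (n + 1), s i) := by
  induction n with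
  | zero =>
    intro s hs
    simp only [zero_add, Finset.range_one, Finset.sum_singleton]
    have : (fun N : ℕ => Z par N 1 (fun i c => (X c : MvPolynomial (Fin N) ℚ) ^ (s i))) =
        fun N => psum (Fin N) ℚ (s 0) := by
      funext N
      rw [Z_one]; rfl
    rw [this]
    exact psum_mem _ (hs 0)
  | succ n ih =>
    intro s hs
    have hp : par (n + 1) < n + 1 := hpar (n + 1) (Nat.succ_pos n)
    have key : (fun N : ℕ => Z par N (n + 1 + 1) (fun i c => (X c : MvPolynomial (Fin N) ℚ) ^ (s i)))
        = (fun N : ℕ => Z par N (n + 1) (fun i c => (X c : MvPolynomial (Fin N) ℚ) ^ (s i))) *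
            (fun N => psum (Fin N) ℚ (s (n + 1)))
          - (fun N : ℕ => Z par N (n + 1) (fun i c => (X c : MvPolynomial (Fin N) ℚ) ^
              (s i + if i = par (n + 1) then s (n + 1) else 0))) := by
      funext N
      simp only [Pi.sub_apply, Pi.mul_apply]
      rw [Z_succ par N (n + 1) hp]
      have hm : ∀ c, msgSum (fun c => (X c : MvPolynomial (Fin N) ℚ) ^ (s (n + 1))) c =
          psum (Fin N) ℚ (s (n + 1)) - X c ^ (s (n + 1)) := by
        intro c
        unfold msgSum psum
        rw [eq_sub_iff_add_eq]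
        have : (X c : MvPolynomial (Fin N) ℚ) ^ (s (n + 1)) =
          ∑ c' : Fin N, if c' = c then (X c' : MvPolynomial (Fin N) ℚ) ^ (s (n + 1)) else 0 := by
          simp
        rw [this, ← Finset.sum_add_distrib]
        refine Finset.sum_congr rfl fun c' _ => ?_
        by_cases h : c' = c <;> simp [h]
      simp only [hm]
      rw [Z_mark_sub par N (n + 1) (par (n + 1)) hp
        (fun i c => (X c : MvPolynomial (Fin N) ℚ) ^ (s i)) (fun _ => psum (Fin N) ℚ (s (n + 1)))
        (fun c => X c ^ (s (n + 1))),
        Z_mark_const par N (n + 1) (par (n + 1)) hp, mul_comm]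
      congr 1
      refine Z_congr _ _ _ _ _ fun i _ => ?_
      funext c
      split_ifs <;> simp [pow_add]
    rw [key]
    refine Submodule.sub_mem _ ?_ ?_
    · have := ESpan_mul (ih s hs) (psum_mem (s (n + 1)) (hs _))
      rwa [← Finset.sum_range_succ] at this
    · have := ih (fun i => s i + if i = par (n + 1) then s (n + 1) else 0)
        (fun i => Nat.add_pos_left (hs i) _)
      rw [Finset.sum_add_distrib, Finset.sum_ite_eq' (Finset.range (n + 1)) (par (n + 1))
        (fun _ => s (n + 1)), if_pos (Finset.mem_range.2 hp), ← Finset.sum_range_succ] at this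
      exact this

lemma exists_expansion (par : ℕ → ℕ) (hpar : ∀ i, 0 < i → par i < i) (n : ℕ) :
    ∃ c, IsEExpansion (pg par (n + 1)) c := by
  have h := Z_mem par hpar n (fun _ => 1) (fun _ => Nat.one_pos)
  simp only [Finset.sum_const, Finset.card_range, smul_eq_mul, mul_one] at h
  unfold ESpan at h
  rw [Submodule.mem_span_range_iff_exists_fun] at h
  obtain ⟨c, hc⟩ := h
  refine ⟨c, fun N => ?_⟩
  rw [chromaticSym_eq]
  have := congrFun hc N
  simp only [Finset.sum_apply, Pi.smul_apply, pow_one] at this
  rw [← this]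


def par (i : ℕ) : ℕ := if i = 9 ∨ i = 10 ∨ i = 11 then 0 else if i = 13 then 11 else i - 1

lemma par_lt (i : ℕ) (h : 0 < i) : par i < i := by
  unfold par; split_ifs <;> omega

/-- all weakly decreasing lists of positive integers at most `m` with sum `n` -/
def enumP : ℕ → ℕ → ℕ → List (List ℕ)
  | 0, n, _ => if n = 0 then [[]] else []
  | f + 1, n, m => if n = 0 then [[]] else
      (List.range (min n m)).flatMap (fun x => (enumP f (n - (x + 1)) (x + 1)).map ((x + 1) :: ·))

lemma mem_enumP (l : List ℕ) : ∀ (f n m : ℕ), l.sum = n → (∀ x ∈ l, 0 < x) → (∀ x ∈ l, x ≤ m) →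
    l.Pairwise (· ≥ ·) → n ≤ f → l ∈ enumP f n m := by
  induction l with
  | nil =>
    intro f n m hs _ _ _ _
    simp at hs
    subst hs
    cases f <;> simp [enumP]
  | cons a l ih =>
    intro f n m hs hpos hle hp hf
    have ha : 0 < a := hpos a (by simp)
    have ham : a ≤ m := hle a (by simp)
    simp only [List.sum_cons] at hs
    cases f with
    | zero => omega
    | succ f =>
      have hn : n ≠ 0 := by omega
      simp only [enumP, if_neg hn, List.mem_flatMap, List.mem_range, List.mem_map]
      refine ⟨a - 1, by omega, l, ?_, ?_⟩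
      · have e : a - 1 + 1 = a := by omega
        rw [e]
        refine ih f (n - a) a (by omega) (fun x hx => hpos x (by simp [hx])) ?_ ?_ (by omega)
        · intro x hx
          exact (List.pairwise_cons.1 hp).1 x hx
        · exact (List.pairwise_cons.1 hp).2
      · have e : a - 1 + 1 = a := by omega
        rw [e]

def topF (K : ℕ) : ℕ → ℕ → ℕ
  | 0, i => i
  | f + 1, i => if K.testBit i then i else topF K f (par i)

lemma topF_stable (K : ℕ) (hK : K.testBit 0 = true) : ∀ (f i : ℕ), i < f → topF K f i = topF K (i + 1) i := by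
  intro f i
  induction i using Nat.strong_induction_on generalizing f with
  | _ i ih =>
    intro hf
    obtain ⟨g, rfl⟩ : ∃ g, f = g + 1 := ⟨f - 1, by omega⟩
    unfold topF
    by_cases h : K.testBit i
    · simp [h]
    · simp only [h]
      have hi : 0 < i := by
        rcases Nat.eq_zero_or_pos i with h0 | h0
        · subst h0; exact absurd hK h
        · exact h0
      have hp := par_lt i hi
      rw [if_neg (by simp), if_neg (by simp), ih (par i) hp g (by omega), ih (par i) hp i hp]

lemma topF_top (K i : ℕ) (h : K.testBit i = true) : topF K 23 i = i := by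
  unfold topF; simp [h]

lemma topF_par (K i : ℕ) (hK : K.testBit 0 = true) (h : K.testBit i = false) (hi : i < 23) :
    topF K 23 i = topF K 23 (par i) := by
  have h0 : 0 < i := by
    rcases Nat.eq_zero_or_pos i with h0 | h0
    · subst h0; rw [hK] at h; exact absurd h (by simp)
    · exact h0
  have hp := par_lt i h0
  conv_lhs => unfold topF
  rw [if_neg (by simp [h]), topF_stable K hK 22 (par i) (by omega), topF_stable K hK 23 (par i) (by omega)]

lemma testBit_topF (K : ℕ) (hK : K.testBit 0 = true) (i : ℕ) (hi : i < 23) :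
    K.testBit (topF K 23 i) = true ∧ topF K 23 i ≤ i := by
  induction i using Nat.strong_induction_on with
  | _ i ih =>
    by_cases h : K.testBit i = true
    · rw [topF_top K i h]; exact ⟨h, le_rfl⟩
    · have h' : K.testBit i = false := by simpa using h
      have h0 : 0 < i := by
        rcases Nat.eq_zero_or_pos i with h0 | h0
        · subst h0; exact absurd hK h
        · exact h0
      have hp := par_lt i h0
      rw [topF_par K i hK h' hi]
      have := ih (par i) hp (by omega)
      exact ⟨this.1, by omega⟩

def fib (K t : ℕ) : Finset (Fin 23) := Finset.univ.filter (fun v => topF K 23 v.val = t)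

lemma fib_connected (K : ℕ) (hK : K.testBit 0 = true) (t : Fin 23) (ht : K.testBit t.val = true) :
    ((pg par 23).induce ((fib K t.val : Finset (Fin 23)) : Set (Fin 23))).Connected := by
  have htm : t ∈ ((fib K t.val : Finset (Fin 23)) : Set (Fin 23)) := by
    simp [fib, topF_top K t.val ht]
  rw [SimpleGraph.connected_iff_exists_forall_reachable]
  refine ⟨⟨t, htm⟩, ?_⟩
  have key : ∀ (m : ℕ) (v : Fin 23) (hv : v ∈ ((fib K t.val : Finset (Fin 23)) : Set (Fin 23))),
      v.val = m → ((pg par 23).induce ((fib K t.val : Finset (Fin 23)) : Set (Fin 23))).Reachable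
        ⟨t, htm⟩ ⟨v, hv⟩ := by
    intro m
    induction m using Nat.strong_induction_on with
    | _ m ih =>
      intro v hv hvm
      have hvt : topF K 23 v.val = t.val := by simpa [fib] using hv
      by_cases h : K.testBit v.val = true
      · rw [topF_top K _ h] at hvt
        have : v = t := Fin.ext hvt
        subst this
        exact SimpleGraph.Reachable.refl _
      · have h' : K.testBit v.val = false := by simpa using h
        have h0 : 0 < v.val := by
          rcases Nat.eq_zero_or_pos v.val with h0 | h0
          · rw [h0] at h; exact absurd hK h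
          · exact h0
        have hp := par_lt v.val h0
        have hpt : topF K 23 (par v.val) = t.val := by
          rw [← topF_par K v.val hK h' v.isLt, hvt]
        have hplt : par v.val < 23 := lt_trans hp v.isLt
        have hpm : (⟨par v.val, hplt⟩ : Fin 23) ∈ ((fib K t.val : Finset (Fin 23)) : Set (Fin 23)) := by
          simp [fib, hpt]
        have h1 := ih (par v.val) (by omega) ⟨par v.val, hplt⟩ hpm rfl
        refine h1.trans (SimpleGraph.Adj.reachable ?_)
        rw [SimpleGraph.comap_adj]
        exact Or.inr ⟨hp, rfl⟩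
  intro w
  exact key w.val.val w.val w.property rfl

/-- block sizes, computed by removing the last vertex; the head of the list is the last vertex -/
def sizesL (K : ℕ) : ℕ → List ℕ → List ℕ
  | 0, s => s
  | _ + 1, [] => []
  | n + 1, s :: rest =>
    bif K.testBit (n + 1) then s :: sizesL K n rest
    else sizesL K n (rest.modify (n - par (n + 1)) (· + s))

lemma sizesL_eq (K : ℕ) (hK : K.testBit 0 = true) (n : ℕ) (hn : n < 23) : ∀ (L : List ℕ), L.length = n + 1 →
    ((sizesL K n L : List ℕ) : Multiset ℕ) =
      ((Finset.range (n + 1)).filter (fun t => K.testBit t = true)).val.map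
        (fun t => ∑ i ∈ (Finset.range (n + 1)).filter (fun i => topF K 23 i = t), L.getD (n - i) 0) := by
  induction n with
  | zero =>
    intro L hL
    obtain ⟨a, rfl⟩ := List.length_eq_one_iff.1 hL
    have h0 : topF K 23 0 = 0 := topF_top K 0 hK
    simp [sizesL, Finset.filter_singleton, hK, h0]
  | succ n ih =>
    intro L hL
    obtain ⟨a, rest, rfl⟩ : ∃ a rest, L = a :: rest := by
      cases L with
      | nil => simp at hL
      | cons a rest => exact ⟨a, rest, rfl⟩
    have hrl : rest.length = n + 1 := by simpa using hL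
    have hle : ∀ i ∈ Finset.range (n + 1), topF K 23 i ≤ i := fun i hi =>
      (testBit_topF K hK i (by rw [Finset.mem_range] at hi; omega)).2
    have hget : ∀ i ∈ Finset.range (n + 1), (a :: rest).getD (n + 1 - i) 0 = rest.getD (n - i) 0 := by
      intro i hi
      rw [Finset.mem_range] at hi
      have : n + 1 - i = (n - i) + 1 := by omega
      rw [this, List.getD_cons_succ]
    cases hbit : K.testBit (n + 1) with
    | true =>
      rw [sizesL, hbit, cond_true, ← Multiset.cons_coe, ih (by omega) rest hrl]
      have e1 : (Finset.range (n + 1 + 1)).filter (fun t => K.testBit t = true) =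
          insert (n + 1) ((Finset.range (n + 1)).filter (fun t => K.testBit t = true)) := by
        rw [Finset.range_add_one, Finset.filter_insert, if_pos hbit]
      rw [e1, Finset.insert_val_of_notMem (by simp), Multiset.map_cons]
      congr 1
      · have : (Finset.range (n + 1 + 1)).filter (fun i => topF K 23 i = n + 1) = {n + 1} := by
          ext i
          rw [Finset.mem_filter, Finset.mem_singleton, Finset.mem_range]
          constructor
          · rintro ⟨h1, h2⟩
            by_contra hne
            have := hle i (by rw [Finset.mem_range]; omega)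
            omega
          · rintro rfl
            exact ⟨by omega, topF_top K _ hbit⟩
        rw [this]; simp
      · refine Multiset.map_congr rfl fun t ht => ?_
        have ht' : t ∈ (Finset.range (n + 1)).filter (fun t => K.testBit t = true) := ht
        rw [Finset.mem_filter, Finset.mem_range] at ht'
        have : (Finset.range (n + 1 + 1)).filter (fun i => topF K 23 i = t) =
            (Finset.range (n + 1)).filter (fun i => topF K 23 i = t) := by
          rw [Finset.range_add_one, Finset.filter_insert, if_neg]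
          rw [topF_top K _ hbit]; omega
        rw [this]
        refine Finset.sum_congr rfl fun i hi => ?_
        rw [hget i (Finset.mem_filter.1 hi).1]
    | false =>
      have hp := par_lt (n + 1) (Nat.succ_pos n)
      rw [sizesL, hbit, cond_false, ih (by omega) _ (by simpa using hrl)]
      have e1 : (Finset.range (n + 1 + 1)).filter (fun t => K.testBit t = true) =
          ((Finset.range (n + 1)).filter (fun t => K.testBit t = true)) := by
        rw [Finset.range_add_one, Finset.filter_insert, if_neg (by simp [hbit])]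
      rw [e1]
      refine Multiset.map_congr rfl fun t _ => ?_
      have htop : topF K 23 (n + 1) = topF K 23 (par (n + 1)) := topF_par K _ hK hbit hn
      have hmod : ∀ i ∈ Finset.range (n + 1), (rest.modify (n - par (n + 1)) (· + a)).getD (n - i) 0 =
          rest.getD (n - i) 0 + if i = par (n + 1) then a else 0 := by
        intro i hi
        rw [Finset.mem_range] at hi
        have hlt : n - i < rest.length := by omega
        rw [List.getD_eq_getElem _ _ (by simpa using hlt), List.getD_eq_getElem _ _ hlt,
          List.getElem_modify]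
        by_cases h : i = par (n + 1)
        · rw [if_pos (by rw [h]), if_pos h]
        · rw [if_neg (by omega), if_neg h, add_zero]
      rw [Finset.sum_congr rfl fun i hi => hmod i (Finset.mem_filter.1 hi).1, Finset.sum_add_distrib]
      rw [Finset.range_add_one (n := n + 1), Finset.filter_insert]
      have hs : ∑ i ∈ (Finset.range (n + 1)).filter (fun i => topF K 23 i = t),
          (a :: rest).getD (n + 1 - i) 0 = ∑ i ∈ (Finset.range (n + 1)).filter (fun i => topF K 23 i = t),
          rest.getD (n - i) 0 :=
        Finset.sum_congr rfl fun i hi => hget i (Finset.mem_filter.1 hi).1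
      by_cases h : topF K 23 (n + 1) = t
      · rw [if_pos h, Finset.sum_insert (by simp), hs, Finset.sum_ite_eq', if_pos]
        · simp [add_comm]
        · rw [Finset.mem_filter, Finset.mem_range]
          exact ⟨hp, by rw [← htop, h]⟩
      · rw [if_neg h, hs, Finset.sum_ite_eq', if_neg, add_zero]
        rw [Finset.mem_filter]
        intro h2
        exact h (by rw [htop, h2.2])

def okCert (l : List ℕ) (K : ℕ) : Bool :=
  K.testBit 0 && (sizesL K 22 (List.replicate 23 1)).isPerm l

lemma card_fib (K t : ℕ) : (fib K t).card =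
    ∑ i ∈ (Finset.range 23).filter (fun i => topF K 23 i = t), (List.replicate 23 1).getD (22 - i) 0 := by
  have h1 : (fib K t).card = ((Finset.range 23).filter (fun i => topF K 23 i = t)).card := by
    rw [← Finset.card_map Fin.valEmbedding]
    congr 1
    ext i
    simp only [fib, Finset.mem_map, Finset.mem_filter, Finset.mem_univ, true_and, Finset.mem_range,
      Fin.valEmbedding_apply]
    constructor
    · rintro ⟨v, hv, rfl⟩; exact ⟨v.isLt, hv⟩
    · rintro ⟨hi, h⟩; exact ⟨⟨i, hi⟩, h, rfl⟩
  rw [h1, Finset.card_eq_sum_ones]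
  refine Finset.sum_congr rfl fun i _ => ?_
  rw [List.getD_eq_getElem _ _ (by rw [List.length_replicate]; omega), List.getElem_replicate]

lemma cert_sound (l : List ℕ) (K : ℕ) (h : okCert l K = true) :
    ∃ P : Finpartition (Finset.univ : Finset (Fin 23)),
    (∀ B ∈ P.parts, ((pg par 23).induce (B : Set (Fin 23))).Connected) ∧
      P.parts.val.map Finset.card = (l : Multiset ℕ) := by
  unfold okCert at h
  rw [Bool.and_eq_true, List.isPerm_iff] at h
  obtain ⟨hK, hperm⟩ := h
  set tops : Finset (Fin 23) := Finset.univ.filter (fun t => K.testBit t.val = true) with htops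
  have hmemfib : ∀ v : Fin 23, v ∈ fib K (topF K 23 v.val) := fun v => by simp [fib]
  refine ⟨Finpartition.ofExistsUnique (tops.image (fun t => fib K t.val)) ?_ ?_ ?_, ?_, ?_⟩
  · intro p _; exact Finset.subset_univ p
  · intro v _
    have h1 := testBit_topF K hK v.val v.isLt
    refine ⟨fib K (topF K 23 v.val), ⟨?_, hmemfib v⟩, ?_⟩
    · rw [Finset.mem_image]
      refine ⟨⟨topF K 23 v.val, by have := v.isLt; omega⟩, ?_, rfl⟩
      rw [htops, Finset.mem_filter]
      exact ⟨Finset.mem_univ _, h1.1⟩
    · rintro B ⟨hB, hvB⟩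
      rw [Finset.mem_image] at hB
      obtain ⟨t, _, rfl⟩ := hB
      have : topF K 23 v.val = t.val := by simpa [fib] using hvB
      rw [this]
  · intro hem
    rw [Finset.mem_image] at hem
    obtain ⟨t, ht, hte⟩ := hem
    rw [htops, Finset.mem_filter] at ht
    have : t ∈ fib K t.val := by simp [fib, topF_top K t.val ht.2]
    rw [hte] at this
    exact absurd this (Finset.notMem_empty _)
  · intro B hB
    have hB' : B ∈ tops.image (fun t => fib K t.val) := hB
    rw [Finset.mem_image] at hB'
    obtain ⟨t, ht, rfl⟩ := hB'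
    rw [htops, Finset.mem_filter] at ht
    exact fib_connected K hK t ht.2
  · have hinj : Set.InjOn (fun t : Fin 23 => fib K t.val) (tops : Set (Fin 23)) := by
      intro a ha b hb hab
      have ha' : K.testBit a.val = true := by
        have : a ∈ tops := ha
        rw [htops, Finset.mem_filter] at this; exact this.2
      have : a ∈ fib K a.val := by simp [fib, topF_top K a.val ha']
      simp only at hab
      rw [hab] at this
      have h2 : topF K 23 a.val = b.val := by simpa [fib] using this
      rw [topF_top K _ ha'] at h2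
      exact Fin.ext h2
    have e2 : (tops.image (fun t => fib K t.val)).val = tops.val.map (fun t => fib K t.val) :=
      Finset.image_val_of_injOn hinj
    rw [show (Finpartition.ofExistsUnique (tops.image (fun t => fib K t.val)) _ _ _).parts
      = tops.image (fun t => fib K t.val) from rfl, e2, Multiset.map_map]
    have e3 : tops.val.map (Finset.card ∘ fun t => fib K t.val) =
        (tops.val.map Fin.val).map (fun t => ∑ i ∈ (Finset.range 23).filter (fun i => topF K 23 i = t),
          (List.replicate 23 1).getD (22 - i) 0) := by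
      rw [Multiset.map_map]
      refine Multiset.map_congr rfl fun t _ => ?_
      exact card_fib K t.val
    have e4 : tops.val.map Fin.val = ((Finset.range 23).filter (fun t => K.testBit t = true)).val := by
      have : tops.map Fin.valEmbedding = (Finset.range 23).filter (fun t => K.testBit t = true) := by
        ext i
        simp only [htops, Finset.mem_map, Finset.mem_filter, Finset.mem_univ, true_and, Finset.mem_range,
          Fin.valEmbedding_apply]
        constructor
        · rintro ⟨v, hv, rfl⟩; exact ⟨v.isLt, hv⟩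
        · rintro ⟨hi, h⟩; exact ⟨⟨i, hi⟩, h, rfl⟩
      rw [← this, Finset.map_val]; rfl
    rw [e3, e4, ← sizesL_eq K hK 22 (by norm_num) (List.replicate 23 1) (by simp)]
    exact Multiset.coe_eq_coe.2 hperm

def checkList : List (List ℕ) → List ℕ → Bool
  | [], _ => true
  | _ :: _, [] => false
  | l :: ls, K :: Ks => okCert l K && checkList ls Ks

lemma checkList_sound : ∀ (ls : List (List ℕ)) (Ks : List ℕ), checkList ls Ks = true →
    ∀ l ∈ ls, ∃ K, okCert l K = true
  | [], _, _ => by simp
  | _ :: _, [], h => by simp [checkList] at h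
  | l :: ls, K :: Ks, h => by
    simp only [checkList, Bool.and_eq_true] at h
    intro l' hl'
    rcases List.mem_cons.1 hl' with rfl | h'
    · exact ⟨K, h.1⟩
    · exact checkList_sound ls Ks h.2 l' h'

theorem cpet_of_check (Ks : List ℕ) (h : checkList (enumP 23 23 23) Ks = true) :
    IsCPET (pg par 23) := by
  intro μ
  have hmem : μ.parts.sort (· ≥ ·) ∈ enumP 23 23 23 := by
    refine mem_enumP _ 23 23 23 ?_ ?_ ?_ ?_ le_rfl
    · rw [← Multiset.sum_coe, Multiset.sort_eq]; exact μ.parts_sum
    · intro x hx
      exact μ.parts_pos ((Multiset.mem_sort (· ≥ ·)).1 hx)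
    · intro x hx
      have hx' := (Multiset.mem_sort (· ≥ ·)).1 hx
      have := Multiset.single_le_sum (fun _ _ => Nat.zero_le _) x hx'
      rw [μ.parts_sum] at this
      exact this
    · exact Multiset.pairwise_sort _ _
  obtain ⟨K, hK⟩ := checkList_sound _ _ h _ hmem
  obtain ⟨P, hP1, hP2⟩ := cert_sound _ _ hK
  refine ⟨P, hP1, ?_⟩
  rw [hP2, Multiset.sort_eq]


def certs : List ℕ := [
    8388607, 4194303, 3145727, 2883583, 2818047, 2801663, 2797567, 2796543, 2796287, 2796223,
    2796207, 2796203, 2097151, 1572863, 1441791, 1409023, 1400831, 1399807, 1399551, 1399487,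
    1399471, 1399467, 2795691, 1310719, 1245183, 1228799, 1224703, 1223679, 1223423, 1223359,
    1223343, 1223339, 1212415, 1204223, 1203199, 1202943, 1202879, 1202863, 1202859, 1222827,
    1200127, 1199103, 1198847, 1198783, 1198767, 1198763, 1198591, 1198335, 1198271, 1198255,
    1198251, 1198207, 1198175, 1198167, 1198159, 1198155, 1048575, 786431, 720895, 704511,
    700415, 699391, 699135, 699071, 699055, 699051, 655359, 622591, 614399, 613375,
    613119, 613055, 613039, 613035, 698539, 606207, 602111, 601087, 600831, 600767,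
    600751, 600747, 600063, 599807, 599743, 599727, 599723, 600235, 599679, 599647,
    599639, 600151, 599631, 599627, 600139, 1198119, 589823, 573439, 569343, 568319,
    568063, 567999, 567983, 567979, 565247, 564223, 563967, 563903, 563887, 563883,
    567467, 563711, 563455, 563391, 563375, 563371, 563327, 563295, 563287, 567371,
    563279, 563275, 1198115, 561151, 560127, 559871, 559807, 559791, 559787, 559615,
    559359, 559295, 559279, 559275, 559231, 559199, 559191, 559183, 559179, 559613,
    559357, 559293, 559277, 559167, 559151, 559147, 559143, 559165, 559149, 559139,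
    524287, 393215, 360447, 352255, 351231, 350975, 350911, 350895, 350891, 2793643,
    327679, 311295, 307199, 306175, 305919, 305855, 305839, 305835, 303103, 302079,
    301823, 301759, 301743, 301739, 305323, 301567, 301311, 301247, 301231, 301227,
    301183, 301151, 301143, 305227, 301135, 301131, 1198099, 294911, 286719, 285695,
    285439, 285375, 285359, 285355, 696491, 282623, 281599, 281343, 281279, 281263,
    281259, 281087, 280831, 280767, 280751, 280747, 280703, 280671, 280663, 280655,
    280651, 280575, 280319, 280255, 280239, 280235, 565419, 280191, 280159, 280151,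
    280749, 280143, 280139, 280619, 280615, 280127, 280111, 280107, 559273, 280103,
    280621, 280611, 280099, 559125, 278527, 274431, 273407, 273151, 273087, 273071,
    273067, 272383, 272127, 272063, 272047, 272043, 272555, 271999, 271967, 271959,
    272471, 271951, 271947, 272459, 301075, 271359, 271103, 271039, 271023, 271019,
    270975, 270943, 270935, 272427, 270927, 270923, 280595, 270911, 270895, 270891,
    270887, 272419, 270883, 270847, 270591, 270527, 270511, 270507, 270463, 270431,
    270423, 270415, 270411, 270399, 270383, 270379, 270375, 270371, 270367, 270359,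
    270355, 262143, 196607, 180223, 176127, 175103, 174847, 174783, 174767, 174763,
    163839, 155647, 154623, 154367, 154303, 154287, 154283, 174251, 151551, 150527,
    150271, 150207, 150191, 150187, 150015, 149759, 149695, 149679, 149675, 149631,
    149599, 149591, 149583, 149579, 147455, 143359, 142335, 142079, 142015, 141999,
    141995, 141311, 141055, 140991, 140975, 140971, 141483, 140927, 140895, 140887,
    141399, 140879, 140875, 141387, 149543, 140287, 140031, 139967, 139951, 139947,
    139903, 139871, 139863, 141355, 139855, 139851, 149539, 139839, 139823, 139819,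
    139815, 141347, 139811, 139263, 138239, 137983, 137919, 137903, 137899, 172203,
    137727, 137471, 137407, 137391, 137387, 137343, 137311, 137303, 149673, 137295,
    137291, 149523, 137725, 137469, 137405, 137389, 139435, 137279, 137263, 137259,
    137255, 139339, 137277, 137261, 139307, 137251, 139299, 137721, 137465, 137401,
    137385, 137247, 137239, 172051, 137235, 137245, 137237, 139283, 137241, 270347,
    135167, 134143, 133887, 133823, 133807, 133803, 133631, 133375, 133311, 133295,
    133291, 133247, 133215, 133207, 133199, 133195, 133629, 133373, 133309, 133293,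
    133183, 133167, 133163, 133159, 133181, 133165, 133155, 133625, 133369, 133305,
    133289, 133151, 133143, 133139, 133149, 133141, 133145, 133617, 133361, 133297,
    133135, 133131, 133133, 133129, 131071, 98303, 90111, 89087, 88831, 88767,
    88751, 88747, 2785451, 81919, 77823, 76799, 76543, 76479, 76463, 76459,
    75775, 75519, 75455, 75439, 75435, 75947, 75391, 75359, 75351, 75863,
    75343, 75339, 75851, 1196109, 73727, 72703, 72447, 72383, 72367, 72363,
    688299, 72191, 71935, 71871, 71855, 71851, 71807, 71775, 71767, 75819,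
    71759, 71755, 598089, 72189, 71933, 71869, 71853, 557227, 71743, 71727,
    71723, 71719, 75811, 71741, 71725, 557099, 71715, 557091, 69631, 68607,
    68351, 68287, 68271, 68267, 68095, 67839, 67775, 67759, 67755, 67711,
    67679, 67671, 67663, 67659, 68093, 67837, 67773, 67757, 67647, 67631,
    67627, 67623, 67645, 67629, 67619, 68089, 67833, 67769, 67753, 67615,
    67607, 67603, 67613, 67605, 67609, 67583, 67327, 67263, 67247, 67243,
    82091, 67199, 67167, 67159, 73901, 67151, 67147, 73813, 73805, 67135,
    67119, 67115, 81963, 67111, 71691, 73765, 67107, 81955, 67103, 67095,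
    67761, 67091, 67595, 67597, 67593, 67087, 67083, 81931, 73741, 133125,
    66559, 66303, 66239, 66223, 66219, 66175, 66143, 66135, 73897, 66127,
    66123, 73801, 66111, 66095, 66091, 66087, 73769, 66083, 66079, 66071,
    67745, 66067, 67589, 66063, 66059, 73733, 66055, 81925, 65535, 49151,
    45055, 44031, 43775, 43711, 43695, 43691, 40959, 39935, 39679, 39615,
    39599, 39595, 43179, 39423, 39167, 39103, 39087, 39083, 39039, 39007,
    38999, 43083, 38991, 38987, 1196105, 36863, 35839, 35583, 35519, 35503,
    35499, 35327, 35071, 35007, 34991, 34987, 34943, 34911, 34903, 34895,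
    34891, 35325, 35069, 35005, 34989, 34879, 34863, 34859, 34855, 34877,
    34861, 34851, 34815, 34559, 34495, 34479, 34475, 41131, 34431, 34399,
    34391, 39081, 34383, 34379, 41035, 38931, 34367, 34351, 34347, 34985,
    34343, 34839, 34835, 34339, 34837, 34335, 34327, 40983, 34323, 40979,
    34841, 270339, 33791, 33535, 33471, 33455, 33451, 33407, 33375, 33367,
    41045, 33359, 33355, 147529, 33343, 33327, 33323, 33319, 34827, 33315,
    33311, 33303, 40971, 33299, 34825, 33295, 33291, 133123, 33279, 33023,
    32959, 32943, 32939, 32895, 32863, 32855, 32847, 32843, 32831, 32815,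
    32811, 32807, 32803, 32799, 32791, 32787, 32783, 32779, 32775, 33277,
    33021, 32957, 32941, 32893, 32861, 32853, 32845, 32829, 32813, 32805,
    32797, 32789, 32781, 32771, 32767, 24575, 23551, 23295, 23231, 23215,
    23211, 2752683, 20479, 19455, 19199, 19135, 19119, 19115, 18943, 18687,
    18623, 18607, 18603, 18559, 18527, 18519, 18511, 18507, 18431, 18175,
    18111, 18095, 18091, 655531, 18047, 18015, 18007, 18605, 17999, 17995,
    18475, 18471, 17983, 17967, 17963, 557225, 17959, 18477, 18467, 17955,
    557097, 17407, 17151, 17087, 17071, 17067, 17023, 16991, 16983, 18601,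
    16975, 16971, 18451, 16959, 16943, 16939, 16935, 18453, 16931, 16927,
    16919, 270497, 16915, 270369, 16895, 16639, 16575, 16559, 16555, 16511,
    16479, 16471, 16463, 16459, 16447, 16431, 16427, 16423, 16419, 16415,
    16407, 16403, 16399, 16395, 16893, 16637, 16573, 16557, 16509, 16477,
    16469, 16461, 16445, 16429, 16421, 16413, 16405, 16391, 16389, 16889,
    16633, 16569, 16553, 16505, 16473, 16457, 16441, 16425, 16409, 16387,
    16881, 16625, 16561, 16497, 16465, 16433, 16401, 16383, 12287, 11263,
    11007, 10943, 10927, 10923, 10239, 9983, 9919, 9903, 9899, 10411,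
    9855, 9823, 9815, 10327, 9807, 9803, 10315, 1179725, 9215, 8959,
    8895, 8879, 8875, 8831, 8799, 8791, 10283, 8783, 8779, 589897,
    8767, 8751, 8747, 8743, 10275, 8739, 8703, 8447, 8383, 8367,
    8363, 8319, 8287, 8279, 8271, 8267, 8255, 8239, 8235, 8231,
    8227, 8223, 8215, 8211, 8701, 8445, 8381, 8365, 8317, 8285,
    8277, 8269, 8253, 8237, 8229, 8207, 8203, 8205, 8697, 8441,
    8377, 8361, 8313, 8281, 8265, 8249, 8233, 8199, 8197, 8689,
    8433, 8369, 8305, 8273, 8241, 8195, 8673, 8417, 8353, 8289,
    8225, 8641, 8385, 8257, 8191, 7167, 6911, 6847, 6831, 6827,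
    2621611, 6655, 6399, 6335, 6319, 6315, 6271, 6239, 6231, 1179817,
    6223, 6219, 1179721, 6653, 6397, 6333, 6317, 524459, 6207, 6191,
    6187, 6183, 524363, 6205, 6189, 524331, 6179, 524323, 6649, 6393,
    6329, 6313, 6175, 6167, 262229, 6163, 6173, 6165, 262181, 6169,
    262165, 6641, 6385, 6321, 131241, 6159, 6155, 131145, 6157, 131113,
    6153, 131081, 6625, 6369, 6305, 6151, 65617, 6149, 65553, 6593,
    6337, 32929, 6147, 32801, 6529, 6273, 16449, 6401, 8321, 6145,
    4095, 3071, 2815, 2751, 2735, 2731, 2559, 2303, 2239, 2223,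
    2219, 2175, 2143, 2135, 2127, 2123, 2557, 2301, 2237, 2221,
    2111, 2095, 2091, 2087, 2109, 2093, 2083, 2553, 2297, 2233,
    2217, 2079, 2071, 2067, 2077, 2069, 2073, 2545, 2289, 2225,
    2063, 2059, 2061, 2057, 2529, 2273, 2209, 2055, 2053, 2497,
    2241, 2051, 2433, 2177, 2305, 2049, 2047, 1791, 1727, 1711,
    1707, 2097323, 1663, 1631, 1623, 1048749, 1615, 1611, 1048661, 1048653,
    1599, 1583, 1579, 524457, 1575, 524377, 524361, 1571, 524329, 1567,
    1559, 262321, 1555, 262225, 262193, 262161, 1551, 1547, 131233, 131169,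
    131105, 1543, 65729, 65601, 1539, 32897, 16641, 8193, 1023, 767,
    703, 687, 683, 639, 607, 599, 1048745, 591, 587, 1048649,
    575, 559, 555, 551, 524369, 547, 543, 535, 262305, 531,
    262177, 527, 523, 131137, 519, 65665, 515, 16385, 511, 255,
    191, 175, 171, 127, 95, 87, 79, 75, 63, 47,
    43, 39, 35, 31, 23, 19, 15, 11, 7, 3,
    509, 253, 189, 173, 125, 93, 85, 77, 61, 45,
    37, 29, 21, 13, 5, 505, 249, 185, 169, 121,
    89, 73, 57, 41, 25, 9, 497, 241, 177, 113,
    81, 49, 17, 481, 225, 161, 97, 33, 449, 193,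
    65, 385, 129, 257, 1]

theorem check_true : checkList (enumP 23 23 23) certs = true := by decide +kernel



/-! Numerical evaluation in three variables -/

def toF (v : ℤ × ℤ × ℤ) : Fin 3 → ℤ := ![v.1, v.2.1, v.2.2]

def msg3 (v : ℤ × ℤ × ℤ) : ℤ × ℤ × ℤ := (v.2.1 + v.2.2, v.1 + v.2.2, v.1 + v.2.1)

def mul3 (a b : ℤ × ℤ × ℤ) : ℤ × ℤ × ℤ := (a.1 * b.1, a.2.1 * b.2.1, a.2.2 * b.2.2)

def getV (L : List (ℤ × ℤ × ℤ)) (i : ℕ) : ℤ × ℤ × ℤ := L.getD i (0, 0, 0)

def stepL (n : ℕ) (L : List (ℤ × ℤ × ℤ)) : List (ℤ × ℤ × ℤ) :=
  (List.range n).map (fun i => if i = par n then mul3 (getV L i) (msg3 (getV L n)) else getV L i)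

def runL : ℕ → List (ℤ × ℤ × ℤ) → ℤ
  | 0, L => (getV L 0).1 + (getV L 0).2.1 + (getV L 0).2.2
  | n + 1, L => runL n (stepL (n + 1) L)

lemma getV_stepL (n : ℕ) (L : List (ℤ × ℤ × ℤ)) (i : ℕ) (hi : i < n) :
    getV (stepL n L) i = if i = par n then mul3 (getV L i) (msg3 (getV L n)) else getV L i := by
  have h : getV (stepL n L) i = ((List.range n).map (fun i => if i = par n then
      mul3 (getV L i) (msg3 (getV L n)) else getV L i)).getD i (0, 0, 0) := rfl
  rw [h, List.getD_eq_getElem _ _ (by simpa using hi), List.getElem_map, List.getElem_range]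

lemma msgSum_toF (v : ℤ × ℤ × ℤ) (c : Fin 3) : msgSum (toF v) c = toF (msg3 v) c := by
  fin_cases c <;> simp [msgSum, toF, msg3, Fin.sum_univ_three] 

lemma toF_mul3 (a b : ℤ × ℤ × ℤ) (c : Fin 3) : toF (mul3 a b) c = toF a c * toF b c := by
  fin_cases c <;> simp [toF, mul3]

lemma runL_eq (n : ℕ) : ∀ L : List (ℤ × ℤ × ℤ),
    runL n L = Z par 3 (n + 1) (fun i => toF (getV L i)) := by
  induction n with
  | zero =>
    intro L
    rw [Z_one, Fin.sum_univ_three]
    simp [runL, toF]
  | succ n ih =>
    intro L
    have hp : par (n + 1) < n + 1 := par_lt (n + 1) (Nat.succ_pos n)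
    rw [Z_succ par 3 (n + 1) hp, runL, ih]
    refine Z_congr _ _ _ _ _ fun i hi => ?_
    funext c
    rw [getV_stepL (n + 1) L i hi]
    split_ifs with h
    · rw [toF_mul3, msgSum_toF]
    · simp

lemma Z_map {R S : Type} [CommRing R] [CommRing S] (f : R →+* S) (par : ℕ → ℕ) (N n : ℕ)
    (W : ℕ → Fin N → R) : f (Z par N n W) = Z par N n (fun i c => f (W i c)) := by
  unfold Z
  rw [map_sum]
  refine Finset.sum_congr rfl fun κ _ => ?_
  rw [map_prod]
  refine Finset.prod_congr rfl fun i _ => ?_
  rw [apply_ite f, map_zero]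

lemma eval_chromatic (v : ℤ × ℤ × ℤ) :
    eval (fun c => (toF v c : ℚ)) (chromaticSym (pg par 23) 3) = (runL 22 (List.replicate 23 v) : ℚ) := by
  rw [chromaticSym_eq, runL_eq, Z_map (eval (fun c => (toF v c : ℚ)))]
  have := Z_map (Int.castRingHom ℚ) par 3 23 (fun i => toF (getV (List.replicate 23 v) i))
  simp only [eq_intCast] at this
  rw [this]
  refine Z_congr _ _ _ _ _ fun i hi => ?_
  funext c
  rw [eval_X]
  congr 2
  unfold getV
  rw [List.getD_eq_getElem _ _ (by simpa using hi), List.getElem_replicate]

/-- the partition `(3^a, 2^b)` of 23 -/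
def pa (a b : ℕ) (h : 3 * a + 2 * b = 23) : Nat.Partition 23 :=
  ⟨Multiset.replicate a 3 + Multiset.replicate b 2, by
    intro i hi
    rcases Multiset.mem_add.1 hi with h | h
    · have := Multiset.eq_of_mem_replicate h; omega
    · have := Multiset.eq_of_mem_replicate h; omega, by
    simp; omega⟩

lemma pa_inj {a b a' b' : ℕ} {h : 3 * a + 2 * b = 23} {h' : 3 * a' + 2 * b' = 23}
    (e : pa a b h = pa a' b' h') : a = a' := by
  have := congrArg (fun p => Multiset.count 3 p.parts) e
  simpa [pa, Multiset.count_add, Multiset.count_replicate] using this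

lemma sum_reduce (c : Nat.Partition 23 → ℚ) (E : ℕ → ℚ) (h1 : E 1 = 0) (h4 : ∀ k, 4 ≤ k → E k = 0) :
    ∑ μ : Nat.Partition 23, c μ * (μ.parts.map E).prod =
      c (pa 1 10 rfl) * (E 3 * E 2 ^ 10) + c (pa 3 7 rfl) * (E 3 ^ 3 * E 2 ^ 7) +
      c (pa 5 4 rfl) * (E 3 ^ 5 * E 2 ^ 4) + c (pa 7 1 rfl) * (E 3 ^ 7 * E 2) := by
  classical
  have hsub : ∑ μ ∈ ({pa 1 10 rfl, pa 3 7 rfl, pa 5 4 rfl, pa 7 1 rfl} : Finset (Nat.Partition 23)),
      c μ * (μ.parts.map E).prod = ∑ μ : Nat.Partition 23, c μ * (μ.parts.map E).prod := by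
    refine Finset.sum_subset (Finset.subset_univ _) fun μ _ hμ => ?_
    by_contra hne
    have hprod : (μ.parts.map E).prod ≠ 0 := right_ne_zero_of_mul hne
    have hk : ∀ k ∈ μ.parts, k = 3 ∨ k = 2 := by
      intro k hk
      have hEk : E k ≠ 0 := by
        intro h0
        exact hprod (Multiset.prod_eq_zero (Multiset.mem_map.2 ⟨k, hk, h0⟩))
      have hpos := μ.parts_pos hk
      by_contra hcon
      push Not at hcon
      rcases lt_or_ge k 4 with h | h
      · interval_cases k
        · exact hEk h1
        · exact hcon.2 rfl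
        · exact hcon.1 rfl
      · exact hEk (h4 k h)
    have hparts : μ.parts = Multiset.replicate (μ.parts.count 3) 3 +
        Multiset.replicate (μ.parts.count 2) 2 := by
      ext k
      rw [Multiset.count_add, Multiset.count_replicate, Multiset.count_replicate]
      by_cases h3 : k = 3
      · subst h3; simp
      · by_cases h2 : k = 2
        · subst h2; simp
        · rw [if_neg (fun h => h3 h.symm), if_neg (fun h => h2 h.symm)]
          rw [Multiset.count_eq_zero]
          intro hmem
          rcases hk k hmem with h | h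
          · exact h3 h
          · exact h2 h
    set a := μ.parts.count 3 with ha
    set b := μ.parts.count 2 with hb
    have hsum : 3 * a + 2 * b = 23 := by
      have := μ.parts_sum
      rw [hparts] at this
      simp at this
      omega
    have hμe : μ = pa a b hsum := by
      ext1
      exact hparts
    apply hμ
    simp only [Finset.mem_insert, Finset.mem_singleton]
    have ha7 : a ≤ 7 := by omega
    rw [hμe]
    clear_value a b
    interval_cases a
    · omega
    · left; obtain rfl : b = 10 := by omega
      rfl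
    · omega
    · right; left; obtain rfl : b = 7 := by omega
      rfl
    · omega
    · right; right; left; obtain rfl : b = 4 := by omega
      rfl
    · omega
    · right; right; right; obtain rfl : b = 1 := by omega
      rfl
  rw [← hsub, Finset.sum_insert, Finset.sum_insert, Finset.sum_insert, Finset.sum_singleton]
  · simp [pa]
    ring
  · intro h
    rw [Finset.mem_singleton] at h
    exact absurd (pa_inj h) (by norm_num)
  · intro h
    simp only [Finset.mem_insert, Finset.mem_singleton] at h
    rcases h with h | h <;> exact absurd (pa_inj h) (by norm_num)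
  · intro h
    simp only [Finset.mem_insert, Finset.mem_singleton] at h
    rcases h with h | h | h <;> exact absurd (pa_inj h) (by norm_num)

lemma eval_esymm_ge (x : Fin 3 → ℚ) (k : ℕ) (hk : 4 ≤ k) : eval x (esymm (Fin 3) ℚ k) = 0 := by
  have : Finset.powersetCard k (Finset.univ : Finset (Fin 3)) = ∅ := by
    rw [Finset.powersetCard_eq_empty]
    simp; omega
  rw [esymm, this]; simp

lemma eval_esymm_one (x : Fin 3 → ℚ) : eval x (esymm (Fin 3) ℚ 1) = x 0 + x 1 + x 2 := by
  rw [esymm_one, map_sum, Fin.sum_univ_three]; simp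

lemma eval_esymm_two (x : Fin 3 → ℚ) :
    eval x (esymm (Fin 3) ℚ 2) = x 0 * x 1 + x 0 * x 2 + x 1 * x 2 := by
  have : Finset.powersetCard 2 (Finset.univ : Finset (Fin 3)) = {{0, 1}, {0, 2}, {1, 2}} := by decide
  rw [esymm, this, Finset.sum_insert (by decide), Finset.sum_insert (by decide), Finset.sum_singleton,
    Finset.prod_pair (by decide), Finset.prod_pair (by decide), Finset.prod_pair (by decide)]
  simp; ring

lemma eval_esymm_three (x : Fin 3 → ℚ) :
    eval x (esymm (Fin 3) ℚ 3) = x 0 * x 1 * x 2 := by
  have : Finset.powersetCard 3 (Finset.univ : Finset (Fin 3)) = {Finset.univ} := by decide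
  rw [esymm, this, Finset.sum_singleton, map_prod, Fin.prod_univ_three]
  simp

lemma equation (c : Nat.Partition 23 → ℚ) (hc : IsEExpansion (pg par 23) c) (v : ℤ × ℤ × ℤ) (r e2 e3 : ℤ)
    (h0 : v.1 + v.2.1 + v.2.2 = 0) (h2 : v.1 * v.2.1 + v.1 * v.2.2 + v.2.1 * v.2.2 = e2)
    (h3 : v.1 * v.2.1 * v.2.2 = e3) (hr : runL 22 (List.replicate 23 v) = r) :
    (r : ℚ) = c (pa 1 10 rfl) * ((e3 : ℚ) * (e2 : ℚ) ^ 10) + c (pa 3 7 rfl) * ((e3 : ℚ) ^ 3 * (e2 : ℚ) ^ 7) +
      c (pa 5 4 rfl) * ((e3 : ℚ) ^ 5 * (e2 : ℚ) ^ 4) + c (pa 7 1 rfl) * ((e3 : ℚ) ^ 7 * (e2 : ℚ)) := by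
  have h := congrArg (eval (fun c => (toF v c : ℚ))) (hc 3)
  rw [eval_chromatic, hr, map_sum] at h
  have h' : ∀ μ : Nat.Partition 23, eval (fun c => (toF v c : ℚ)) (c μ • esymmPart (Fin 3) ℚ μ) =
      c μ * (μ.parts.map (fun k => eval (fun c => (toF v c : ℚ)) (esymm (Fin 3) ℚ k))).prod := by
    intro μ
    rw [smul_eval, esymmPart, map_multiset_prod, Multiset.map_map]
    rfl
  rw [Finset.sum_congr rfl fun μ _ => h' μ, sum_reduce c _ ?_ ?_] at h
  · rw [h, eval_esymm_two, eval_esymm_three, ← h2, ← h3]
    simp [toF]
  · rw [eval_esymm_one]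
    simp only [toF]
    simp
    exact_mod_cast h0
  · intro k hk
    exact eval_esymm_ge _ k hk

lemma coeff_eq (c : Nat.Partition 23 → ℚ) (hc : IsEExpansion (pg par 23) c) : c threeTwos = 5 := by
  have e1 := equation c hc (1, 1, -2) (-2502930) (-3) (-2) (by decide) (by decide) (by decide)
    (by decide +kernel)
  have e2 := equation c hc (1, 2, -3) (-20159424390) (-7) (-6) (by decide) (by decide) (by decide)
    (by decide +kernel)
  have e3 := equation c hc (1, 3, -4) (-10835687164380) (-13) (-12) (by decide) (by decide) (by decide)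
    (by decide +kernel)
  have e4 := equation c hc (2, 3, -5) (-3152405469267150) (-19) (-30) (by decide) (by decide) (by decide)
    (by decide +kernel)
  have : threeTwos = pa 1 10 rfl := by
    ext1
    decide
  rw [this]
  norm_num at e1 e2 e3 e4
  linarith


/-! Uniqueness of the expansion -/

noncomputable def expo {n : ℕ} (μ : n.Partition) : Fin n →₀ ℕ :=
  Finsupp.equivFunOnFinite.symm (fun i => μ.parts.count (i.val + 1))

lemma part_le {n : ℕ} (μ : n.Partition) {k : ℕ} (hk : k ∈ μ.parts) : k ≤ n := by
  have := Multiset.single_le_sum (fun _ _ => Nat.zero_le _) k hk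
  rwa [μ.parts_sum] at this

lemma expo_injective {n : ℕ} : Function.Injective (expo (n := n)) := by
  intro μ ν h
  ext1
  ext k
  rcases Nat.eq_zero_or_pos k with h0 | h0
  · subst h0
    rw [Multiset.count_eq_zero_of_notMem, Multiset.count_eq_zero_of_notMem]
    · intro h'; exact absurd (ν.parts_pos h') (by omega)
    · intro h'; exact absurd (μ.parts_pos h') (by omega)
  · rcases Nat.lt_or_ge n k with h1 | h1
    · rw [Multiset.count_eq_zero_of_notMem, Multiset.count_eq_zero_of_notMem]
      · intro h'; exact absurd (part_le ν h') (by omega)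
      · intro h'; exact absurd (part_le μ h') (by omega)
    · have := DFunLike.congr_fun h ⟨k - 1, by omega⟩
      simp only [expo, Finsupp.equivFunOnFinite_symm_apply_apply] at this
      have e : k - 1 + 1 = k := by omega
      rwa [e] at this

lemma esymmAlgHom_expo {n : ℕ} (μ : n.Partition) :
    ((esymmAlgHom (Fin n) ℚ n (monomial (expo μ) 1) : symmetricSubalgebra (Fin n) ℚ) :
      MvPolynomial (Fin n) ℚ) = esymmPart (Fin n) ℚ μ := by
  rw [esymmAlgHom_apply, aeval_monomial, map_one, one_mul, Finsupp.prod_fintype _ _ (by simp)]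
  simp only [expo, Finsupp.equivFunOnFinite_symm_apply_apply]
  rw [Fin.prod_univ_eq_prod_range (fun i => esymm (Fin n) ℚ (i + 1) ^ μ.parts.count (i + 1)) n,
    esymmPart, Finset.prod_multiset_map_count]
  have h1 : ∏ m ∈ μ.parts.toFinset, esymm (Fin n) ℚ m ^ μ.parts.count m =
      ∏ m ∈ Finset.range (n + 1), esymm (Fin n) ℚ m ^ μ.parts.count m := by
    refine Finset.prod_subset ?_ ?_
    · intro k hk
      have := part_le μ (Multiset.mem_toFinset.1 hk)
      rw [Finset.mem_range]; omega
    · intro k _ hk
      rw [Multiset.mem_toFinset] at hk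
      rw [Multiset.count_eq_zero_of_notMem hk, pow_zero]
  rw [h1, Finset.prod_range_succ']
  have h0 : μ.parts.count 0 = 0 :=
    Multiset.count_eq_zero_of_notMem (fun h' => absurd (μ.parts_pos h') (by omega))
  rw [h0, pow_zero, mul_one]

lemma expansion_unique {n : ℕ} (G : SimpleGraph (Fin n)) (c c' : n.Partition → ℚ)
    (h : IsEExpansion G c) (h' : IsEExpansion G c') : c' = c := by
  have h1 : ∑ μ : n.Partition, (c' μ - c μ) • esymmPart (Fin n) ℚ μ = 0 := by
    simp only [sub_smul, Finset.sum_sub_distrib]
    rw [← h n, ← h' n, sub_self]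
  have h2 : esymmAlgHom (Fin n) ℚ n (∑ μ : n.Partition, (c' μ - c μ) • monomial (expo μ) (1 : ℚ)) = 0 := by
    apply Subtype.ext
    rw [map_sum]
    have : ((∑ μ : n.Partition, esymmAlgHom (Fin n) ℚ n ((c' μ - c μ) • monomial (expo μ) (1 : ℚ)) :
        symmetricSubalgebra (Fin n) ℚ) : MvPolynomial (Fin n) ℚ) =
        ∑ μ : n.Partition, (c' μ - c μ) • esymmPart (Fin n) ℚ μ := by
      rw [AddSubmonoidClass.coe_finsetSum]
      refine Finset.sum_congr rfl fun μ _ => ?_
      rw [map_smul, ← esymmAlgHom_expo]
      rfl
    rw [this, h1]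
    rfl
  have h3 : ∑ μ : n.Partition, (c' μ - c μ) • monomial (expo μ) (1 : ℚ) = 0 := by
    apply esymmAlgHom_injective ℚ (σ := Fin n) (n := n) (by simp)
    rw [h2, map_zero]
  funext ν
  have h4 := congrArg (coeff (expo ν)) h3
  rw [coeff_sum] at h4
  simp only [coeff_smul, coeff_monomial, coeff_zero, smul_eq_mul] at h4
  rw [Finset.sum_eq_single ν] at h4
  · simp at h4
    linarith
  · intro μ _ hne
    rw [if_neg (fun e => hne (expo_injective e)), mul_zero]
  · intro hn; exact absurd (Finset.mem_univ ν) hn

/-! The tree -/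

lemma pg_connected : (pg par 23).Connected := by
  rw [SimpleGraph.connected_iff_exists_forall_reachable]
  refine ⟨⟨0, by norm_num⟩, ?_⟩
  have key : ∀ (m : ℕ) (v : Fin 23), v.val = m → (pg par 23).Reachable ⟨0, by norm_num⟩ v := by
    intro m
    induction m using Nat.strong_induction_on with
    | _ m ih =>
      intro v hvm
      rcases Nat.eq_zero_or_pos v.val with h0 | h0
      · have : v = ⟨0, by norm_num⟩ := Fin.ext h0
        rw [this]
      · have hp := par_lt v.val h0
        have hplt : par v.val < 23 := lt_trans hp v.isLt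
        have h1 := ih (par v.val) (by omega) ⟨par v.val, hplt⟩ rfl
        exact h1.trans (SimpleGraph.Adj.reachable (Or.inr ⟨hp, rfl⟩))
  intro w
  exact key w.val w rfl

lemma pg_card : (pg par 23).edgeFinset.card = 22 := by decide +kernel

lemma pg_isTree : (pg par 23).IsTree := by
  rw [SimpleGraph.isTree_iff_connected_and_card]
  refine ⟨pg_connected, ?_⟩
  have h : Nat.card (pg par 23).edgeSet = 22 := by
    rw [Nat.card_eq_fintype_card, ← pg_card, SimpleGraph.edgeFinset_card]
  rw [h]
  simp

lemma pg_maxDegree : (pg par 23).maxDegree = 4 := by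
  apply le_antisymm
  · apply SimpleGraph.maxDegree_le_of_forall_degree_le
    intro v
    revert v
    decide +kernel
  · have h := (pg par 23).degree_le_maxDegree 0
    have h4 : (pg par 23).degree 0 = 4 := by decide +kernel
    omega

theorem main : ∃ (T : SimpleGraph (Fin 23)) (_ : DecidableRel T.Adj),
    T.IsTree ∧ T.maxDegree = 4 ∧ (∃ u v, u ≠ v ∧ 3 ≤ T.degree u ∧ 3 ≤ T.degree v) ∧ IsCPET T ∧
    ∃ c : Nat.Partition 23 → ℚ,
      IsEExpansion T c ∧ (∀ c', IsEExpansion T c' → c' = c) ∧ c threeTwos = 5 := by
  refine ⟨pg par 23, inferInstance, pg_isTree, pg_maxDegree, ⟨0, 11, by decide, by decide +kernel,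
    by decide +kernel⟩, cpet_of_check certs check_true, ?_⟩
  obtain ⟨c, hc⟩ := exists_expansion par par_lt 22
  exact ⟨c, hc, fun c' hc' => expansion_unique _ c c' hc hc', coeff_eq c hc⟩


end Pool.Agent.Helper62.Fedadc
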