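import Mathlib

/-!
The fractional transversal game on a finite hypergraph, its values, and the statement that after
integer moves Staller always has an optimal integer reply.
-/

set_option autoImplicit false

namespace Pool.Agent.Helper62.FracGame

variable {V : Type} [DecidableEq V]

/-- A load function assigns a real load to every edge. -/
abbrev Load (V : Type) := Finset V → ℝ

/-- A move: a finite or infinite sequence of submoves `(vtx k, wt k)` for `k < len`. -/
structure Move (V : Type) where
  /-- the number of submoves, finite or infinite -/
  len : ℕ∞
  /-- the vertex of the submove with index `k` -/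
  vtx : ℕ → V
  /-- the weight of the submove with index `k` -/
  wt : ℕ → ℝ

/-- The weight of the submove with index `k`, and `0` if there is no such submove. -/
noncomputable def Move.w (m : Move V) (k : ℕ) : ℝ := if (k : ℕ∞) < m.len then m.wt k else 0

/-- The total weight of a move. -/
noncomputable def Move.total (m : Move V) : ℝ := ∑' k, m.w k

/-- The weight which the submoves with index less than `k` put on vertices of `E`. -/
noncomputable def Move.sumOn (m : Move V) (E : Finset V) (k : ℕ) : ℝ :=
  ∑ s ∈ Finset.range k, if m.vtx s ∈ E then m.w s else 0

/-- The weight which the whole move puts on vertices of `E`. -/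
noncomputable def Move.weightOn (m : Move V) (E : Finset V) : ℝ :=
  ∑' s, if m.vtx s ∈ E then m.w s else 0

/-- The load function after the move `m` is made from the load function `ℓ`. -/
noncomputable def Move.after (m : Move V) (ℓ : Load V) : Load V :=
  fun E => min 1 (ℓ E + m.weightOn E)

/-- All edges have load `1`. -/
def FullyCovered (H : Finset (Finset V)) (ℓ : Load V) : Prop := ∀ E ∈ H, ℓ E = 1

/-- The move `m` is legal from the load function `ℓ`: all weights lie in `[0,1]`; for every submove
some edge containing its vertex has room for the whole weight; and the total weight is `1`, or it is
at most `1` and the move ends the game. -/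
structure Legal (H : Finset (Finset V)) (ℓ : Load V) (m : Move V) : Prop where
  wt_mem : ∀ k : ℕ, (k : ℕ∞) < m.len → 0 ≤ m.wt k ∧ m.wt k ≤ 1
  summable : Summable m.w
  room : ∀ k : ℕ, (k : ℕ∞) < m.len → ∃ E ∈ H, m.vtx k ∈ E ∧ ℓ E + m.sumOn E k + m.wt k ≤ 1
  total_eq : m.total = 1 ∨ (m.total ≤ 1 ∧ FullyCovered H (m.after ℓ))

/-- The two players. -/
inductive Player
  | edgeHitter
  | staller

open Classical in
/-- The value (total weight added under optimal play) of the game in which only the first `n` moves
are counted and the given player moves first from the load function `ℓ`; it is `0` if `ℓ` covers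
`H` fully. Edge-hitter minimises and Staller maximises. -/
noncomputable def val (H : Finset (Finset V)) : ℕ → Player → Load V → EReal
  | 0, _, _ => 0
  | n + 1, .edgeHitter, ℓ =>
    if FullyCovered H ℓ then 0
    else ⨅ (m : Move V) (_ : Legal H ℓ m), ((m.total : ℝ) : EReal) + val H n .staller (m.after ℓ)
  | n + 1, .staller, ℓ =>
    if FullyCovered H ℓ then 0
    else ⨆ (m : Move V) (_ : Legal H ℓ m), ((m.total : ℝ) : EReal) + val H n .edgeHitter (m.after ℓ)

/-- The value of the game from the load function `ℓ`. Every submove is counted fully in the load of
some edge, so every move of weight `1` raises the sum of the loads of all edges by at least `1`;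
hence a play has at most as many moves as there are edges, and counting that many moves counts the
whole play. (That counting more moves does not change the value is proved as `val_stable` in
`FracGameProof.lean`.) -/
noncomputable def gameValue (H : Finset (Finset V)) (P : Player) (ℓ : Load V) : EReal :=
  val H H.card P ℓ

/-- The integer move at `v`: the single submove `(v, 1)`. -/
def intMove (v : V) : Move V := ⟨1, fun _ => v, fun _ => 1⟩

/-- A legal move `m` of Staller from `ℓ` is optimal if its total weight plus the value of the game
after it, with Edge-hitter to move, is the value of the game from `ℓ` with Staller to move. -/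
def OptimalForStaller (H : Finset (Finset V)) (ℓ : Load V) (m : Move V) : Prop :=
  Legal H ℓ m ∧
    ((m.total : ℝ) : EReal) + gameValue H .edgeHitter (m.after ℓ) = gameValue H .staller ℓ

/-- The moves `(v, 1)` for `v` in the list can be played one after the other from `ℓ`, the game not
being over before any of them. -/
def IntegerPlay (H : Finset (Finset V)) : Load V → List V → Prop
  | _, [] => True
  | ℓ, v :: p => ¬ FullyCovered H ℓ ∧ Legal H ℓ (intMove v) ∧ IntegerPlay H ((intMove v).after ℓ) p

/-- The load function after the integer moves listed by `p`. -/
noncomputable def loadAfter : Load V → List V → Load V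
  | ℓ, [] => ℓ
  | ℓ, v :: p => loadAfter ((intMove v).after ℓ) p

end Pool.Agent.Helper62.FracGame
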