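import Pool.Agent.Helper62.FracGameDefs
set_option autoImplicit false
set_option linter.unusedSectionVars false
set_option maxRecDepth 40000
namespace Pool.Agent.Helper62.FracGame
variable {V : Type} [DecidableEq V]

/-! Basic facts on moves -/

lemma Move.w_nonneg {H : Finset (Finset V)} {ℓ : Load V} {m : Move V} (h : Legal H ℓ m) (k : ℕ) :
    0 ≤ m.w k := by
  unfold Move.w
  split_ifs with hk
  · exact (h.wt_mem k hk).1
  · exact le_rfl

lemma summable_on (m : Move V) (hs : Summable m.w) (hn : ∀ k, 0 ≤ m.w k) (E : Finset V) :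
    Summable (fun s => if m.vtx s ∈ E then m.w s else 0) := by
  refine Summable.of_nonneg_of_le (fun k => ?_) (fun k => ?_) hs
  · split_ifs
    · exact hn k
    · exact le_rfl
  · split_ifs
    · exact le_rfl
    · exact hn k

lemma weightOn_nonneg (m : Move V) (hn : ∀ k, 0 ≤ m.w k) (E : Finset V) : 0 ≤ m.weightOn E := by
  unfold Move.weightOn
  refine tsum_nonneg fun k => ?_
  split_ifs
  · exact hn k
  · exact le_rfl

lemma total_nonneg (m : Move V) (hn : ∀ k, 0 ≤ m.w k) : 0 ≤ m.total := tsum_nonneg hn

/-- the weights put on pairwise disjoint edges add up to at most the total -/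
lemma sum_weightOn_le (m : Move V) (hs : Summable m.w) (hn : ∀ k, 0 ≤ m.w k)
    (D : Finset (Finset V)) (hD : ∀ E ∈ D, ∀ F ∈ D, E ≠ F → Disjoint E F) :
    ∑ E ∈ D, m.weightOn E ≤ m.total := by
  unfold Move.weightOn Move.total
  rw [← Summable.tsum_finsetSum (fun E _ => summable_on m hs hn E)]
  refine Summable.tsum_le_tsum (fun k => ?_) (summable_sum fun E _ => summable_on m hs hn E) hs
  by_cases h : ∃ E ∈ D, m.vtx k ∈ E
  · obtain ⟨E, hE, hk⟩ := h
    rw [Finset.sum_eq_single E]
    · rw [if_pos hk]
    · intro F hF hne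
      rw [if_neg]
      intro hkF
      exact Finset.disjoint_left.1 (hD F hF E hE hne) hkF hk
    · intro h; exact absurd hE h
  · push Not at h
    rw [Finset.sum_eq_zero]
    · exact hn k
    · intro E hE; rw [if_neg (h E hE)]

/-- the deficit of a family of edges -/
noncomputable def deficit (D : Finset (Finset V)) (ℓ : Load V) : ℝ := ∑ E ∈ D, (1 - ℓ E)

lemma after_le (m : Move V) (ℓ : Load V) (E : Finset V) : m.after ℓ E ≤ 1 := min_le_left _ _

lemma le_after (m : Move V) (hn : ∀ k, 0 ≤ m.w k) (ℓ : Load V) (E : Finset V) (h : ℓ E ≤ 1) :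
    ℓ E ≤ m.after ℓ E := by
  unfold Move.after
  refine le_min h ?_
  have := weightOn_nonneg m hn E
  linarith

lemma deficit_after (m : Move V) (hs : Summable m.w) (hn : ∀ k, 0 ≤ m.w k)
    (D : Finset (Finset V)) (hD : ∀ E ∈ D, ∀ F ∈ D, E ≠ F → Disjoint E F) (ℓ : Load V) :
    deficit D ℓ - m.total ≤ deficit D (m.after ℓ) := by
  have h1 := sum_weightOn_le m hs hn D hD
  have h2 : ∑ E ∈ D, (1 - ℓ E) - ∑ E ∈ D, m.weightOn E ≤ ∑ E ∈ D, (1 - m.after ℓ E) := by
    rw [← Finset.sum_sub_distrib]
    refine Finset.sum_le_sum fun E _ => ?_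
    have : m.after ℓ E ≤ ℓ E + m.weightOn E := min_le_right _ _
    linarith
  unfold deficit
  linarith

/-! Adding a submove in front of a move -/

def Move.cons (v : V) (x : ℝ) (m : Move V) : Move V :=
  ⟨m.len + 1, fun k => Nat.casesOn k v m.vtx, fun k => Nat.casesOn k x m.wt⟩

lemma cons_w_zero (v : V) (x : ℝ) (m : Move V) : (Move.cons v x m).w 0 = x := by
  have h : ((0 : ℕ) : ℕ∞) < m.len + 1 := by simp
  exact if_pos h

lemma cast_succ_lt (k : ℕ) (l : ℕ∞) : ((k + 1 : ℕ) : ℕ∞) < l + 1 ↔ (k : ℕ∞) < l := by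
  induction l using ENat.recTopCoe with
  | top => simp
  | coe l => norm_cast; omega

lemma cons_w_succ (v : V) (x : ℝ) (m : Move V) (k : ℕ) : (Move.cons v x m).w (k + 1) = m.w k := by
  unfold Move.w Move.cons
  simp only [cast_succ_lt]

lemma cons_summable (v : V) (x : ℝ) (m : Move V) (hs : Summable m.w) :
    Summable (Move.cons v x m).w := by
  rw [← summable_nat_add_iff 1]
  simpa [cons_w_succ] using hs

lemma cons_total (v : V) (x : ℝ) (m : Move V) (hs : Summable m.w) :
    (Move.cons v x m).total = x + m.total := by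
  unfold Move.total
  rw [(cons_summable v x m hs).tsum_eq_zero_add, cons_w_zero]
  simp only [cons_w_succ]

lemma cons_w_nonneg (v : V) (x : ℝ) (m : Move V) (hx : 0 ≤ x) (hn : ∀ k, 0 ≤ m.w k) (k : ℕ) :
    0 ≤ (Move.cons v x m).w k := by
  cases k with
  | zero => rw [cons_w_zero]; exact hx
  | succ k => rw [cons_w_succ]; exact hn k

lemma cons_weightOn (v : V) (x : ℝ) (m : Move V) (hs : Summable m.w) (hx : 0 ≤ x)
    (hn : ∀ k, 0 ≤ m.w k) (E : Finset V) :
    (Move.cons v x m).weightOn E = (if v ∈ E then x else 0) + m.weightOn E := by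
  unfold Move.weightOn
  rw [(summable_on _ (cons_summable v x m hs) (cons_w_nonneg v x m hx hn) E).tsum_eq_zero_add,
    cons_w_zero]
  simp only [cons_w_succ]
  rfl

lemma cons_sumOn_succ (v : V) (x : ℝ) (m : Move V) (E : Finset V) (k : ℕ) :
    (Move.cons v x m).sumOn E (k + 1) = (if v ∈ E then x else 0) + m.sumOn E k := by
  unfold Move.sumOn
  rw [Finset.sum_range_succ', cons_w_zero, add_comm]
  simp only [cons_w_succ]
  rfl

/-- the room condition, with respect to arbitrary real loads -/
structure Ok (H : Finset (Finset V)) (u : Load V) (m : Move V) : Prop where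
  wt_mem : ∀ k : ℕ, (k : ℕ∞) < m.len → 0 ≤ m.wt k ∧ m.wt k ≤ 1
  summable : Summable m.w
  room : ∀ k : ℕ, (k : ℕ∞) < m.len → ∃ E ∈ H, m.vtx k ∈ E ∧ u E + m.sumOn E k + m.wt k ≤ 1

lemma Ok.nonneg {H : Finset (Finset V)} {u : Load V} {m : Move V} (h : Ok H u m) (k : ℕ) :
    0 ≤ m.w k := by
  unfold Move.w
  split_ifs with hk
  · exact (h.wt_mem k hk).1
  · exact le_rfl

lemma Legal.ok {H : Finset (Finset V)} {u : Load V} {m : Move V} (h : Legal H u m) : Ok H u m :=
  ⟨h.wt_mem, h.summable, h.room⟩

lemma Ok.cons {H : Finset (Finset V)} {u : Load V} {m : Move V} (v : V) (x : ℝ)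
    (hx : 0 ≤ x) (hx1 : x ≤ 1) (hroom : ∃ E ∈ H, v ∈ E ∧ u E + x ≤ 1)
    (h : Ok H (fun E => u E + if v ∈ E then x else 0) m) : Ok H u (Move.cons v x m) := by
  refine ⟨?_, cons_summable v x m h.summable, ?_⟩
  · intro k hk
    cases k with
    | zero => exact ⟨hx, hx1⟩
    | succ k =>
      have hk' : (k : ℕ∞) < m.len := (cast_succ_lt k m.len).1 hk
      exact h.wt_mem k hk'
  · intro k hk
    cases k with
    | zero =>
      obtain ⟨E, hE, hv, he⟩ := hroom
      refine ⟨E, hE, hv, ?_⟩
      have : (Move.cons v x m).sumOn E 0 = 0 := by simp [Move.sumOn]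
      rw [this, add_zero]
      exact he
    | succ k =>
      have hk' : (k : ℕ∞) < m.len := (cast_succ_lt k m.len).1 hk
      obtain ⟨E, hE, hv, he⟩ := h.room k hk'
      refine ⟨E, hE, hv, ?_⟩
      rw [cons_sumOn_succ]
      have : (Move.cons v x m).wt (k + 1) = m.wt k := rfl
      rw [this]
      linarith

/-- the empty sequence of submoves -/
def Move.nil (v : V) : Move V := ⟨0, fun _ => v, fun _ => 0⟩

lemma nil_w (v : V) (k : ℕ) : (Move.nil v).w k = 0 := by simp [Move.w, Move.nil]

lemma nil_ok (H : Finset (Finset V)) (u : Load V) (v : V) : Ok H u (Move.nil v) := by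
  refine ⟨?_, ?_, ?_⟩
  · intro k hk; simp [Move.nil] at hk
  · have : (Move.nil v).w = fun _ => 0 := funext (nil_w v)
    rw [this]; exact summable_zero
  · intro k hk; simp [Move.nil] at hk

lemma nil_total (v : V) : (Move.nil v).total = 0 := by simp [Move.total, nil_w]

lemma nil_weightOn (v : V) (E : Finset V) : (Move.nil v).weightOn E = 0 := by
  simp [Move.weightOn, nil_w]

/-- any partially used budget can be spent, unless everything gets covered before -/
lemma exists_spend (H : Finset (Finset V)) (hH : ∅ ∉ H) (v₀ : V) (n : ℕ) : ∀ (u : Load V) (b : ℝ),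
    0 ≤ b → b ≤ 1 → (∀ E ∈ H, 0 ≤ u E) → (H.filter (fun E => u E < 1)).card ≤ n →
    ∃ m : Move V, Ok H u m ∧ m.total ≤ b ∧
      (m.total = b ∨ ∀ E ∈ H, 1 ≤ u E + m.weightOn E) := by
  induction n with
  | zero =>
    intro u b hb hb1 _ hc
    refine ⟨Move.nil v₀, nil_ok H u v₀, by rw [nil_total]; exact hb, Or.inr fun E hE => ?_⟩
    rw [nil_weightOn, add_zero]
    by_contra hlt
    push Not at hlt
    have : E ∈ H.filter (fun E => u E < 1) := Finset.mem_filter.2 ⟨hE, hlt⟩
    have := Finset.card_pos.2 ⟨E, this⟩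
    omega
  | succ n ih =>
    intro u b hb hb1 hu hc
    by_cases hall : ∀ E ∈ H, 1 ≤ u E
    · refine ⟨Move.nil v₀, nil_ok H u v₀, by rw [nil_total]; exact hb, Or.inr fun E hE => ?_⟩
      rw [nil_weightOn, add_zero]
      exact hall E hE
    · push Not at hall
      obtain ⟨E, hE, hlt⟩ := hall
      obtain ⟨v, hv⟩ : E.Nonempty := by
        rw [Finset.nonempty_iff_ne_empty]
        rintro rfl
        exact hH hE
      rcases le_total b (1 - u E) with hle | hle
      · refine ⟨Move.cons v b (Move.nil v₀), Ok.cons v b hb hb1 ⟨E, hE, hv, by linarith⟩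
          (nil_ok H _ v₀), ?_, Or.inl ?_⟩
        · rw [cons_total _ _ _ (nil_ok H u v₀).summable, nil_total, add_zero]
        · rw [cons_total _ _ _ (nil_ok H u v₀).summable, nil_total, add_zero]
      · have hw0 : 0 ≤ 1 - u E := by linarith
        have hw1 : 1 - u E ≤ 1 := by have := hu E hE; linarith
        obtain ⟨m, hm, hmt, hmc⟩ := ih (fun F => u F + if v ∈ F then (1 - u E) else 0)
          (b - (1 - u E)) (by linarith) (by linarith)
          (fun F hF => by
            have := hu F hF
            show 0 ≤ u F + if v ∈ F then (1 - u E) else 0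
            split_ifs <;> linarith)
          (by
            have hss : H.filter (fun F => u F + (if v ∈ F then (1 - u E) else 0) < 1) ⊆
                (H.filter (fun F => u F < 1)).erase E := by
              intro F hF
              rw [Finset.mem_filter] at hF
              rw [Finset.mem_erase, Finset.mem_filter]
              refine ⟨?_, hF.1, ?_⟩
              · rintro rfl
                rw [if_pos hv] at hF
                linarith [hF.2]
              · have h2 := hF.2
                split_ifs at h2 <;> linarith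
            have := Finset.card_le_card hss
            rw [Finset.card_erase_of_mem (Finset.mem_filter.2 ⟨hE, hlt⟩)] at this
            omega)
        refine ⟨Move.cons v (1 - u E) m, Ok.cons v _ hw0 hw1 ⟨E, hE, hv, by linarith⟩ hm, ?_, ?_⟩
        · rw [cons_total _ _ _ hm.summable]; linarith
        · rcases hmc with h | h
          · left; rw [cons_total _ _ _ hm.summable, h]; ring
          · right
            intro F hF
            rw [cons_weightOn _ _ _ hm.summable hw0 hm.nonneg]
            have := h F hF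
            linarith

lemma fullyCovered_after (H : Finset (Finset V)) (ℓ : Load V) (m : Move V)
    (h : ∀ E ∈ H, 1 ≤ ℓ E + m.weightOn E) : FullyCovered H (m.after ℓ) := by
  intro E hE
  exact min_eq_left (h E hE)

lemma exists_legal (H : Finset (Finset V)) (hH : ∅ ∉ H) (ℓ : Load V) (hℓ : ∀ E ∈ H, 0 ≤ ℓ E)
    (hne : ¬ FullyCovered H ℓ) : ∃ m, Legal H ℓ m := by
  have : ∃ E ∈ H, ℓ E ≠ 1 := by
    unfold FullyCovered at hne
    push Not at hne
    exact hne
  obtain ⟨E, hE, _⟩ := this
  obtain ⟨v, _⟩ : E.Nonempty := by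
    rw [Finset.nonempty_iff_ne_empty]
    rintro rfl
    exact hH hE
  obtain ⟨m, hm, hmt, hmc⟩ := exists_spend H hH v _ ℓ 1 zero_le_one le_rfl hℓ le_rfl
  refine ⟨m, hm.wt_mem, hm.summable, hm.room, ?_⟩
  rcases hmc with h | h
  · exact Or.inl h
  · exact Or.inr ⟨hmt, fullyCovered_after H ℓ m h⟩


lemma val_full (H : Finset (Finset V)) (n : ℕ) (P : Player) (ℓ : Load V) (h : FullyCovered H ℓ) :
    val H n P ℓ = 0 := by
  cases n with
  | zero => cases P <;> rfl
  | succ n => cases P <;> simp [val, h]

lemma val_eh (H : Finset (Finset V)) (n : ℕ) (ℓ : Load V) (h : ¬ FullyCovered H ℓ) :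
    val H (n + 1) .edgeHitter ℓ =
      ⨅ (m : Move V) (_ : Legal H ℓ m), ((m.total : ℝ) : EReal) + val H n .staller (m.after ℓ) := by
  simp [val, h]

lemma val_st (H : Finset (Finset V)) (n : ℕ) (ℓ : Load V) (h : ¬ FullyCovered H ℓ) :
    val H (n + 1) .staller ℓ =
      ⨆ (m : Move V) (_ : Legal H ℓ m), ((m.total : ℝ) : EReal) + val H n .edgeHitter (m.after ℓ) := by
  simp [val, h]

lemma after_nonneg (m : Move V) (hn : ∀ k, 0 ≤ m.w k) (ℓ : Load V) (E : Finset V) (h : 0 ≤ ℓ E) :
    0 ≤ m.after ℓ E := by
  unfold Move.after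
  have := weightOn_nonneg m hn E
  exact le_min zero_le_one (by linarith)

/-- the total weight still to be added is at least the deficit of any family of disjoint edges -/
lemma lower_bound (H : Finset (Finset V)) (hH : ∅ ∉ H) (D : Finset (Finset V)) (hDH : D ⊆ H)
    (hD : ∀ E ∈ D, ∀ F ∈ D, E ≠ F → Disjoint E F) (n : ℕ) : ∀ (P : Player) (ℓ : Load V),
    (∀ E ∈ H, 0 ≤ ℓ E) → ((min (n : ℝ) (deficit D ℓ) : ℝ) : EReal) ≤ val H n P ℓ := by
  induction n with
  | zero =>
    intro P ℓ _
    have : val H 0 P ℓ = 0 := by cases P <;> rfl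
    rw [this]
    have h : min ((0 : ℕ) : ℝ) (deficit D ℓ) ≤ 0 := by simp
    exact_mod_cast h
  | succ n ih =>
    intro P ℓ hℓ
    by_cases hf : FullyCovered H ℓ
    · rw [val_full H _ P ℓ hf]
      have hd : deficit D ℓ = 0 := by
        unfold deficit
        refine Finset.sum_eq_zero fun E hE => ?_
        rw [hf E (hDH hE)]; ring
      have h : min ((n + 1 : ℕ) : ℝ) (deficit D ℓ) ≤ 0 := by rw [hd]; exact min_le_right _ _
      exact_mod_cast h
    · have key : ∀ (Q : Player) (m : Move V), Legal H ℓ m →
          ((min ((n + 1 : ℕ) : ℝ) (deficit D ℓ) : ℝ) : EReal) ≤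
            ((m.total : ℝ) : EReal) + val H n Q (m.after ℓ) := by
        intro Q m hm
        have hn := hm.ok.nonneg
        have h1 := deficit_after m hm.summable hn D hD ℓ
        have h2 := ih Q (m.after ℓ) (fun E hE => after_nonneg m hn ℓ E (hℓ E hE))
        refine le_trans ?_ (add_le_add_right h2 ((m.total : ℝ) : EReal))
        rw [← EReal.coe_add, EReal.coe_le_coe_iff]
        rcases hm.total_eq with ht | ⟨ht, hc⟩
        · rw [ht] at h1 ⊢
          push_cast
          rcases le_total (n : ℝ) (deficit D (m.after ℓ)) with h | h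
          · rw [min_eq_left h]
            have := min_le_left ((n : ℝ) + 1) (deficit D ℓ)
            linarith
          · rw [min_eq_right h]
            have := min_le_right ((n : ℝ) + 1) (deficit D ℓ)
            linarith
        · have hd : deficit D (m.after ℓ) = 0 := by
            unfold deficit
            refine Finset.sum_eq_zero fun E hE => ?_
            rw [hc E (hDH hE)]; ring
          rw [hd] at h1 ⊢
          rw [min_eq_right (Nat.cast_nonneg n)]
          have := min_le_right (((n + 1 : ℕ) : ℝ)) (deficit D ℓ)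
          linarith
      cases P with
      | edgeHitter =>
        rw [val_eh H n ℓ hf]
        exact le_iInf fun m => le_iInf fun hm => key _ m hm
      | staller =>
        rw [val_st H n ℓ hf]
        obtain ⟨m, hm⟩ := exists_legal H hH ℓ hℓ hf
        exact le_iSup_of_le m (le_iSup_of_le hm (key _ m hm))


/-! The truncation in `gameValue` is harmless -/

lemma sumOn_mono_weightOn (m : Move V) (hs : Summable m.w) (hn : ∀ k, 0 ≤ m.w k) (E : Finset V) (k : ℕ) :
    m.sumOn E k ≤ m.weightOn E :=
  (summable_on m hs hn E).sum_le_tsum _ fun s _ => by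
    split_ifs
    · exact hn s
    · exact le_rfl

lemma total_le_gain (H : Finset (Finset V)) (ℓ : Load V) (hℓ : ∀ E ∈ H, ℓ E ≤ 1) (m : Move V)
    (hm : Ok H ℓ m) : m.total ≤ ∑ E ∈ H, (m.after ℓ E - ℓ E) := by
  classical
  have hn := hm.nonneg
  refine Real.tsum_le_of_sum_range_le hn fun N => ?_
  have hch : ∀ k : ℕ, ∃ E : Finset V, (k : ℕ∞) < m.len → E ∈ H ∧ m.vtx k ∈ E ∧
      ℓ E + m.sumOn E k + m.wt k ≤ 1 := by
    intro k
    by_cases hk : (k : ℕ∞) < m.len
    · obtain ⟨E, h1, h2, h3⟩ := hm.room k hk
      exact ⟨E, fun _ => ⟨h1, h2, h3⟩⟩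
    · exact ⟨∅, fun h => absurd h hk⟩
  choose e he using hch
  have h1 : ∑ k ∈ Finset.range N, m.w k =
      ∑ k ∈ (Finset.range N).filter (fun k : ℕ => (k : ℕ∞) < m.len), m.w k := by
    symm
    refine Finset.sum_filter_of_ne fun k _ hk => ?_
    by_contra h
    exact hk (by unfold Move.w; rw [if_neg h])
  have h2 : ∑ k ∈ (Finset.range N).filter (fun k : ℕ => (k : ℕ∞) < m.len), m.w k =
      ∑ E ∈ H, ∑ k ∈ ((Finset.range N).filter (fun k : ℕ => (k : ℕ∞) < m.len)).filter
        (fun k => e k = E), m.w k := by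
    symm
    refine Finset.sum_fiberwise_of_maps_to (fun k hk => ?_) _
    exact (he k (Finset.mem_filter.1 hk).2).1
  rw [h1, h2]
  refine Finset.sum_le_sum fun E hE => ?_
  set S := ((Finset.range N).filter (fun k : ℕ => (k : ℕ∞) < m.len)).filter (fun k => e k = E) with hS
  rcases S.eq_empty_or_nonempty with h0 | h0
  · rw [h0, Finset.sum_empty]
    have := le_after m hn ℓ E (hℓ E hE)
    linarith
  · set K := S.max' h0 with hK
    have hKS : K ∈ S := S.max'_mem h0
    rw [hS, Finset.mem_filter, Finset.mem_filter] at hKS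
    obtain ⟨⟨_, hKlen⟩, hKE⟩ := hKS
    obtain ⟨_, hKv, hKr⟩ := he K hKlen
    rw [hKE] at hKv hKr
    have hwK : m.w K = m.wt K := by unfold Move.w; rw [if_pos hKlen]
    have hle : ∑ k ∈ S, m.w k ≤ m.sumOn E (K + 1) := by
      unfold Move.sumOn
      rw [← Finset.sum_filter]
      refine Finset.sum_le_sum_of_subset_of_nonneg (fun k hk => ?_) (fun k _ _ => hn k)
      have hk' := hk
      rw [hS, Finset.mem_filter, Finset.mem_filter] at hk'
      rw [Finset.mem_filter, Finset.mem_range]
      refine ⟨Nat.lt_succ_of_le (S.le_max' k hk), ?_⟩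
      have := (he k hk'.1.2).2.1
      rwa [hk'.2] at this
    have hsucc : m.sumOn E (K + 1) = m.sumOn E K + m.w K := by
      unfold Move.sumOn
      rw [Finset.sum_range_succ, if_pos hKv]
    have hw := sumOn_mono_weightOn m hm.summable hn E (K + 1)
    unfold Move.after
    rw [le_sub_iff_add_le]
    refine le_min ?_ ?_ <;> linarith

lemma stable_step (H : Finset (Finset V)) (n : ℕ) : ∀ (P : Player) (ℓ : Load V),
    (∀ E ∈ H, 0 ≤ ℓ E ∧ ℓ E ≤ 1) → deficit H ℓ ≤ n → val H (n + 1) P ℓ = val H n P ℓ := by
  induction n with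
  | zero =>
    intro P ℓ hℓ hd
    have hf : FullyCovered H ℓ := by
      intro E hE
      have h1 := Finset.single_le_sum (f := fun E => 1 - ℓ E)
        (fun F hF => by have := (hℓ F hF).2; linarith) hE
      have h2 := (hℓ E hE).2
      unfold deficit at hd
      simp only [Nat.cast_zero] at hd
      linarith
    rw [val_full H _ P ℓ hf, val_full H _ P ℓ hf]
  | succ n ih =>
    intro P ℓ hℓ hd
    by_cases hf : FullyCovered H ℓ
    · rw [val_full H _ P ℓ hf, val_full H _ P ℓ hf]
    · have key : ∀ (Q : Player) (m : Move V), Legal H ℓ m →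
          val H (n + 1) Q (m.after ℓ) = val H n Q (m.after ℓ) := by
        intro Q m hm
        have hn := hm.ok.nonneg
        rcases hm.total_eq with ht | ⟨_, hc⟩
        · refine ih Q _ (fun E hE => ⟨after_nonneg m hn ℓ E (hℓ E hE).1, after_le m ℓ E⟩) ?_
          have h1 := total_le_gain H ℓ (fun E hE => (hℓ E hE).2) m hm.ok
          have h2 : deficit H (m.after ℓ) = deficit H ℓ - ∑ E ∈ H, (m.after ℓ E - ℓ E) := by
            unfold deficit
            rw [← Finset.sum_sub_distrib]
            exact Finset.sum_congr rfl fun E _ => by ring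
          push_cast at hd
          rw [h2]
          linarith
        · rw [val_full H _ Q _ hc, val_full H _ Q _ hc]
      cases P with
      | edgeHitter =>
        rw [val_eh H (n + 1) ℓ hf, val_eh H n ℓ hf]
        exact iInf_congr fun m => iInf_congr fun hm => by rw [key _ m hm]
      | staller =>
        rw [val_st H (n + 1) ℓ hf, val_st H n ℓ hf]
        exact iSup_congr fun m => iSup_congr fun hm => by rw [key _ m hm]

/-- Counting more moves than there are edges does not change the value. -/
theorem val_stable (H : Finset (Finset V)) (P : Player) (ℓ : Load V)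
    (hℓ : ∀ E ∈ H, 0 ≤ ℓ E ∧ ℓ E ≤ 1) (n : ℕ) (hn : H.card ≤ n) :
    val H n P ℓ = gameValue H P ℓ := by
  unfold gameValue
  have hd : deficit H ℓ ≤ H.card := by
    unfold deficit
    have : ∑ E ∈ H, (1 - ℓ E) ≤ ∑ _E ∈ H, (1 : ℝ) :=
      Finset.sum_le_sum fun E hE => by have := (hℓ E hE).1; linarith
    simpa using this
  induction n, hn using Nat.le_induction with
  | base => rfl
  | succ n hn ih =>
    rw [← ih]
    exact stable_step H n P ℓ hℓ (hd.trans (by exact_mod_cast hn))

/-! Staller gains one half -/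

lemma waste (H : Finset (Finset V)) (hH : ∅ ∉ H) (D : Finset (Finset V)) (hDH : D ⊆ H)
    (hD : ∀ E ∈ D, ∀ F ∈ D, E ≠ F → Disjoint E F) (n : ℕ) (hn : D.card ≤ n) (ℓ : Load V)
    (hℓ : ∀ E ∈ H, 0 ≤ ℓ E ∧ ℓ E ≤ 1) (b c : V) (y z : Finset V) (hy : y ∈ H) (hz : z ∈ D)
    (hby : b ∈ y) (hcy : c ∉ y) (hcz : c ∈ z) (hoth : ∀ E ∈ D, E ≠ z → b ∉ E ∧ c ∉ E)
    (hly : ℓ y ≤ 1 / 2) (hlz : 1 / 2 ≤ ℓ z) :
    ((deficit D ℓ + 1 / 2 : ℝ) : EReal) ≤ val H (n + 1) .staller ℓ := by
  have hzH := hDH hz
  have hz1 := (hℓ z hzH).2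
  have hf : ¬ FullyCovered H ℓ := fun h => by have := h y hy; linarith
  set x := 1 - ℓ z with hx
  have hx0 : 0 ≤ x := by linarith
  obtain ⟨m', hm', hmt, hmc⟩ := exists_spend H hH b _
    (fun E => (ℓ E + if c ∈ E then x else 0) + if b ∈ E then (1 / 2 : ℝ) else 0) (ℓ z - 1 / 2)
    (by linarith) (by linarith) (fun E hE => by
      have := (hℓ E hE).1
      show 0 ≤ (ℓ E + if c ∈ E then x else 0) + if b ∈ E then (1 / 2 : ℝ) else 0
      split_ifs <;> linarith) le_rfl
  have ok2 : Ok H (fun E => ℓ E + if c ∈ E then x else 0) (Move.cons b (1 / 2) m') :=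
    Ok.cons b (1 / 2) (by norm_num) (by norm_num)
      ⟨y, hy, hby, by simp only [if_neg hcy]; linarith⟩ hm'
  have ok3 : Ok H ℓ (Move.cons c x (Move.cons b (1 / 2) m')) :=
    Ok.cons c x hx0 (by linarith) ⟨z, hzH, hcz, by linarith⟩ ok2
  set m := Move.cons c x (Move.cons b (1 / 2) m') with hm
  have htot : m.total = x + (1 / 2 + m'.total) := by
    rw [hm, cons_total _ _ _ ok2.summable, cons_total _ _ _ hm'.summable]
  have hwo : ∀ E, m.weightOn E = (if c ∈ E then x else 0) +
      ((if b ∈ E then (1 / 2 : ℝ) else 0) + m'.weightOn E) := by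
    intro E
    rw [hm, cons_weightOn _ _ _ ok2.summable hx0 ok2.nonneg,
      cons_weightOn _ _ _ hm'.summable (by norm_num) hm'.nonneg]
  have hleg : Legal H ℓ m := by
    refine ⟨ok3.wt_mem, ok3.summable, ok3.room, ?_⟩
    rcases hmc with h | h
    · left; rw [htot, h]; linarith
    · right
      refine ⟨by rw [htot]; linarith, fullyCovered_after H ℓ m fun E hE => ?_⟩
      rw [hwo E]
      have := h E hE
      linarith
  have hdef : deficit D ℓ - x - m'.total ≤ deficit D (m.after ℓ) := by
    have h1 : ∑ E ∈ D.erase z, m'.weightOn E ≤ m'.total :=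
      sum_weightOn_le m' hm'.summable hm'.nonneg _ (fun E hE F hF h =>
        hD E (Finset.mem_of_mem_erase hE) F (Finset.mem_of_mem_erase hF) h)
    unfold deficit
    rw [← Finset.add_sum_erase D _ hz, ← Finset.add_sum_erase D _ hz]
    have h2 : 0 ≤ 1 - m.after ℓ z := by have := after_le m ℓ z; linarith
    have h3 : ∑ E ∈ D.erase z, (1 - ℓ E) - ∑ E ∈ D.erase z, m'.weightOn E ≤
        ∑ E ∈ D.erase z, (1 - m.after ℓ E) := by
      rw [← Finset.sum_sub_distrib]
      refine Finset.sum_le_sum fun E hE => ?_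
      have hE' := hoth E (Finset.mem_of_mem_erase hE) (Finset.ne_of_mem_erase hE)
      have h4 : m.after ℓ E ≤ ℓ E + m.weightOn E := min_le_right _ _
      rw [hwo E, if_neg hE'.1, if_neg hE'.2] at h4
      linarith
    linarith
  have hcard : deficit D (m.after ℓ) ≤ n := by
    have h1 : deficit D (m.after ℓ) ≤ ∑ _E ∈ D, (1 : ℝ) := by
      unfold deficit
      refine Finset.sum_le_sum fun E hE => ?_
      have := after_nonneg m ok3.nonneg ℓ E (hℓ E (hDH hE)).1
      linarith
    have h2 : (D.card : ℝ) ≤ n := by exact_mod_cast hn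
    simp only [Finset.sum_const, nsmul_eq_mul, mul_one] at h1
    linarith
  rw [val_st H n ℓ hf]
  refine le_iSup_of_le m (le_iSup_of_le hleg ?_)
  have hlow := lower_bound H hH D hDH hD n .edgeHitter (m.after ℓ)
    (fun E hE => after_nonneg m ok3.nonneg ℓ E (hℓ E hE).1)
  rw [min_eq_right hcard] at hlow
  refine le_trans ?_ (add_le_add_right hlow ((m.total : ℝ) : EReal))
  rw [← EReal.coe_add, EReal.coe_le_coe_iff, htot]
  linarith

/-! Edge-hitter ends the game -/

lemma intMove_w (v : V) (k : ℕ) : (intMove v).w k = if k = 0 then 1 else 0 := by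
  unfold Move.w intMove
  by_cases h : k = 0
  · subst h; simp
  · rw [if_neg h, if_neg]
    simp only [not_lt]
    exact_mod_cast Nat.one_le_iff_ne_zero.2 h

lemma intMove_total (v : V) : (intMove v).total = 1 := by
  unfold Move.total
  simp only [intMove_w]
  exact tsum_ite_eq 0 (fun _ => (1 : ℝ))

lemma intMove_weightOn (v : V) (E : Finset V) : (intMove v).weightOn E = if v ∈ E then 1 else 0 := by
  unfold Move.weightOn
  rw [tsum_eq_single 0]
  · simp [intMove_w]
    rfl
  · intro k hk
    simp [intMove_w, hk]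

lemma intMove_after (v : V) (ℓ : Load V) (E : Finset V) :
    (intMove v).after ℓ E = min 1 (ℓ E + if v ∈ E then 1 else 0) := by
  unfold Move.after
  rw [intMove_weightOn]

lemma intMove_legal (H : Finset (Finset V)) (ℓ : Load V) (v : V) (E : Finset V) (hE : E ∈ H)
    (hv : v ∈ E) (h0 : ℓ E ≤ 0) : Legal H ℓ (intMove v) := by
  have hk0 : ∀ k : ℕ, (k : ℕ∞) < (intMove v).len → k = 0 := by
    intro k hk
    have : (k : ℕ∞) < 1 := hk
    have h1 : k < 1 := by exact_mod_cast this
    omega
  refine ⟨fun k _ => ⟨zero_le_one, le_rfl⟩, ?_, ?_, Or.inl (intMove_total v)⟩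
  · have : (intMove v).w = fun k => if k = 0 then 1 else 0 := funext (intMove_w v)
    rw [this]
    exact (hasSum_ite_eq 0 (1 : ℝ)).summable
  · intro k hk
    rw [hk0 k hk]
    refine ⟨E, hE, hv, ?_⟩
    have : (intMove v).sumOn E 0 = 0 := by simp [Move.sumOn]
    rw [this]
    show ℓ E + 0 + 1 ≤ 1
    linarith

lemma intMove_room (H : Finset (Finset V)) (ℓ : Load V) (v : V) (h : Legal H ℓ (intMove v)) :
    ∃ E ∈ H, v ∈ E ∧ ℓ E ≤ 0 := by
  obtain ⟨E, hE, hv, hr⟩ := h.room 0 (by show ((0 : ℕ) : ℕ∞) < 1; exact_mod_cast Nat.one_pos)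
  refine ⟨E, hE, hv, ?_⟩
  have h0 : (intMove v).sumOn E 0 = 0 := by simp [Move.sumOn]
  have h1 : (intMove v).wt 0 = 1 := rfl
  rw [h0, h1] at hr
  linarith

/-- one copy is untouched, everything else is covered, Staller to move: total at most 2 -/
lemma final_bound (H : Finset (Finset V)) (a b c : V) (hab : a ≠ b) (hac : a ≠ c) (ℓ : Load V)
    (hx : {a} ∈ H) (hz : {b, c} ∈ H) (h0 : ∀ E ∈ H, 0 ≤ ℓ E)
    (hx0 : ℓ {a} = 0) (hz0 : ℓ {b, c} = 0)
    (hoth : ∀ E ∈ H, E = {a} ∨ E = {a, b} ∨ E = {b, c} ∨ ℓ E = 1) (n : ℕ) :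
    val H (n + 2) .staller ℓ ≤ ((2 : ℝ) : EReal) := by
  have hf : ¬ FullyCovered H ℓ := fun h => by
    have := h _ hx
    rw [hx0] at this
    norm_num at this
  rw [val_st H (n + 1) ℓ hf]
  refine iSup_le fun m => iSup_le fun hm => ?_
  have hn := hm.ok.nonneg
  by_cases hc : FullyCovered H (m.after ℓ)
  · rw [val_full H _ _ _ hc, add_zero, EReal.coe_le_coe_iff]
    rcases hm.total_eq with h | h
    · linarith
    · linarith [h.1]
  · have ht : m.total = 1 := by
      rcases hm.total_eq with h | h
      · exact h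
      · exact absurd h.2 hc
    -- all the weight is on a, b, c
    have hsum : m.weightOn {a} + m.weightOn {b, c} = 1 := by
      rw [← ht]
      unfold Move.weightOn Move.total
      rw [← (summable_on m hm.summable hn {a}).tsum_add (summable_on m hm.summable hn {b, c})]
      refine tsum_congr fun k => ?_
      by_cases hw : m.w k = 0
      · simp [hw]
      · have hk : (k : ℕ∞) < m.len := by
          by_contra h
          exact hw (by unfold Move.w; rw [if_neg h])
        obtain ⟨E, hE, hv, hr⟩ := hm.room k hk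
        have hwk : m.w k = m.wt k := by unfold Move.w; rw [if_pos hk]
        have hs0 : 0 ≤ m.sumOn E k := by
          unfold Move.sumOn
          refine Finset.sum_nonneg fun s _ => ?_
          split_ifs
          · exact hn s
          · exact le_rfl
        have hpos : 0 < m.wt k := by
          rw [← hwk]
          exact lt_of_le_of_ne (hn k) (Ne.symm hw)
        have hmem : m.vtx k = a ∨ m.vtx k = b ∨ m.vtx k = c := by
          rcases hoth E hE with h | h | h | h
          · rw [h] at hv; left; simpa using hv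
          · rw [h] at hv
            have : m.vtx k = a ∨ m.vtx k = b := by simpa using hv
            rcases this with h | h
            · exact Or.inl h
            · exact Or.inr (Or.inl h)
          · rw [h] at hv
            have : m.vtx k = b ∨ m.vtx k = c := by simpa using hv
            exact Or.inr this
          · exfalso; rw [h] at hr; linarith
        rcases hmem with h | h | h
        · have h1 : m.vtx k ∈ ({a} : Finset V) := by simp [h]
          have h2 : m.vtx k ∉ ({b, c} : Finset V) := by simp [h, hab, hac]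
          rw [if_pos h1, if_neg h2, add_zero]
        · have h1 : m.vtx k ∉ ({a} : Finset V) := by simp [h, hab.symm]
          have h2 : m.vtx k ∈ ({b, c} : Finset V) := by simp [h]
          rw [if_neg h1, if_pos h2, zero_add]
        · have h1 : m.vtx k ∉ ({a} : Finset V) := by simp [h, hac.symm]
          have h2 : m.vtx k ∈ ({b, c} : Finset V) := by simp [h]
          rw [if_neg h1, if_pos h2, zero_add]
    have hwa := weightOn_nonneg m hn {a}
    have hwz := weightOn_nonneg m hn {b, c}
    have hxa : m.after ℓ {a} = m.weightOn {a} := by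
      unfold Move.after; rw [hx0, zero_add]; exact min_eq_right (by linarith)
    have hza : m.after ℓ {b, c} = m.weightOn {b, c} := by
      unfold Move.after; rw [hz0, zero_add]; exact min_eq_right (by linarith)
    set x := m.after ℓ {a} with hxdef
    set z := m.after ℓ {b, c} with hzdef
    have okn : Ok H (fun E => (m.after ℓ E + if a ∈ E then (1 - x) else 0) +
        if c ∈ E then (1 - z) else 0) (Move.nil a) := nil_ok H _ a
    have ok2 : Ok H (fun E => m.after ℓ E + if a ∈ E then (1 - x) else 0)
        (Move.cons c (1 - z) (Move.nil a)) :=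
      Ok.cons c (1 - z) (by linarith) (by linarith)
        ⟨{b, c}, hz, by simp, by
          have : a ∉ ({b, c} : Finset V) := by simp [hab, hac]
          rw [if_neg this, ← hzdef]
          linarith⟩ okn
    have ok3 : Ok H (m.after ℓ) (Move.cons a (1 - x) (Move.cons c (1 - z) (Move.nil a))) :=
      Ok.cons a (1 - x) (by linarith) (by linarith) ⟨{a}, hx, by simp, by rw [← hxdef]; linarith⟩ ok2
    set m' := Move.cons a (1 - x) (Move.cons c (1 - z) (Move.nil a)) with hm'
    have htot : m'.total = 1 := by
      rw [hm', cons_total _ _ _ ok2.summable, cons_total _ _ _ okn.summable, nil_total]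
      linarith
    have hwo : ∀ E, m'.weightOn E = (if a ∈ E then (1 - x) else 0) + (if c ∈ E then (1 - z) else 0) := by
      intro E
      rw [hm', cons_weightOn _ _ _ ok2.summable (by linarith) ok2.nonneg,
        cons_weightOn _ _ _ okn.summable (by linarith) okn.nonneg, nil_weightOn, add_zero]
    have hfull : FullyCovered H (m'.after (m.after ℓ)) := by
      refine fullyCovered_after H _ _ fun E hE => ?_
      rw [hwo E]
      have hE1 : 0 ≤ (if a ∈ E then (1 - x) else 0) := by split_ifs <;> linarith
      have hE2 : 0 ≤ (if c ∈ E then (1 - z) else 0) := by split_ifs <;> linarith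
      rcases hoth E hE with h | h | h | h
      · subst h
        rw [if_pos (by simp)]
        linarith
      · have h1 : x ≤ m.after ℓ E := by
          rw [hxa, h]
          unfold Move.after
          refine le_min (by linarith) ?_
          have h2 : m.weightOn {a} ≤ m.weightOn {a, b} := by
            unfold Move.weightOn
            refine (summable_on m hm.summable hn {a}).tsum_le_tsum (fun k => ?_)
              (summable_on m hm.summable hn {a, b})
            by_cases hk : m.vtx k = a
            · simp [hk]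
            · have : m.vtx k ∉ ({a} : Finset V) := by simp [hk]
              rw [if_neg this]
              split_ifs
              · exact hn k
              · exact le_rfl
          have h3 := h0 E hE
          rw [h] at h3
          linarith
        have haE : a ∈ E := by rw [h]; simp
        rw [if_pos haE]
        linarith
      · subst h
        have h1 : a ∉ ({b, c} : Finset V) := by simp [hab, hac]
        have h2 : c ∈ ({b, c} : Finset V) := by simp
        rw [if_neg h1, if_pos h2, ← hzdef]
        linarith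
      · have : m.after ℓ E = 1 := by
          unfold Move.after
          rw [h]
          refine min_eq_left ?_
          have := weightOn_nonneg m hn E
          linarith
        rw [this]
        linarith
    have hleg : Legal H (m.after ℓ) m' := ⟨ok3.wt_mem, ok3.summable, ok3.room, Or.inl htot⟩
    have hval : val H (n + 1) .edgeHitter (m.after ℓ) ≤ ((1 : ℝ) : EReal) := by
      rw [val_eh H n _ hc]
      refine iInf_le_of_le m' (iInf_le_of_le hleg ?_)
      rw [val_full H _ _ _ hfull, add_zero, htot]
    refine le_trans (add_le_add_right hval ((m.total : ℝ) : EReal)) ?_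
    rw [← EReal.coe_add, EReal.coe_le_coe_iff, ht]
    norm_num

/-! The hypergraph -/

/-- two disjoint copies of `{a}, {a,b}, {b,c}` and an isolated edge -/
def HH : Finset (Finset (Fin 7)) := {{0}, {0, 1}, {1, 2}, {3}, {3, 4}, {4, 5}, {6}}

lemma HH_card : HH.card = 7 := by decide

lemma HH_empty : ∅ ∉ HH := by decide

/-- the load function after the first move -/
noncomputable def L0 : Load (Fin 7) := (intMove 6).after (fun _ => 0)

lemma L0_eq (E : Finset (Fin 7)) : L0 E = if (6 : Fin 7) ∈ E then 1 else 0 := by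
  unfold L0
  rw [intMove_after]
  split_ifs <;> simp

/-- the disjoint edges -/
def DD : Finset (Finset (Fin 7)) := {{0}, {1, 2}, {3}, {4, 5}}

lemma DD_sub : DD ⊆ HH := by decide

lemma DD_disj : ∀ E ∈ DD, ∀ F ∈ DD, E ≠ F → Disjoint E F := by decide

lemma low : ((9 / 2 : ℝ) : EReal) ≤ gameValue HH .staller L0 := by
  unfold gameValue
  rw [HH_card]
  have hf : ¬ FullyCovered HH L0 := fun h => by
    have := h {0} (by decide)
    rw [L0_eq, if_neg (by decide)] at this
    norm_num at this
  -- the move
  have okn : Ok HH (fun E => (L0 E + if (2 : Fin 7) ∈ E then (1 / 2 : ℝ) else 0) +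
      if (5 : Fin 7) ∈ E then (1 / 2 : ℝ) else 0) (Move.nil 0) := nil_ok HH _ 0
  have ok2 : Ok HH (fun E => L0 E + if (2 : Fin 7) ∈ E then (1 / 2 : ℝ) else 0)
      (Move.cons 5 (1 / 2) (Move.nil 0)) :=
    Ok.cons 5 (1 / 2) (by norm_num) (by norm_num) ⟨{4, 5}, by decide, by decide, by
      rw [L0_eq, if_neg (by decide), if_neg (by decide)]; norm_num⟩ okn
  have ok3 : Ok HH L0 (Move.cons 2 (1 / 2) (Move.cons 5 (1 / 2) (Move.nil 0))) :=
    Ok.cons 2 (1 / 2) (by norm_num) (by norm_num) ⟨{1, 2}, by decide, by decide, by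
      rw [L0_eq, if_neg (by decide)]; norm_num⟩ ok2
  set m := Move.cons (2 : Fin 7) (1 / 2) (Move.cons 5 (1 / 2) (Move.nil 0)) with hm
  have htot : m.total = 1 := by
    rw [hm, cons_total _ _ _ ok2.summable, cons_total _ _ _ okn.summable, nil_total]
    norm_num
  have hwo : ∀ E, m.weightOn E = (if (2 : Fin 7) ∈ E then (1 / 2 : ℝ) else 0) +
      (if (5 : Fin 7) ∈ E then (1 / 2 : ℝ) else 0) := by
    intro E
    rw [hm, cons_weightOn _ _ _ ok2.summable (by norm_num) ok2.nonneg,
      cons_weightOn _ _ _ okn.summable (by norm_num) okn.nonneg, nil_weightOn, add_zero]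
  have hleg : Legal HH L0 m := ⟨ok3.wt_mem, ok3.summable, ok3.room, Or.inl htot⟩
  have hL1 : ∀ E, m.after L0 E = min 1 ((if (6 : Fin 7) ∈ E then 1 else 0) +
      ((if (2 : Fin 7) ∈ E then (1 / 2 : ℝ) else 0) + (if (5 : Fin 7) ∈ E then (1 / 2 : ℝ) else 0))) := by
    intro E
    unfold Move.after
    rw [L0_eq, hwo]
  rw [val_st HH 6 L0 hf]
  refine le_iSup_of_le m (le_iSup_of_le hleg ?_)
  have hstep : ((7 / 2 : ℝ) : EReal) ≤ val HH 6 .edgeHitter (m.after L0) := by
    have hf1 : ¬ FullyCovered HH (m.after L0) := fun h => by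
      have := h {0} (by decide)
      rw [hL1, if_neg (by decide), if_neg (by decide), if_neg (by decide)] at this
      norm_num at this
    rw [val_eh HH 5 _ hf1]
    refine le_iInf fun m2 => le_iInf fun hm2 => ?_
    have hn2 := hm2.ok.nonneg
    have ht2 : m2.total ≤ 1 := by
      rcases hm2.total_eq with h | h
      · exact h.le
      · exact h.1
    set L2 := m2.after (m.after L0) with hL2
    have hL1n : ∀ E ∈ HH, 0 ≤ m.after L0 E := fun E _ => by
      rw [hL1]
      refine le_min zero_le_one ?_
      split_ifs <;> norm_num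
    have hL2r : ∀ E ∈ HH, 0 ≤ L2 E ∧ L2 E ≤ 1 := fun E hE =>
      ⟨after_nonneg m2 hn2 _ E (hL1n E hE), after_le m2 _ E⟩
    have hdd : deficit DD (m.after L0) = 3 := by
      unfold deficit DD
      rw [Finset.sum_insert (by decide), Finset.sum_insert (by decide),
        Finset.sum_insert (by decide), Finset.sum_singleton, hL1, hL1, hL1, hL1]
      rw [if_neg (by decide), if_neg (by decide), if_neg (by decide), if_neg (by decide),
        if_pos (by decide), if_neg (by decide), if_neg (by decide), if_neg (by decide),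
        if_neg (by decide), if_neg (by decide), if_neg (by decide), if_pos (by decide)]
      norm_num
    have hdef := deficit_after m2 hm2.summable hn2 DD DD_disj (m.after L0)
    rw [hdd, ← hL2] at hdef
    -- one of the two edges {0,1}, {3,4} gets at most one half
    have hsplit : m2.weightOn {0, 1} + m2.weightOn {3, 4} ≤ m2.total := by
      have := sum_weightOn_le m2 hm2.summable hn2 ({{0, 1}, {3, 4}} : Finset (Finset (Fin 7)))
        (by decide)
      rwa [Finset.sum_insert (by decide), Finset.sum_singleton] at this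
    have h01 : L2 {0, 1} ≤ m2.weightOn {0, 1} := by
      rw [hL2]
      have h : m2.after (m.after L0) {0, 1} ≤ m.after L0 {0, 1} + m2.weightOn {0, 1} := min_le_right _ _
      rw [hL1, if_neg (by decide), if_neg (by decide), if_neg (by decide)] at h
      norm_num at h
      exact h
    have h34 : L2 {3, 4} ≤ m2.weightOn {3, 4} := by
      rw [hL2]
      have h : m2.after (m.after L0) {3, 4} ≤ m.after L0 {3, 4} + m2.weightOn {3, 4} := min_le_right _ _
      rw [hL1, if_neg (by decide), if_neg (by decide), if_neg (by decide)] at h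
      norm_num at h
      exact h
    have h12 : 1 / 2 ≤ L2 {1, 2} := by
      have h1 := le_after m2 hn2 (m.after L0) {1, 2} (after_le _ _ _)
      rw [hL1, if_neg (by decide), if_pos (by decide), if_neg (by decide)] at h1
      norm_num at h1 ⊢
      exact h1
    have h45 : 1 / 2 ≤ L2 {4, 5} := by
      have h1 := le_after m2 hn2 (m.after L0) {4, 5} (after_le _ _ _)
      rw [hL1, if_neg (by decide), if_neg (by decide), if_pos (by decide)] at h1
      norm_num at h1 ⊢
      exact h1
    have hval : ((deficit DD L2 + 1 / 2 : ℝ) : EReal) ≤ val HH 5 .staller L2 := by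
      rcases le_total (L2 {0, 1}) (1 / 2) with h | h
      · exact waste HH HH_empty DD DD_sub DD_disj 4 (by decide) L2 hL2r 1 2 {0, 1} {1, 2}
          (by decide) (by decide) (by decide) (by decide) (by decide) (by decide) h h12
      · exact waste HH HH_empty DD DD_sub DD_disj 4 (by decide) L2 hL2r 4 5 {3, 4} {4, 5}
          (by decide) (by decide) (by decide) (by decide) (by decide) (by decide) (by linarith) h45
    refine le_trans ?_ (add_le_add_right hval ((m2.total : ℝ) : EReal))
    rw [← EReal.coe_add, EReal.coe_le_coe_iff]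
    linarith
  refine le_trans ?_ (add_le_add_right hstep ((m.total : ℝ) : EReal))
  rw [← EReal.coe_add, EReal.coe_le_coe_iff, htot]
  norm_num

/-- after the integer moves `v` of Staller and `u` of Edge-hitter one copy is finished -/
lemma reply (v u a b c : Fin 7) (hab : a ≠ b) (hac : a ≠ c) (hx : {a} ∈ HH) (hz : {b, c} ∈ HH)
    (hE : ∃ E ∈ HH, u ∈ E ∧ v ∉ E ∧ (6 : Fin 7) ∉ E)
    (hxa : v ∉ ({a} : Finset (Fin 7)) ∧ u ∉ ({a} : Finset (Fin 7)) ∧ (6 : Fin 7) ∉ ({a} : Finset (Fin 7)))
    (hza : v ∉ ({b, c} : Finset (Fin 7)) ∧ u ∉ ({b, c} : Finset (Fin 7)) ∧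
      (6 : Fin 7) ∉ ({b, c} : Finset (Fin 7)))
    (hoth : ∀ E ∈ HH, E = {a} ∨ E = {a, b} ∨ E = {b, c} ∨ v ∈ E ∨ u ∈ E ∨ (6 : Fin 7) ∈ E) :
    gameValue HH .edgeHitter ((intMove v).after L0) ≤ ((3 : ℝ) : EReal) := by
  unfold gameValue
  rw [HH_card]
  have hL1 : ∀ E, (intMove v).after L0 E =
      min 1 ((if (6 : Fin 7) ∈ E then 1 else 0) + if v ∈ E then 1 else 0) := by
    intro E; rw [intMove_after, L0_eq]
  have hf : ¬ FullyCovered HH ((intMove v).after L0) := fun h => by
    have := h {a} hx
    rw [hL1, if_neg hxa.2.2, if_neg hxa.1] at this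
    norm_num at this
  obtain ⟨E, hEH, huE, hvE, h6E⟩ := hE
  have hleg : Legal HH ((intMove v).after L0) (intMove u) := by
    refine intMove_legal HH _ u E hEH huE ?_
    rw [hL1, if_neg h6E, if_neg hvE]
    norm_num
  have hL2 : ∀ E, (intMove u).after ((intMove v).after L0) E =
      min 1 (min 1 ((if (6 : Fin 7) ∈ E then 1 else 0) + if v ∈ E then 1 else 0) +
        if u ∈ E then 1 else 0) := by
    intro E; rw [intMove_after, hL1]
  rw [val_eh HH 6 _ hf]
  refine iInf_le_of_le (intMove u) (iInf_le_of_le hleg ?_)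
  have h2 : val HH 6 .staller ((intMove u).after ((intMove v).after L0)) ≤ ((2 : ℝ) : EReal) := by
    refine final_bound HH a b c hab hac _ hx hz ?_ ?_ ?_ ?_ 4
    · intro E _
      rw [hL2]
      split_ifs <;> norm_num
    · rw [hL2, if_neg hxa.2.2, if_neg hxa.1, if_neg hxa.2.1]; norm_num
    · rw [hL2, if_neg hza.2.2, if_neg hza.1, if_neg hza.2.1]; norm_num
    · intro E hE
      rcases hoth E hE with h | h | h | h | h | h
      · exact Or.inl h
      · exact Or.inr (Or.inl h)
      · exact Or.inr (Or.inr (Or.inl h))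
      · right; right; right
        rw [hL2, if_pos h]
        split_ifs <;> norm_num
      · right; right; right
        rw [hL2, if_pos h]
        split_ifs <;> norm_num
      · right; right; right
        rw [hL2, if_pos h]
        split_ifs <;> norm_num
  rw [intMove_total]
  refine le_trans (add_le_add_right h2 ((1 : ℝ) : EReal)) ?_
  rw [← EReal.coe_add, EReal.coe_le_coe_iff]
  norm_num

lemma up (v : Fin 7) (hv : Legal HH L0 (intMove v)) :
    gameValue HH .edgeHitter ((intMove v).after L0) ≤ ((3 : ℝ) : EReal) := by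
  have h6 : v ≠ 6 := by
    rintro rfl
    obtain ⟨E, hE, h6E, h0⟩ := intMove_room HH L0 6 hv
    rw [L0_eq, if_pos h6E] at h0
    norm_num at h0
  fin_cases v
  · exact reply 0 2 3 4 5 (by decide) (by decide) (by decide) (by decide) (by decide) (by decide)
      (by decide) (by decide)
  · exact reply 1 0 3 4 5 (by decide) (by decide) (by decide) (by decide) (by decide) (by decide)
      (by decide) (by decide)
  · exact reply 2 0 3 4 5 (by decide) (by decide) (by decide) (by decide) (by decide) (by decide)
      (by decide) (by decide)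
  · exact reply 3 5 0 1 2 (by decide) (by decide) (by decide) (by decide) (by decide) (by decide)
      (by decide) (by decide)
  · exact reply 4 3 0 1 2 (by decide) (by decide) (by decide) (by decide) (by decide) (by decide)
      (by decide) (by decide)
  · exact reply 5 3 0 1 2 (by decide) (by decide) (by decide) (by decide) (by decide) (by decide)
      (by decide) (by decide)
  · exact absurd rfl h6

theorem main : ∃ (H : Finset (Finset (Fin 7))) (x : Fin 7), ∅ ∉ H ∧
    IntegerPlay H (fun _ => 0) [x] ∧ ¬ FullyCovered H (loadAfter (fun _ => 0) [x]) ∧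
    (∀ v, ¬ OptimalForStaller H (loadAfter (fun _ => 0) [x]) (intMove v)) ∧
    (∀ v, Legal H (loadAfter (fun _ => 0) [x]) (intMove v) →
      ((((intMove v).total : ℝ) : EReal) +
        gameValue H .edgeHitter ((intMove v).after (loadAfter (fun _ => 0) [x])) ≤ ((4 : ℝ) : EReal))) ∧
    ((9 / 2 : ℝ) : EReal) ≤ gameValue H .staller (loadAfter (fun _ => 0) [x]) := by
  have hL : loadAfter (fun _ => 0) [(6 : Fin 7)] = L0 := rfl
  have hup : ∀ v, Legal HH L0 (intMove v) → (((intMove v).total : ℝ) : EReal) +
      gameValue HH .edgeHitter ((intMove v).after L0) ≤ ((4 : ℝ) : EReal) := by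
    intro v hv
    refine le_trans (add_le_add_right (up v hv) _) ?_
    rw [intMove_total, ← EReal.coe_add, EReal.coe_le_coe_iff]
    norm_num
  refine ⟨HH, 6, HH_empty, ⟨?_, ?_, trivial⟩, ?_, ?_, ?_, ?_⟩
  · intro h
    have := h {0} (by decide)
    norm_num at this
  · exact intMove_legal HH _ 6 {6} (by decide) (by decide) le_rfl
  · rw [hL]
    intro h
    have := h {0} (by decide)
    rw [L0_eq, if_neg (by decide)] at this
    norm_num at this
  · rw [hL]
    rintro v ⟨hleg, heq⟩
    have h1 := hup v hleg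
    rw [heq] at h1
    have h2 := low.trans h1
    rw [EReal.coe_le_coe_iff] at h2
    norm_num at h2
  · rw [hL]; exact hup
  · rw [hL]; exact low

end Pool.Agent.Helper62.FracGame
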