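import Pool.Agent.Helper62.GamCount

/-!
The bijection between triples (signed permutation, two compatible sequences) and weakly
increasing sequences of cells.
-/

namespace Pool.Agent.TwoSidedGamma

noncomputable section

variable {n : ℕ}

/-- the window -/
def win (π : SignedPerm n) (i : Fin n) : ℤ := (π.2 i : ℤ) * (((π.1 i : ℕ) : ℤ) + 1)

lemma val_eq (π : SignedPerm n) : π.val = Fin.cons 0 (win π) := rfl

lemma des_eq (π : SignedPerm n) : π.des = dc 0 (win π) := rfl

lemma val_injective (π : SignedPerm n) :
    Function.Injective (Fin.cons 0 (win π) : Fin (n + 1) → ℤ) := by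
  have hne : ∀ i, win π i ≠ 0 := by
    intro i
    unfold win
    rcases Int.units_eq_one_or (π.2 i) with h | h <;> rw [h] <;> push_cast <;> omega
  have habs : ∀ i, (win π i).natAbs = (π.1 i : ℕ) + 1 := by
    intro i
    unfold win
    rcases Int.units_eq_one_or (π.2 i) with h | h <;> rw [h] <;> push_cast <;> omega
  intro i j
  refine Fin.cases ?_ (fun i => ?_) i <;> refine Fin.cases ?_ (fun j => ?_) j
  · intro _; rfl
  · intro h; exact absurd h.symm (by simpa using hne j)
  · intro h; exact absurd h (by simpa using hne i)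
  · intro h
    simp only [Fin.cons_succ] at h
    have h1 := habs i
    rw [h, habs j] at h1
    have h2 : π.1 j = π.1 i := Fin.ext (by omega)
    rw [π.1.injective h2]

lemma compat_iff (v : Fin n → ℤ) (f : Fin n → ℕ) :
    Compat 0 0 v f ↔ (∀ i, 0 < f i ∨ 0 < v i) ∧
      (∀ i j, i < j → f i < f j ∨ (f i = f j ∧ v i < v j)) := by
  unfold Compat
  rw [Fin.strictMono_cons]
  constructor
  · rintro ⟨h1, h2⟩
    refine ⟨fun i => ?_, fun i j hij => ?_⟩
    · have := h1 i
      rw [Prod.Lex.toLex_lt_toLex] at this
      rcases this with h | h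
      · left; exact h
      · right; exact h.2
    · have := h2 hij
      simp only at this
      rw [Prod.Lex.toLex_lt_toLex] at this
      exact this
  · rintro ⟨h1, h2⟩
    refine ⟨fun i => ?_, fun i j hij => ?_⟩
    · rw [Prod.Lex.toLex_lt_toLex]
      rcases h1 i with h | h
      · left; exact h
      · rcases Nat.eq_zero_or_pos (f i) with h' | h'
        · right; exact ⟨h'.symm, h⟩
        · left; exact h'
    · show toLex (f i, v i) < toLex (f j, v j)
      rw [Prod.Lex.toLex_lt_toLex]
      exact h2 i j hij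

/-- sign of a letter (`0` counts as positive) -/
def sgnU (y : ℤ) : ℤˣ := if y < 0 then -1 else 1

/-- sorting key -/
def key (y : Fin n → ℤ) (i : Fin n) : ℕ ×ₗ ℤ :=
  toLex ((y i).natAbs, (sgnU (y i) : ℤ) * ((i : ℤ) + 1))

lemma key_injective (y : Fin n → ℤ) : Function.Injective (key y) := by
  intro i j h
  have h2 : (sgnU (y i) : ℤ) * ((i : ℤ) + 1) = (sgnU (y j) : ℤ) * ((j : ℤ) + 1) :=
    congrArg (fun p => (ofLex p).2) h
  unfold sgnU at h2
  apply Fin.ext
  split_ifs at h2 <;> push_cast at h2 <;> omega

lemma key_lt_iff (y : Fin n → ℤ) {i j : Fin n} (hij : i < j) :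
    key y i < key y j ↔
      (if 0 ≤ y j then (y i).natAbs ≤ (y j).natAbs else (y i).natAbs < (y j).natAbs) := by
  unfold key
  rw [Prod.Lex.toLex_lt_toLex]
  have h : (i : ℕ) < j := hij
  unfold sgnU
  simp only
  split_ifs <;> push_cast <;> omega

/-- standardization -/
def fromY (y : Fin n → ℤ) : SignedPerm n := ((Tuple.sort (key y))⁻¹, fun i => sgnU (y i))

lemma strictMono_key_sort (y : Fin n → ℤ) : StrictMono (key y ∘ Tuple.sort (key y)) :=
  (Tuple.monotone_sort (key y)).strictMono_of_injective
    ((key_injective y).comp (Tuple.sort (key y)).injective)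

lemma fromY_lt_iff (y : Fin n → ℤ) (i j : Fin n) :
    (fromY y).1 i < (fromY y).1 j ↔ key y i < key y j := by
  have h := strictMono_key_sort y
  have h1 := h.lt_iff_lt (a := (fromY y).1 i) (b := (fromY y).1 j)
  rw [← h1]
  simp [fromY]

/-- the word of a signed permutation and a sequence -/
def yw (π : SignedPerm n) (g : Fin n → ℕ) (i : Fin n) : ℤ := (π.2 i : ℤ) * (g (π.1 i) : ℤ)

lemma win_inv (π : SignedPerm n) (i : Fin n) :
    win π.inv (π.1 i) = (π.2 i : ℤ) * ((i : ℤ) + 1) := by
  simp [win, SignedPerm.inv]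

lemma win_inv' (π : SignedPerm n) (j : Fin n) :
    win π.inv j = (π.2 (π.1⁻¹ j) : ℤ) * (((π.1⁻¹ j : Fin n) : ℤ) + 1) := by
  simp [win, SignedPerm.inv]

lemma natAbs_yw (π : SignedPerm n) (g : Fin n → ℕ) (i : Fin n) :
    (yw π g i).natAbs = g (π.1 i) := by
  unfold yw
  rcases Int.units_eq_one_or (π.2 i) with h | h <;> rw [h] <;> push_cast <;> omega

lemma sgnU_yw (π : SignedPerm n) (g : Fin n → ℕ) (hg : Compat 0 0 (win π.inv) g) (i : Fin n) :
    sgnU (yw π g i) = π.2 i := by
  rw [compat_iff] at hg
  have h1 := hg.1 (π.1 i)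
  rw [win_inv] at h1
  unfold yw sgnU
  rcases Int.units_eq_one_or (π.2 i) with h | h
  · rw [h, if_neg]; push_cast; omega
  · rw [h] at h1 ⊢
    rw [if_pos]
    push_cast at h1 ⊢
    omega

lemma fromY_yw (π : SignedPerm n) (g : Fin n → ℕ) (hg : Compat 0 0 (win π.inv) g) :
    fromY (yw π g) = π := by
  have hkey : ∀ j, key (yw π g) (π.1⁻¹ j) = toLex (g j, win π.inv j) := by
    intro j
    unfold key
    rw [natAbs_yw, sgnU_yw π g hg, win_inv']
    simp
  have hmono : StrictMono (key (yw π g) ∘ (π.1⁻¹ : Equiv.Perm (Fin n))) := by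
    intro i j hij
    simp only [Function.comp, hkey]
    rw [Prod.Lex.toLex_lt_toLex]
    exact ((compat_iff _ _).mp hg).2 i j hij
  have hsort : π.1⁻¹ = Tuple.sort (key (yw π g)) := by
    rw [Tuple.eq_sort_iff]
    refine ⟨hmono.monotone, fun i j hij h => ?_⟩
    exact absurd h (hmono hij).ne
  unfold fromY
  rw [← hsort, inv_inv]
  ext i
  · rfl
  · exact congrArg (fun u : ℤˣ => (u : ℤ)) (sgnU_yw π g hg i)

/-- `(x, y)` is a sorted sequence of cells -/
def Sorted2 (x : Fin n → ℕ) (y : Fin n → ℤ) : Prop :=
  (∀ i, 0 < x i ∨ 0 ≤ y i) ∧ (∀ i j, i < j → x i < x j ∨ (x i = x j ∧ y i ≤ y j))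

lemma sorted2_yw (π : SignedPerm n) (f g : Fin n → ℕ) (hf : Compat 0 0 (win π) f)
    (hg : Compat 0 0 (win π.inv) g) : Sorted2 f (yw π g) := by
  rw [compat_iff] at hf hg
  have gmono : ∀ a b : Fin n, a < b → g a ≤ g b := by
    intro a b hab
    rcases hg.2 a b hab with h | h
    · exact h.le
    · exact h.1.le
  refine ⟨fun i => ?_, fun i j hij => ?_⟩
  · rcases hf.1 i with h | h
    · left; exact h
    · right
      unfold win at h
      unfold yw
      rcases Int.units_eq_one_or (π.2 i) with h' | h'
      · rw [h']; push_cast; omega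
      · rw [h'] at h; push_cast at h; omega
  · rcases hf.2 i j hij with h | h
    · left; exact h
    · right
      refine ⟨h.1, ?_⟩
      have h2 := h.2
      unfold win at h2
      unfold yw
      rcases Int.units_eq_one_or (π.2 i) with h3 | h3 <;>
        rcases Int.units_eq_one_or (π.2 j) with h4 | h4 <;> rw [h3, h4] at h2 ⊢ <;>
        push_cast at h2 ⊢
      · have : π.1 i < π.1 j := by rw [Fin.lt_def]; omega
        have := gmono _ _ this
        omega
      · omega
      · omega
      · have : π.1 j < π.1 i := by rw [Fin.lt_def]; omega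
        have := gmono _ _ this
        omega

lemma compat_fromY (x : Fin n → ℕ) (y : Fin n → ℤ) (h : Sorted2 x y) :
    Compat 0 0 (win (fromY y)) x := by
  rw [compat_iff]
  refine ⟨fun i => ?_, fun i j hij => ?_⟩
  · rcases h.1 i with h1 | h1
    · left; exact h1
    · right
      have : (fromY y).2 i = 1 := by simp [fromY, sgnU, not_lt.mpr h1]
      unfold win; rw [this]; push_cast; omega
  · rcases h.2 i j hij with h1 | h1
    · left; exact h1
    · right
      refine ⟨h1.1, ?_⟩
      have h2 := h1.2
      have hij' : (i : ℕ) < j := hij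
      unfold win
      rcases lt_or_ge (y i) 0 with hi | hi <;> rcases lt_or_ge (y j) 0 with hj | hj
      · have e1 : (fromY y).2 i = -1 := by simp [fromY, sgnU, hi]
        have e2 : (fromY y).2 j = -1 := by simp [fromY, sgnU, hj]
        have h3 : key y j < key y i := by
          unfold key
          rw [Prod.Lex.toLex_lt_toLex]
          unfold sgnU
          rw [if_pos hi, if_pos hj]
          push_cast
          omega
        have h4 := (fromY_lt_iff y j i).mpr h3
        rw [Fin.lt_def] at h4
        rw [e1, e2]; push_cast; omega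
      · have e1 : (fromY y).2 i = -1 := by simp [fromY, sgnU, hi]
        have e2 : (fromY y).2 j = 1 := by simp [fromY, sgnU, not_lt.mpr hj]
        rw [e1, e2]; push_cast; omega
      · omega
      · have e1 : (fromY y).2 i = 1 := by simp [fromY, sgnU, not_lt.mpr hi]
        have e2 : (fromY y).2 j = 1 := by simp [fromY, sgnU, not_lt.mpr hj]
        have h3 : key y i < key y j := by
          rw [key_lt_iff y hij, if_pos hj]; omega
        have h4 := (fromY_lt_iff y i j).mpr h3
        rw [Fin.lt_def] at h4
        rw [e1, e2]; push_cast; omega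

/-- the sequence of absolute values -/
def gY (y : Fin n → ℤ) (j : Fin n) : ℕ := (y (Tuple.sort (key y) j)).natAbs

lemma compat_gY (y : Fin n → ℤ) : Compat 0 0 (win (fromY y).inv) (gY y) := by
  rw [compat_iff]
  have hwin : ∀ j, win (fromY y).inv j =
      (sgnU (y (Tuple.sort (key y) j)) : ℤ) * (((Tuple.sort (key y) j : Fin n) : ℤ) + 1) := by
    intro j
    rw [win_inv']
    simp [fromY]
  refine ⟨fun j => ?_, fun i j hij => ?_⟩
  · rw [hwin]
    unfold gY sgnU
    split_ifs <;> push_cast <;> omega
  · rw [hwin, hwin]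
    have := strictMono_key_sort y hij
    simp only [Function.comp, key] at this
    rw [Prod.Lex.toLex_lt_toLex] at this
    exact this

lemma yw_fromY (y : Fin n → ℤ) : yw (fromY y) (gY y) = y := by
  funext i
  unfold yw gY fromY
  have h : (Tuple.sort (key y)) ((Tuple.sort (key y))⁻¹ i) = i := by simp
  simp only [h]
  unfold sgnU
  split_ifs <;> simp only [Units.val_neg, Units.val_one] <;> omega

end

end Pool.Agent.TwoSidedGamma
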