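import Pool.Agent.Helper62.GamOp

/-!
The cone of pairs of polynomials preserved by the one-step recurrence.
-/

namespace Pool.Agent.TwoSidedGamma

open MvPolynomial

noncomputable section

/-- pairs `(F, F')` of polynomials with positive expansions, `F'` the mirror image of `F` -/
inductive Cone (a b : ℕ) : R2 → R2 → Prop
  | zero : Cone a b 0 0
  | add {F F' G G' : R2} : Cone a b F F' → Cone a b G G' → Cone a b (F + G) (F' + G')
  | smul {F F' : R2} (c : ℝ) (hc : 0 ≤ c) : Cone a b F F' → Cone a b (C c * F) (C c * F')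
  | x (i j k : ℕ) (h : 2 * i + j + k + 1 = a + b) (ha : a ≤ (i + 1) * (i + k + 1))
      (hb : b ≤ i * (i + k + 2)) :
      Cone a b (gU ^ i * gV ^ j * gW ^ k) (gU ^ (i + 1) * gV ^ j * gW ^ k)
  | y (i j k : ℕ) (h : 2 * i + j + k + 1 = a + b) (ha : a ≤ i * (i + k + 2))
      (hb : b ≤ (i + 1) * (i + k + 1)) :
      Cone a b (gU ^ (i + 1) * gV ^ j * gW ^ k) (gU ^ i * gV ^ j * gW ^ k)
  | h (i j : ℕ) (h : 2 * i + j = a + b) (ha : a ≤ i * (i + 1)) (hb : b ≤ i * (i + 1)) :
      Cone a b (gU ^ i * gV ^ j) (gU ^ i * gV ^ j)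

lemma Cone.swap {a b : ℕ} {F F' : R2} (h : Cone a b F F') : Cone b a F' F := by
  induction h with
  | zero => exact Cone.zero
  | add _ _ h1 h2 => exact Cone.add h1 h2
  | smul c hc _ h1 => exact Cone.smul c hc h1
  | x i j k h ha hb => exact Cone.y i j k (by omega) hb ha
  | y i j k h ha hb => exact Cone.x i j k (by omega) hb ha
  | h i j h ha hb => exact Cone.h i j (by omega) hb ha

/-- a term with a coefficient -/
lemma Cone.term {a b : ℕ} {F F' : R2} (c : ℝ) (hc : 0 ≤ c) (h : c ≠ 0 → Cone a b F F') :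
    Cone a b (C c * F) (C c * F') := by
  by_cases h0 : c = 0
  · subst h0; simpa using Cone.zero
  · exact Cone.smul c hc (h h0)

lemma eul_C_mul (v : Fin 2) (c : ℝ) (F : R2) : eul v (C c * F) = C c * eul v F := by
  rw [eul_mul, eul_C]; ring

lemma dop_zero (n : ℕ) (v : Fin 2) : dop n v 0 = 0 := by simp [dop, eul]
lemma eop_zero (n : ℕ) (v : Fin 2) : eop n v 0 = 0 := by simp [eop, eul]

lemma dop_add (n : ℕ) (v : Fin 2) (F G : R2) : dop n v (F + G) = dop n v F + dop n v G := by
  simp only [dop, eul_add]; ring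
lemma eop_add (n : ℕ) (v : Fin 2) (F G : R2) : eop n v (F + G) = eop n v F + eop n v G := by
  simp only [eop, eul_add]; ring

lemma dop_C_mul (n : ℕ) (v : Fin 2) (c : ℝ) (F : R2) : dop n v (C c * F) = C c * dop n v F := by
  simp only [dop, eul_C_mul]; ring
lemma eop_C_mul (n : ℕ) (v : Fin 2) (c : ℝ) (F : R2) : eop n v (C c * F) = C c * eop n v F := by
  simp only [eop, eul_C_mul]; ring

lemma DD_zero (n a : ℕ) : DD n a 0 = 0 := by simp [DD, dop_zero]
lemma EE_zero (n a : ℕ) : EE n a 0 = 0 := by simp [EE, eop_zero]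

lemma DD_add (n a : ℕ) (F G : R2) : DD n a (F + G) = DD n a F + DD n a G := by
  simp only [DD, dop_add]; ring
lemma EE_add (n a : ℕ) (F G : R2) : EE n a (F + G) = EE n a F + EE n a G := by
  simp only [EE, eop_add]; ring

lemma DD_C_mul (n a : ℕ) (c : ℝ) (F : R2) : DD n a (C c * F) = C c * DD n a F := by
  simp only [DD, dop_C_mul]; ring
lemma EE_C_mul (n a : ℕ) (c : ℝ) (F : R2) : EE n a (C c * F) = C c * EE n a F := by
  simp only [EE, eop_C_mul]; ring

lemma C_two : (C (2 : ℝ) : R2) = 2 := map_ofNat C 2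

/-- the terms coming from the even part of the operator, in the `x` direction -/
lemma Cone.stepx {a b i j k n : ℕ} (hn : n = 2 * i + j + k + 2) (h : 2 * i + j + k + 1 = a + b)
    (ha : a ≤ (i + 1) * (i + k + 1)) (hb : b ≤ i * (i + k + 2)) :
    Cone (a + 1) b (DD n a (gU ^ i * gV ^ j * gW ^ k)) (EE n a (gU ^ (i + 1) * gV ^ j * gW ^ k)) := by
  rw [DD_x i j k n a hn, EE_x i j k n a hn]
  have e1 : (((i : R2) + 1) * ((i : R2) + (j : R2) + 1) + (a : R2)) =
      C (((i : ℝ) + 1) * (i + j + 1) + a) := by simp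
  have e2 : (((i : R2) + 1) * ((i : R2) + (k : R2) + 1) - (a : R2)) =
      C (((i : ℝ) + 1) * (i + k + 1) - a) := by simp
  have e3 : ((k : R2) * (2 * (n : R2) - (k : R2) + 1)) = C ((k : ℝ) * (2 * n - k + 1)) := by
    simp [C_two]
  have e4 : ((j : R2) * (2 * (n : R2) - (j : R2) + 1)) = C ((j : ℝ) * (2 * n - j + 1)) := by
    simp [C_two]
  have e5 : ((j : R2) * ((j : R2) - 1)) = C ((j : ℝ) * (j - 1)) := by simp
  have e6 : ((k : R2) * ((k : R2) - 1)) = C ((k : ℝ) * (k - 1)) := by simp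
  rw [e1, e2, e3, e4, e5, e6]
  have hk : (k : ℝ) ≤ n := by exact_mod_cast (by omega : k ≤ n)
  have hj : (j : ℝ) ≤ n := by exact_mod_cast (by omega : j ≤ n)
  have hk0 : (0 : ℝ) ≤ k := Nat.cast_nonneg k
  have hj0 : (0 : ℝ) ≤ j := Nat.cast_nonneg j
  have haR : (a : ℝ) ≤ ((i : ℝ) + 1) * (i + k + 1) := by exact_mod_cast ha
  refine Cone.add (Cone.add (Cone.add (Cone.add (Cone.add ?_ ?_) ?_) ?_) ?_) ?_
  · refine Cone.term _ (by positivity) fun _ => Cone.x i j (k + 1) (by omega) ?_ ?_
    · nlinarith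
    · nlinarith
  · refine Cone.term _ (by linarith) fun hne => Cone.x i (j + 1) k (by omega) ?_ hb
    have hne' : a ≠ (i + 1) * (i + k + 1) := by
      rintro rfl; apply hne; push_cast; ring
    omega
  · refine Cone.term _ (mul_nonneg hk0 (by linarith)) fun hne => ?_
    have hk1 : 1 ≤ k := by
      rcases Nat.eq_zero_or_pos k with h0 | h0
      · exfalso; apply hne; simp [h0]
      · exact h0
    obtain ⟨k, rfl⟩ : ∃ k', k = k' + 1 := ⟨k - 1, by omega⟩
    refine Cone.x (i + 1) j (k + 1 - 1) (by omega) ?_ ?_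
    · simp only [Nat.add_sub_cancel]; nlinarith
    · simp only [Nat.add_sub_cancel]; nlinarith
  · refine Cone.term _ (mul_nonneg hj0 (by linarith)) fun hne => ?_
    have hj1 : 1 ≤ j := by
      rcases Nat.eq_zero_or_pos j with h0 | h0
      · exfalso; apply hne; simp [h0]
      · exact h0
    refine Cone.x (i + 1) (j - 1) k (by omega) ?_ ?_
    · nlinarith
    · nlinarith
  · have hj2 : (0 : ℝ) ≤ (j : ℝ) * (j - 1) := by
      rcases Nat.eq_zero_or_pos j with h0 | h0
      · simp [h0]
      · have : (1 : ℝ) ≤ j := by exact_mod_cast h0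
        exact mul_nonneg hj0 (by linarith)
    refine Cone.term _ hj2 fun hne => ?_
    have hj1 : 2 ≤ j := by
      by_contra hlt
      have : j = 0 ∨ j = 1 := by omega
      rcases this with h0 | h0 <;> exact hne (by simp [h0])
    refine Cone.x (i + 1) (j - 2) (k + 1) (by omega) ?_ ?_
    · nlinarith
    · nlinarith
  · have hk2 : (0 : ℝ) ≤ (k : ℝ) * (k - 1) := by
      rcases Nat.eq_zero_or_pos k with h0 | h0
      · simp [h0]
      · have : (1 : ℝ) ≤ k := by exact_mod_cast h0
        exact mul_nonneg hk0 (by linarith)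
    refine Cone.term _ hk2 fun hne => ?_
    have hk1 : 2 ≤ k := by
      by_contra hlt
      have : k = 0 ∨ k = 1 := by omega
      rcases this with h0 | h0 <;> exact hne (by simp [h0])
    obtain ⟨k, rfl⟩ : ∃ k', k = k' + 2 := ⟨k - 2, by omega⟩
    refine Cone.x (i + 1) (j + 1) (k + 2 - 2) (by omega) ?_ ?_
    · simp only [Nat.add_sub_cancel]; nlinarith
    · simp only [Nat.add_sub_cancel]; nlinarith

lemma Cone.sym {a b : ℕ} (i j k : ℕ) (h : 2 * i + j + k = a + b) (ha : a ≤ i * (i + k + 1))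
    (hb : b ≤ i * (i + k + 1)) :
    Cone a b (gU ^ i * gV ^ j * gW ^ k) (gU ^ i * gV ^ j * gW ^ k) := by
  rcases k with _ | k
  · have := Cone.h i j (by omega) (a := a) (b := b) (by simpa using ha) (by simpa using hb)
    simpa using this
  · have h1 := Cone.x i j k (a := a) (b := b) (by omega) (by nlinarith) (by nlinarith)
    have h2 := Cone.y i j k (a := a) (b := b) (by omega) (by nlinarith) (by nlinarith)
    have h3 := Cone.add h1 h2
    have hW : gW = 1 + gU := rfl
    have e1 : gU ^ i * gV ^ j * gW ^ k + gU ^ (i + 1) * gV ^ j * gW ^ k =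
        gU ^ i * gV ^ j * gW ^ (k + 1) := by
      rw [pow_succ gW, hW]; ring
    have e2 : gU ^ (i + 1) * gV ^ j * gW ^ k + gU ^ i * gV ^ j * gW ^ k =
        gU ^ i * gV ^ j * gW ^ (k + 1) := by
      rw [pow_succ gW, hW]; ring
    rw [e1, e2] at h3
    exact h3

lemma Cone.stepy {a b i j k n : ℕ} (hn : n = 2 * i + j + k + 2) (h : 2 * i + j + k + 1 = a + b)
    (ha : a ≤ i * (i + k + 2)) (hb : b ≤ (i + 1) * (i + k + 1)) :
    Cone (a + 1) b (DD n a (gU ^ (i + 1) * gV ^ j * gW ^ k)) (EE n a (gU ^ i * gV ^ j * gW ^ k)) := by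
  rw [DD_y i j k n a hn, EE_y i j k n a hn]
  have e1 : ((i : R2) * ((i : R2) + (j : R2)) + (a : R2)) =
      C ((i : ℝ) * (i + j) + a) := by simp
  have e2 : ((i : R2) * ((i : R2) + (k : R2) + 2) - (a : R2)) =
      C ((i : ℝ) * (i + k + 2) - a) := by simp [C_two]
  have e3 : ((k : R2) * (2 * (n : R2) - (k : R2) + 1)) = C ((k : ℝ) * (2 * n - k + 1)) := by
    simp [C_two]
  have e4 : ((j : R2) * (2 * (n : R2) - (j : R2) + 1)) = C ((j : ℝ) * (2 * n - j + 1)) := by
    simp [C_two]
  have e5 : ((j : R2) * ((j : R2) - 1)) = C ((j : ℝ) * (j - 1)) := by simp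
  have e6 : ((k : R2) * ((k : R2) - 1)) = C ((k : ℝ) * (k - 1)) := by simp
  have e7 : (2 * ((n : R2) - (k : R2))) = C (2 * ((n : ℝ) - k)) := by simp [C_two]
  have e8 : (2 * (k : R2)) = C (2 * (k : ℝ)) := by simp [C_two]
  rw [e1, e2, e3, e4, e5, e6, e7, e8]
  have hk : (k : ℝ) ≤ n := by exact_mod_cast (by omega : k ≤ n)
  have hj : (j : ℝ) ≤ n := by exact_mod_cast (by omega : j ≤ n)
  have hk0 : (0 : ℝ) ≤ k := Nat.cast_nonneg k
  have hj0 : (0 : ℝ) ≤ j := Nat.cast_nonneg j
  have haR : (a : ℝ) ≤ (i : ℝ) * (i + k + 2) := by exact_mod_cast ha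
  refine Cone.add (Cone.add (Cone.add (Cone.add (Cone.add (Cone.add (Cone.add ?_ ?_) ?_) ?_) ?_)
    ?_) ?_) ?_
  · refine Cone.term _ (by positivity) fun hne => Cone.y i j (k + 1) (by omega) ?_ ?_
    · rcases i with _ | i
      · exfalso; apply hne
        have : a = 0 := by simpa using ha
        simp [this]
      · nlinarith
    · nlinarith
  · refine Cone.term _ (by linarith) fun hne => Cone.y i (j + 1) k (by omega) ?_ hb
    have hne' : a ≠ i * (i + k + 2) := by
      rintro rfl; apply hne; push_cast; ring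
    omega
  · refine Cone.term _ (mul_nonneg hk0 (by linarith)) fun hne => ?_
    have hk1 : 1 ≤ k := by
      rcases Nat.eq_zero_or_pos k with h0 | h0
      · exfalso; apply hne; simp [h0]
      · exact h0
    obtain ⟨k, rfl⟩ : ∃ k', k = k' + 1 := ⟨k - 1, by omega⟩
    refine Cone.y (i + 1) j (k + 1 - 1) (by omega) ?_ ?_
    · simp only [Nat.add_sub_cancel]; nlinarith
    · simp only [Nat.add_sub_cancel]; nlinarith
  · refine Cone.term _ (mul_nonneg hj0 (by linarith)) fun hne => ?_
    have hj1 : 1 ≤ j := by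
      rcases Nat.eq_zero_or_pos j with h0 | h0
      · exfalso; apply hne; simp [h0]
      · exact h0
    refine Cone.y (i + 1) (j - 1) k (by omega) ?_ ?_
    · nlinarith
    · nlinarith
  · have hj2 : (0 : ℝ) ≤ (j : ℝ) * (j - 1) := by
      rcases Nat.eq_zero_or_pos j with h0 | h0
      · simp [h0]
      · have : (1 : ℝ) ≤ j := by exact_mod_cast h0
        exact mul_nonneg hj0 (by linarith)
    refine Cone.term _ hj2 fun hne => ?_
    have hj1 : 2 ≤ j := by
      by_contra hlt
      have : j = 0 ∨ j = 1 := by omega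
      rcases this with h0 | h0 <;> exact hne (by simp [h0])
    refine Cone.y (i + 1) (j - 2) (k + 1) (by omega) ?_ ?_
    · nlinarith
    · nlinarith
  · have hk2 : (0 : ℝ) ≤ (k : ℝ) * (k - 1) := by
      rcases Nat.eq_zero_or_pos k with h0 | h0
      · simp [h0]
      · have : (1 : ℝ) ≤ k := by exact_mod_cast h0
        exact mul_nonneg hk0 (by linarith)
    refine Cone.term _ hk2 fun hne => ?_
    have hk1 : 2 ≤ k := by
      by_contra hlt
      have : k = 0 ∨ k = 1 := by omega
      rcases this with h0 | h0 <;> exact hne (by simp [h0])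
    obtain ⟨k, rfl⟩ : ∃ k', k = k' + 2 := ⟨k - 2, by omega⟩
    refine Cone.y (i + 1) (j + 1) (k + 2 - 2) (by omega) ?_ ?_
    · simp only [Nat.add_sub_cancel]; nlinarith
    · simp only [Nat.add_sub_cancel]; nlinarith
  · refine Cone.smul _ (by linarith) (Cone.sym (i + 1) j k (by omega) ?_ ?_)
    · nlinarith
    · nlinarith
  · refine Cone.term _ (by linarith) fun hne => ?_
    have hk1 : 1 ≤ k := by
      rcases Nat.eq_zero_or_pos k with h0 | h0
      · exfalso; apply hne; simp [h0]
      · exact h0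
    obtain ⟨k, rfl⟩ : ∃ k', k = k' + 1 := ⟨k - 1, by omega⟩
    refine Cone.sym (i + 1) (j + 1) (k + 1 - 1) (by omega) ?_ ?_
    · simp only [Nat.add_sub_cancel]; nlinarith
    · simp only [Nat.add_sub_cancel]; nlinarith

lemma Cone.steph {a b i j n : ℕ} (hn : n = 2 * i + j + 1) (h : 2 * i + j = a + b)
    (ha : a ≤ i * (i + 1)) (hb : b ≤ i * (i + 1)) :
    Cone (a + 1) b (DD n a (gU ^ i * gV ^ j)) (EE n a (gU ^ i * gV ^ j)) := by
  rw [DD_h i j n a hn, EE_h i j n a hn]
  have e1 : ((i : R2) * ((i : R2) + 1) - (a : R2)) =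
      C ((i : ℝ) * (i + 1) - a) := by simp
  have e4 : ((j : R2) * (2 * (n : R2) - (j : R2) + 1)) = C ((j : ℝ) * (2 * n - j + 1)) := by
    simp [C_two]
  have e5 : ((j : R2) * ((j : R2) - 1)) = C ((j : ℝ) * (j - 1)) := by simp
  have e7 : ((i : R2) * (i : R2) + (i : R2) * (j : R2) + 2 * (i : R2) + (j : R2) + (a : R2) + 1) =
      C ((i : ℝ) * i + i * j + 2 * i + j + a + 1) := by simp [C_two]
  have e8 : ((i : R2) * (i : R2) + (i : R2) * (j : R2) + (a : R2)) =
      C ((i : ℝ) * i + i * j + a) := by simp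
  rw [e1, e4, e5, e7, e8]
  have hj : (j : ℝ) ≤ n := by exact_mod_cast (by omega : j ≤ n)
  have hj0 : (0 : ℝ) ≤ j := Nat.cast_nonneg j
  have haR : (a : ℝ) ≤ (i : ℝ) * (i + 1) := by exact_mod_cast ha
  refine Cone.add (Cone.add (Cone.add (Cone.add ?_ ?_) ?_) ?_) ?_
  · refine Cone.term _ (by linarith) fun hne => Cone.h i (j + 1) (by omega) ?_ hb
    have hne' : a ≠ i * (i + 1) := by
      rintro rfl; apply hne; push_cast; ring
    omega
  · refine Cone.term _ (mul_nonneg hj0 (by linarith)) fun hne => ?_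
    have hj1 : 1 ≤ j := by
      rcases Nat.eq_zero_or_pos j with h0 | h0
      · exfalso; apply hne; simp [h0]
      · exact h0
    refine Cone.h (i + 1) (j - 1) (by omega) ?_ ?_
    · nlinarith
    · nlinarith
  · have hj2 : (0 : ℝ) ≤ (j : ℝ) * (j - 1) := by
      rcases Nat.eq_zero_or_pos j with h0 | h0
      · simp [h0]
      · have : (1 : ℝ) ≤ j := by exact_mod_cast h0
        exact mul_nonneg hj0 (by linarith)
    refine Cone.term _ hj2 fun hne => ?_
    have hj1 : 2 ≤ j := by
      by_contra hlt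
      have : j = 0 ∨ j = 1 := by omega
      rcases this with h0 | h0 <;> exact hne (by simp [h0])
    have := Cone.sym (a := a + 1) (b := b) (i + 1) (j - 2) 1 (by omega) (by nlinarith)
      (by nlinarith)
    simpa using this
  · refine Cone.smul _ (by positivity) ?_
    have := Cone.x (a := a + 1) (b := b) i j 0 (by omega) (by nlinarith) (by nlinarith)
    simpa using this
  · refine Cone.term _ (by positivity) fun hne => ?_
    have h1 : a + 1 ≤ i * (i + 0 + 2) := by
      rcases i with _ | i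
      · exfalso; apply hne
        have : a = 0 := by simpa using ha
        simp [this]
      · nlinarith
    have := Cone.y (a := a + 1) (b := b) i j 0 (by omega) h1 (by nlinarith)
    simpa using this

/-- the one-step recurrence preserves the cone -/
theorem Cone.step {a b : ℕ} {F F' : R2} (h : Cone a b F F') :
    Cone (a + 1) b (DD (a + b + 1) a F) (EE (a + b + 1) a F') := by
  induction h with
  | zero => rw [DD_zero, EE_zero]; exact Cone.zero
  | add _ _ h1 h2 => rw [DD_add, EE_add]; exact Cone.add h1 h2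
  | smul c hc _ h1 => rw [DD_C_mul, EE_C_mul]; exact Cone.smul c hc h1
  | x i j k h ha hb => exact Cone.stepx (by omega) h ha hb
  | y i j k h ha hb => exact Cone.stepy (by omega) h ha hb
  | h i j h ha hb => exact Cone.steph (by omega) h ha hb

end

end Pool.Agent.TwoSidedGamma
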