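import Pool.Agent.Helper62.GamTransfer

/-!
The transfer rule for the sign weights.
-/

namespace Pool.Agent.TwoSidedGamma

noncomputable section

/-- column of the `z`-th cell -/
def yy (l z : ℕ) : ℤ := (((z + l) % (2 * l + 1) : ℕ) : ℤ) - l
/-- row of the `z`-th cell -/
def xx (l z : ℕ) : ℕ := (z + l) / (2 * l + 1)

/-- sign contributed by a new letter `y`; `P a = (-1)^(number of earlier letters with |.| > a)` -/
def wgt (y : ℤ) (P : ℕ → ℝ) : ℝ := if 0 ≤ y then P y.natAbs else - P (y.natAbs - 1)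

/-- update of the state by a new letter -/
def upd (y : ℤ) (P : ℕ → ℝ) : ℕ → ℝ := fun a => if a < y.natAbs then - P a else P a

lemma xx_yy_of {l z x r : ℕ} (hr : r ≤ 2 * l) (hz : z + l = x * (2 * l + 1) + r) :
    xx l z = x ∧ yy l z = (r : ℤ) - l := by
  have h1 : (z + l) % (2 * l + 1) = r := by
    rw [hz, Nat.mul_add_mod', Nat.mod_eq_of_lt (by omega)]
  have h2 : (z + l) / (2 * l + 1) = x := by
    rw [hz, Nat.add_div_of_dvd_right (Dvd.intro_left x rfl), Nat.mul_div_cancel _ (by omega),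
      Nat.div_eq_of_lt (by omega)]
    rfl
  simp [xx, yy, h1, h2]

lemma exists_xr (l z : ℕ) : ∃ x r, r ≤ 2 * l ∧ z + l = x * (2 * l + 1) + r := by
  refine ⟨(z + l) / (2 * l + 1), (z + l) % (2 * l + 1), ?_, ?_⟩
  · have := Nat.mod_lt (z + l) (show 0 < 2 * l + 1 by omega)
    omega
  · have := Nat.div_add_mod (z + l) (2 * l + 1)
    rw [Nat.mul_comm] at this
    exact this.symm

lemma natAbs_yy_le (l z : ℕ) : (yy l z).natAbs ≤ l := by
  obtain ⟨x, r, hr, hz⟩ := exists_xr l z
  rw [(xx_yy_of hr hz).2]; omega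

open PowerSeries

/-- geometric series -/
def gg (e : ℝ) : PowerSeries ℝ := PowerSeries.mk fun b => e ^ b

lemma gg_eq (e : ℝ) : gg e = 1 + X * C e * gg e := by
  ext b
  rcases b with _ | b
  · simp [gg, mul_assoc]
  · rw [map_add, mul_assoc, coeff_succ_X_mul, coeff_C_mul]
    simp [gg, coeff_one, pow_succ, mul_comm]

def HH : PowerSeries ℝ := gg 1 * gg (-1)

lemma HH_eq {e : ℝ} (he : e * e = 1) : HH = gg e * gg (-e) := by
  have h : e = 1 ∨ e = -1 := by
    have : (e - 1) * (e + 1) = 0 := by linear_combination he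
    rcases mul_eq_zero.mp this with h | h
    · left; linarith
    · right; linarith
  rcases h with rfl | rfl
  · rfl
  · rw [HH, neg_neg, mul_comm]

lemma HH_step {e : ℝ} (he : e * e = 1) : HH = gg e + X * C (-e) * HH := by
  rw [HH_eq he]
  nth_rewrite 1 [gg_eq (-e)]
  ring

def val (l : ℕ) (y : ℤ) (P : ℕ → ℝ) : PowerSeries ℝ :=
  HH ^ (-y).toNat * ∏ a ∈ Finset.Ico y.natAbs (l + 1), gg (P a)

def row (l : ℕ) : PowerSeries ℝ := HH ^ l * gg 1

def good (l : ℕ) (P : ℕ → ℝ) : Prop := (∀ a, P a * P a = 1) ∧ ∀ a, l ≤ a → P a = 1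

lemma good_upd {l : ℕ} {P : ℕ → ℝ} (y : ℤ) (hy : y.natAbs ≤ l) (h : good l P) :
    good l (upd y P) := by
  refine ⟨fun a => ?_, fun a ha => ?_⟩
  · simp only [upd]; split_ifs
    · have := h.1 a; linear_combination this
    · exact h.1 a
  · simp only [upd]; rw [if_neg (by omega)]; exact h.2 a ha

lemma val_upd (l : ℕ) (y : ℤ) (P : ℕ → ℝ) : val l y (upd y P) = val l y P := by
  unfold val
  congr 1
  apply Finset.prod_congr rfl
  intro a ha
  rw [Finset.mem_Ico] at ha
  simp only [upd]; rw [if_neg (by omega)]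

lemma val_step {l : ℕ} {P : ℕ → ℝ} (hP : good l P) (y : ℤ) (hy : y.natAbs ≤ l) :
    val l y P = val l (y + 1) P + X * C (wgt y P) * val l y (upd y P) := by
  rw [val_upd]
  rcases le_or_gt 0 y with h | h
  · obtain ⟨m, rfl⟩ := Int.eq_ofNat_of_zero_le h
    have e1 : ((m : ℤ) + 1).natAbs = m + 1 := by omega
    have e2 : (m : ℤ).natAbs = m := by omega
    have e3 : (-(m : ℤ)).toNat = 0 := by omega
    have e4 : (-((m : ℤ) + 1)).toNat = 0 := by omega
    simp only [val, wgt, e1, e2, e3, e4, if_pos h]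
    rw [Finset.prod_eq_prod_Ico_succ_bot (by omega)]
    nth_rewrite 1 [gg_eq (P m)]
    ring
  · obtain ⟨m, hm⟩ : ∃ m : ℕ, y = -((m : ℤ) + 1) := ⟨(-y - 1).toNat, by omega⟩
    subst hm
    have e1 : (-((m : ℤ) + 1) + 1).natAbs = m := by omega
    have e2 : (-((m : ℤ) + 1)).natAbs = m + 1 := by omega
    have e3 : (-(-((m : ℤ) + 1))).toNat = m + 1 := by omega
    have e4 : (-(-((m : ℤ) + 1) + 1)).toNat = m := by omega
    simp only [val, wgt, e1, e2, e3, e4, if_neg (not_le.mpr h), Nat.add_sub_cancel]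
    rw [Finset.prod_eq_prod_Ico_succ_bot (show m < l + 1 by omega)]
    have := HH_step (hP.1 m)
    rw [pow_succ]
    linear_combination (HH ^ m * ∏ k ∈ Finset.Ico (m + 1) (l + 1), gg (P k)) * this

/-- number of cells -/
def ZZ (k l : ℕ) : ℕ := 2 * k * l + k + l + 1

def VV (k l z : ℕ) (P : ℕ → ℝ) : PowerSeries ℝ :=
  if z < ZZ k l then row l ^ (k - xx l z) * val l (yy l z) P else 1

lemma val_bot {l : ℕ} {P : ℕ → ℝ} (hP : good l P) : val l (-(l : ℤ)) P = row l := by
  have e1 : (-(l : ℤ)).natAbs = l := by omega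
  have e2 : (-(-(l : ℤ))).toNat = l := by omega
  simp only [val, e1, e2, row, Nat.Ico_succ_singleton, Finset.prod_singleton, hP.2 l le_rfl]

lemma val_top {l : ℕ} {P : ℕ → ℝ} : val l ((l : ℤ) + 1) P = 1 := by
  have e1 : ((l : ℤ) + 1).natAbs = l + 1 := by omega
  have e2 : (-((l : ℤ) + 1)).toNat = 0 := by omega
  simp only [val, e1, e2]; simp

lemma VV_step {k l z : ℕ} {P : ℕ → ℝ} (hz : z < ZZ k l) (hP : good l P) :
    VV k l z P = VV k l (z + 1) P + X * C (wgt (yy l z) P) * VV k l z (upd (yy l z) P) := by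
  obtain ⟨x, r, hr, hxr⟩ := exists_xr l z
  obtain ⟨hx, hy⟩ := xx_yy_of hr hxr
  have hxk : x ≤ k := by
    by_contra hlt
    have h1 : k + 1 ≤ x := by omega
    have h2 : (k + 1) * (2 * l + 1) ≤ x * (2 * l + 1) := Nat.mul_le_mul_right _ h1
    unfold ZZ at hz
    have h3 : (k + 1) * (2 * l + 1) = 2 * k * l + k + l + 1 + l := by ring
    omega
  have key : VV k l (z + 1) P = row l ^ (k - x) * val l (yy l z + 1) P := by
    rcases Nat.lt_or_ge r (2 * l) with h | h
    · have hz1 : z + 1 + l = x * (2 * l + 1) + (r + 1) := by omega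
      obtain ⟨hx', hy'⟩ := xx_yy_of (show r + 1 ≤ 2 * l by omega) hz1
      have hlt : z + 1 < ZZ k l := by
        have h2 : x * (2 * l + 1) ≤ k * (2 * l + 1) := Nat.mul_le_mul_right _ hxk
        have h3 : k * (2 * l + 1) = 2 * k * l + k := by ring
        unfold ZZ
        omega
      rw [VV, if_pos hlt, hx', hy', hy]
      congr 2
      push_cast; ring
    · have hr2 : r = 2 * l := by omega
      have hy1 : yy l z + 1 = (l : ℤ) + 1 := by rw [hy, hr2]; push_cast; ring
      rw [hy1, val_top, mul_one]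
      have hz1 : z + 1 + l = (x + 1) * (2 * l + 1) + 0 := by rw [hr2] at hxr; linarith
      obtain ⟨hx', hy'⟩ := xx_yy_of (show 0 ≤ 2 * l by omega) hz1
      rcases Nat.lt_or_ge x k with hlt | hge
      · have hlt : z + 1 < ZZ k l := by
          have h2 : (x + 1) * (2 * l + 1) ≤ k * (2 * l + 1) := Nat.mul_le_mul_right _ hlt
          have h3 : k * (2 * l + 1) = 2 * k * l + k := by ring
          unfold ZZ
          omega
        rw [VV, if_pos hlt, hx', hy']
        simp only [Nat.cast_zero, zero_sub]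
        rw [val_bot hP, ← pow_succ]
        congr 1
        omega
      · have : x = k := by omega
        subst this
        have hge : ¬ (z + 1 < ZZ x l) := by
          have h3 : (x + 1) * (2 * l + 1) = 2 * x * l + x + 2 * l + 1 := by ring
          unfold ZZ
          omega
        rw [VV, if_neg hge]; simp
  rw [key]
  simp only [VV, if_pos hz, hx]
  rw [val_step hP (yy l z) (natAbs_yy_le l z)]
  rw [val_upd]
  ring

/-- generating function of multisets, with a sign -/
lemma gg_pow {e : ℝ} (N : ℕ) : gg e ^ N = PowerSeries.mk fun b => e ^ b * hc N b := by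
  induction N with
  | zero =>
    ext b
    rcases b with _ | b
    · simp [hc]
    · simp [hc, coeff_one]
  | succ N ih =>
    have hrec : ∀ b, hc (N + 1) (b + 1) = hc N (b + 1) + hc (N + 1) b := by
      intro b
      simp only [hc]
      rw [Nat.multichoose_succ_succ]; push_cast; ring
    -- both sides solve `f = gg e ^ N + X * e * f`
    have h1 : gg e ^ (N + 1) = gg e ^ N + X * C e * gg e ^ (N + 1) := by
      have := gg_eq e
      rw [pow_succ]
      linear_combination (gg e ^ N) * this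
    ext b
    induction b with
    | zero => rw [h1, ih]; simp [hc, mul_assoc]
    | succ b ihb =>
      rw [h1, map_add, mul_assoc X, coeff_succ_X_mul, coeff_C_mul, ihb, ih]
      simp only [coeff_mk, hrec]
      ring

lemma coeff_prod (N M n : ℕ) (e : ℝ) :
    coeff n (gg 1 ^ N * gg e ^ M) =
      ∑ p ∈ Finset.HasAntidiagonal.antidiagonal n, e ^ p.2 * (hc N p.1 * hc M p.2) := by
  rw [coeff_mul, gg_pow, gg_pow]
  apply Finset.sum_congr rfl
  intro p _
  simp only [coeff_mk, one_pow, one_mul]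
  ring

/-- the signed sum -/
theorem Srec_signed (n k l : ℕ) :
    Srec (fun z P => wgt (yy l z) P) (fun z P => upd (yy l z) P) (ZZ k l) n 0 (fun _ => 1) =
      ∑ p ∈ Finset.HasAntidiagonal.antidiagonal n, (-1 : ℝ) ^ p.2 * Gab p.1 p.2 k l := by
  rw [Srec_eq (fun z P => wgt (yy l z) P) (fun z P => upd (yy l z) P) (ZZ k l) (VV k l) (good l)
    (fun z P hP => good_upd _ (natAbs_yy_le l z) hP) (fun P _ => by simp [VV])
    (fun z P hz hP => VV_step hz hP) n 0 _ (Nat.zero_le _) ⟨by simp, by simp⟩]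
  have h0 : xx l 0 = 0 ∧ yy l 0 = 0 := by
    have := xx_yy_of (l := l) (z := 0) (x := 0) (r := l) (by omega) (by omega)
    simpa using this
  have hZ : (0 : ℕ) < ZZ k l := by unfold ZZ; omega
  have h1 : VV k l 0 (fun _ => 1) = gg 1 ^ ((k + 1) * (l + 1)) * gg (-1) ^ (k * l) := by
    rw [VV, if_pos hZ, h0.1, h0.2]
    simp only [val, row, Int.natAbs_zero, neg_zero, Int.toNat_zero, pow_zero, one_mul,
      Finset.prod_const, Nat.card_Ico, Nat.sub_zero]
    rw [HH]
    ring
  rw [h1, coeff_prod]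
  rfl

/-- the unsigned sum -/
theorem Srec_unsigned (n k l : ℕ) {S : Type*} (τ : ℕ → S → S) (P : S) :
    Srec (fun _ _ => 1) τ (ZZ k l) n 0 P = ∑ p ∈ Finset.HasAntidiagonal.antidiagonal n, Gab p.1 p.2 k l := by
  rw [Srec_eq (fun _ _ => 1) τ (ZZ k l) (fun z _ => gg 1 ^ (ZZ k l - z)) (fun _ => True)
    (fun z P hP => trivial) (fun P _ => by simp) ?_ n 0 _ (Nat.zero_le _) trivial]
  · have h1 : gg 1 ^ (ZZ k l - 0) = gg 1 ^ ((k + 1) * (l + 1)) * gg 1 ^ (k * l) := by
      rw [← pow_add]; congr 1; unfold ZZ; rw [Nat.sub_zero]; ring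
    simp only [h1, coeff_prod, one_pow, one_mul]
    rfl
  · intro z P hz _
    simp only [map_one, mul_one]
    obtain ⟨m, hm⟩ : ∃ m, ZZ k l - z = m + 1 := ⟨ZZ k l - z - 1, by omega⟩
    rw [hm, show ZZ k l - (z + 1) = m by omega]
    have := gg_eq 1
    rw [map_one, mul_one] at this
    rw [pow_succ]
    linear_combination (gg 1 ^ m) * this

end

end Pool.Agent.TwoSidedGamma
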