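import Pool.Agent.Helper62.GamDefs
import Pool.Agent.Helper62.GamSigned

/-!
Counting the sequences compatible with the descents of a signed permutation.
-/

namespace Pool.Agent.TwoSidedGamma

noncomputable section

lemma bt_shift (n d k : ℕ) : bt n (d + 1) (k + 1) = bt n d k := by
  simp [bt]

lemma sum_bt (n d M : ℕ) : ∑ m ∈ Finset.range M, bt n d m = bt (n + 1) (d + 1) M := by
  induction M with
  | zero => simp [bt]
  | succ M ih =>
    rw [Finset.sum_range_succ, ih, bt_shift]
    have := bt_succ_sub n d M
    linarith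

/-- `f` is compatible with the sequence `v` (starting from `(c, a)`) -/
def Compat {n : ℕ} (c : ℕ) (a : ℤ) (v : Fin n → ℤ) (f : Fin n → ℕ) : Prop :=
  StrictMono (Fin.cons (toLex (c, a)) (fun i => toLex (f i, v i)) : Fin (n + 1) → ℕ ×ₗ ℤ)

instance {n : ℕ} (c : ℕ) (a : ℤ) (v : Fin n → ℤ) (f : Fin n → ℕ) :
    Decidable (Compat c a v f) := Classical.dec _

/-- number of descents of `a, v 0, v 1, …` -/
def dc {n : ℕ} (a : ℤ) (v : Fin n → ℤ) : ℕ :=
  (Finset.univ.filter fun i : Fin n =>
    (Fin.cons a v : Fin (n + 1) → ℤ) i.succ < (Fin.cons a v : Fin (n + 1) → ℤ) i.castSucc).card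

lemma cons_lex {n : ℕ} (v : Fin (n + 1) → ℤ) (f : Fin (n + 1) → ℕ) :
    (fun i => toLex (f i, v i)) =
      (Fin.cons (toLex (f 0, v 0)) (fun i => toLex (Fin.tail f i, Fin.tail v i)) :
        Fin (n + 1) → ℕ ×ₗ ℤ) := by
  funext i
  refine Fin.cases ?_ (fun i => ?_) i <;> simp [Fin.tail]

lemma compat_succ {n : ℕ} (c : ℕ) (a : ℤ) (v : Fin (n + 1) → ℤ) (f : Fin (n + 1) → ℕ) :
    Compat c a v f ↔
      (c < f 0 ∨ (c = f 0 ∧ a < v 0)) ∧ Compat (f 0) (v 0) (Fin.tail v) (Fin.tail f) := by
  unfold Compat
  have h1 : StrictMono (Fin.cons (toLex (c, a)) (fun i => toLex (f i, v i)) :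
      Fin (n + 1 + 1) → ℕ ×ₗ ℤ) ↔ toLex (c, a) < toLex (f 0, v 0) ∧
        StrictMono (fun i => toLex (f i, v i)) := strictMono_vecCons
  rw [h1, Prod.Lex.toLex_lt_toLex, cons_lex]

lemma dc_succ {n : ℕ} (a : ℤ) (v : Fin (n + 1) → ℤ) :
    dc a v = (if v 0 < a then 1 else 0) + dc (v 0) (Fin.tail v) := by
  unfold dc
  simp only [Finset.card_filter]
  rw [Fin.sum_univ_succ]
  simp only [Fin.cons_succ, Fin.castSucc_zero, Fin.cons_zero, Fin.castSucc_succ]
  congr 1
  apply Finset.sum_congr rfl
  intro i _
  have h : (Fin.cons (v 0) (Fin.tail v) : Fin (n + 1) → ℤ) = v := Fin.cons_self_tail v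
  rw [h]
  rfl

theorem count_compat {n : ℕ} (c k : ℕ) (hck : c ≤ k) (a : ℤ) (v : Fin n → ℤ)
    (hv : Function.Injective (Fin.cons a v : Fin (n + 1) → ℤ)) :
    (∑ f ∈ Fintype.piFinset (fun _ : Fin n => Finset.Ico c (k + 1)),
      if Compat c a v f then (1 : ℝ) else 0) = bt n (dc a v) (k - c) := by
  induction n generalizing c a with
  | zero =>
    have h1 : Fintype.piFinset (fun _ : Fin 0 => Finset.Ico c (k + 1)) = {Fin.elim0} := by
      ext z
      rw [Finset.mem_singleton]
      constructor
      · intro _; exact Subsingleton.elim _ _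
      · intro _; rw [Fintype.mem_piFinset]; intro i; exact i.elim0
    rw [h1, Finset.sum_singleton, if_pos]
    · simp [bt, dc]
    · intro i j hij
      exfalso
      have h2 := i.2
      have h3 := j.2
      have h4 : i.val < j.val := hij
      omega
  | succ n ih =>
    have hne : a ≠ v 0 := by
      intro h
      have := @hv 0 1 (by simpa using h)
      exact absurd this (by simp)
    have hv' : Function.Injective (Fin.cons (v 0) (Fin.tail v) : Fin (n + 1) → ℤ) := by
      rw [Fin.cons_self_tail]
      intro i j hij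
      have := @hv i.succ j.succ (by simpa using hij)
      exact Fin.succ_injective _ this
    have hsplit : (∑ f ∈ Fintype.piFinset (fun _ : Fin (n + 1) => Finset.Ico c (k + 1)),
        if Compat c a v f then (1 : ℝ) else 0) =
        ∑ x ∈ Finset.Ico c (k + 1), if (c < x ∨ (c = x ∧ a < v 0)) then
          bt n (dc (v 0) (Fin.tail v)) (k - x) else 0 := by
      have h2 : ∀ x ∈ Finset.Ico c (k + 1), (if (c < x ∨ (c = x ∧ a < v 0)) then
          bt n (dc (v 0) (Fin.tail v)) (k - x) else 0) =
          ∑ t ∈ Fintype.piFinset (fun _ : Fin n => Finset.Ico x (k + 1)),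
            if (c < x ∨ (c = x ∧ a < v 0)) ∧ Compat x (v 0) (Fin.tail v) t then (1 : ℝ) else 0 := by
        intro x hx
        rw [Finset.mem_Ico] at hx
        by_cases h : c < x ∨ (c = x ∧ a < v 0)
        · rw [if_pos h, ← ih x (by omega) (v 0) (Fin.tail v) hv']
          simp only [h, true_and]
        · simp only [h, false_and, if_false, Finset.sum_const_zero]
      rw [Finset.sum_congr rfl h2]
      -- both sides are sums over a set of sequences
      rw [← Finset.sum_filter, Finset.sum_sigma' (Finset.Ico c (k + 1))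
        (fun x => Fintype.piFinset (fun _ : Fin n => Finset.Ico x (k + 1)))
        (fun x t => if (c < x ∨ (c = x ∧ a < v 0)) ∧ Compat x (v 0) (Fin.tail v) t then (1 : ℝ)
          else 0), ← Finset.sum_filter]
      refine Finset.sum_nbij' (fun f => ⟨f 0, Fin.tail f⟩) (fun x => Fin.cons x.1 x.2) ?_ ?_ ?_ ?_ ?_
      · intro f hf
        rw [Finset.mem_filter, Fintype.mem_piFinset, compat_succ] at hf
        obtain ⟨h1, h2, h3⟩ := hf
        rw [Finset.mem_filter, Finset.mem_sigma, Fintype.mem_piFinset]
        refine ⟨⟨h1 0, fun i => ?_⟩, h2, h3⟩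
        have h4 := h1 i.succ
        rw [Finset.mem_Ico] at h4 ⊢
        refine ⟨?_, h4.2⟩
        have h5 := (Fin.strictMono_cons.mp h3).1 i
        rw [Prod.Lex.toLex_lt_toLex] at h5
        rcases h5 with h5 | h5
        · exact h5.le
        · exact h5.1.le
      · intro x hx
        rw [Finset.mem_filter, Finset.mem_sigma, Fintype.mem_piFinset] at hx
        obtain ⟨⟨h1, h2⟩, h3⟩ := hx
        rw [Finset.mem_filter, Fintype.mem_piFinset, compat_succ]
        refine ⟨fun i => ?_, by simpa using h3⟩
        rw [Finset.mem_Ico] at h1 ⊢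
        refine Fin.cases ?_ (fun i => ?_) i
        · simpa using h1
        · have := h2 i
          rw [Finset.mem_Ico] at this
          simp only [Fin.cons_succ]
          omega
      · intro f _; simp
      · intro x _; simp
      · intro f _; rfl
    rw [hsplit, dc_succ]
    rcases lt_or_gt_of_ne hne with h | h
    · rw [if_neg (not_lt.mpr h.le), Nat.zero_add]
      have h3 : ∀ x ∈ Finset.Ico c (k + 1), (if (c < x ∨ (c = x ∧ a < v 0)) then
          bt n (dc (v 0) (Fin.tail v)) (k - x) else 0) = bt n (dc (v 0) (Fin.tail v)) (k - x) := by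
        intro x hx
        rw [Finset.mem_Ico] at hx
        rw [if_pos]
        rcases Nat.lt_or_ge c x with h' | h'
        · left; exact h'
        · right; exact ⟨by omega, h⟩
      rw [Finset.sum_congr rfl h3]
      have h4 : ∑ x ∈ Finset.Ico c (k + 1), bt n (dc (v 0) (Fin.tail v)) (k - x) =
          ∑ m ∈ Finset.range (k - c + 1), bt n (dc (v 0) (Fin.tail v)) m := by
        refine Finset.sum_nbij' (fun x => k - x) (fun m => k - m) ?_ ?_ ?_ ?_ ?_
        · intro x hx; rw [Finset.mem_Ico] at hx; rw [Finset.mem_range]; omega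
        · intro x hx; rw [Finset.mem_range] at hx; rw [Finset.mem_Ico]; omega
        · intro x hx; rw [Finset.mem_Ico] at hx; omega
        · intro x hx; rw [Finset.mem_range] at hx; omega
        · intro x _; rfl
      rw [h4, sum_bt, bt_shift]
    · rw [if_pos h, Nat.add_comm 1]
      have h3 : ∀ x ∈ Finset.Ico c (k + 1), (if (c < x ∨ (c = x ∧ a < v 0)) then
          bt n (dc (v 0) (Fin.tail v)) (k - x) else 0) =
          if c < x then bt n (dc (v 0) (Fin.tail v)) (k - x) else 0 := by
        intro x _
        have : (c < x ∨ (c = x ∧ a < v 0)) ↔ c < x := by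
          constructor
          · rintro (h' | h')
            · exact h'
            · exact absurd h'.2 (not_lt.mpr h.le)
          · intro h'; left; exact h'
        simp only [this]
      rw [Finset.sum_congr rfl h3, ← Finset.sum_filter]
      have h4 : ∑ x ∈ (Finset.Ico c (k + 1)).filter (fun x => c < x),
          bt n (dc (v 0) (Fin.tail v)) (k - x) =
          ∑ m ∈ Finset.range (k - c), bt n (dc (v 0) (Fin.tail v)) m := by
        refine Finset.sum_nbij' (fun x => k - x) (fun m => k - m) ?_ ?_ ?_ ?_ ?_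
        · intro x hx; rw [Finset.mem_filter, Finset.mem_Ico] at hx; rw [Finset.mem_range]; omega
        · intro x hx; rw [Finset.mem_range] at hx; rw [Finset.mem_filter, Finset.mem_Ico]; omega
        · intro x hx; rw [Finset.mem_filter, Finset.mem_Ico] at hx; omega
        · intro x hx; rw [Finset.mem_range] at hx; omega
        · intro x _; rfl
      rw [h4, sum_bt]

end

end Pool.Agent.TwoSidedGamma
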