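import Mathlib

/-!
Definitions for MP_12caf3_co: signed permutations, type B descents and the
two-sided type B Eulerian polynomials of the even and the odd signed permutations.
-/

namespace Pool.Agent.TwoSidedGamma

/-- A signed permutation `π` of `{±1, …, ±n}` in window notation: `π.1` is the permutation
`|π|` (of the set `{1, …, n}`, indexed by `Fin n`) and `π.2 i` is the sign of `π(i+1)`,
that is, `π(i+1) = ε_i (σ(i)+1)` for `π = (σ, ε)`. -/
abbrev SignedPerm (n : ℕ) := Equiv.Perm (Fin n) × (Fin n → ℤˣ)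

namespace SignedPerm

variable {n : ℕ}

/-- The values `π(0) = 0, π(1), …, π(n)`. -/
def val (π : SignedPerm n) : Fin (n + 1) → ℤ :=
  Fin.cons 0 fun i => (π.2 i : ℤ) * (((π.1 i : ℕ) : ℤ) + 1)

/-- The inverse signed permutation: if `π(i+1) = ε (j+1)` then `π⁻¹(j+1) = ε (i+1)`. -/
def inv (π : SignedPerm n) : SignedPerm n := (π.1⁻¹, fun j => π.2 (π.1⁻¹ j))

/-- The type B descent number `#{i ∈ {0, …, n-1} : π(i) > π(i+1)}`. -/
def des (π : SignedPerm n) : ℕ :=
  (Finset.univ.filter fun i : Fin n => π.val i.succ < π.val i.castSucc).card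

/-- The signed permutation matrix: column `j` has the entry `ε_j` in row `σ(j)`. -/
def mat (π : SignedPerm n) : Matrix (Fin n) (Fin n) ℤ :=
  Matrix.of fun i j => if π.1 j = i then (π.2 j : ℤ) else 0

end SignedPerm

/-- `TSB n ε s t = ∑ t^{des_B(π)} s^{des_B(π⁻¹)}`, the sum over the signed permutations whose
matrix has determinant `ε` (`ε = 1`: even, `ε = -1`: odd Coxeter length). -/
noncomputable def TSB (n : ℕ) (ε : ℤ) (s t : ℝ) : ℝ :=
  ∑ π : SignedPerm n with π.mat.det = ε, t ^ π.des * s ^ π.inv.des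

end Pool.Agent.TwoSidedGamma
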