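import Pool.Agent.Helper62.GamSum

/-!
The sign of a signed permutation as a product of weights, and the final theorem.
-/

namespace Pool.Agent.TwoSidedGamma

noncomputable section

lemma wt_eq (l n : ℕ) (z : Fin n → ℕ) (P : ℕ → ℝ) :
    wt (fun z P => wgt (yy l z) P) (fun z P => upd (yy l z) P) n z P =
      ∏ j : Fin n, wgt (yy l (z j)) (fun a => P a * ∏ i : Fin n,
        if i < j then (if a < (yy l (z i)).natAbs then (-1 : ℝ) else 1) else 1) := by
  induction n generalizing P with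
  | zero => simp [wt]
  | succ n ih =>
    rw [wt, ih, Fin.prod_univ_succ]
    congr 1
    · congr 1
      funext a
      simp
    · apply Finset.prod_congr rfl
      intro j _
      congr 1
      funext a
      rw [Fin.prod_univ_succ]
      simp only [Fin.succ_pos, if_true, Fin.succ_lt_succ_iff, Fin.tail]
      rw [← mul_assoc]
      congr 1
      unfold upd
      split_ifs <;> ring

/-- the sign of a signed permutation -/
def chi {n : ℕ} (π : SignedPerm n) : ℝ :=
  ((Equiv.Perm.sign π.1 : ℤ) : ℝ) * ∏ i, ((π.2 i : ℤ) : ℝ)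

lemma sign_real {n : ℕ} (σ : Equiv.Perm (Fin n)) :
    ((Equiv.Perm.sign σ : ℤ) : ℝ) =
      ∏ j : Fin n, ∏ i : Fin n, if i < j then (if σ i < σ j then (1 : ℝ) else -1) else 1 := by
  rw [Equiv.Perm.sign_eq_prod_prod_Iio]
  push_cast
  apply Finset.prod_congr rfl
  intro j _
  rw [show Finset.Iio j = Finset.univ.filter (fun i => i < j) by ext; simp, Finset.prod_filter]
  apply Finset.prod_congr rfl
  intro i _
  split_ifs <;> simp

lemma prod_wgt {n : ℕ} (y : Fin n → ℤ) :
    ∏ j : Fin n, wgt (y j) (fun a => 1 * ∏ i : Fin n,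
        if i < j then (if a < (y i).natAbs then (-1 : ℝ) else 1) else 1) = chi (fromY y) := by
  unfold chi
  rw [sign_real, ← Finset.prod_mul_distrib]
  apply Finset.prod_congr rfl
  intro j _
  have hs : (fromY y).2 j = sgnU (y j) := rfl
  rw [hs]
  unfold wgt sgnU
  rcases lt_or_ge (y j) 0 with h | h
  · rw [if_neg (not_le.mpr h), if_pos h]
    have : ∀ i : Fin n, (if i < j then (if (y j).natAbs - 1 < (y i).natAbs then (-1 : ℝ) else 1)
        else 1) = (if i < j then (if (fromY y).1 i < (fromY y).1 j then (1 : ℝ) else -1) else 1) := by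
      intro i
      by_cases hij : i < j
      · rw [if_pos hij, if_pos hij]
        have h1 : (fromY y).1 i < (fromY y).1 j ↔ ¬ ((y j).natAbs - 1 < (y i).natAbs) := by
          rw [fromY_lt_iff, key_lt_iff y hij, if_neg (not_le.mpr h)]; omega
        by_cases h2 : (y j).natAbs - 1 < (y i).natAbs
        · rw [if_pos h2, if_neg (fun h3 => (h1.mp h3) h2)]
        · rw [if_neg h2, if_pos (h1.mpr h2)]
      · rw [if_neg hij, if_neg hij]
    dsimp only
    rw [Finset.prod_congr rfl fun i _ => this i]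
    push_cast
    ring
  · rw [if_pos h, if_neg (not_lt.mpr h)]
    have : ∀ i : Fin n, (if i < j then (if (y j).natAbs < (y i).natAbs then (-1 : ℝ) else 1)
        else 1) = (if i < j then (if (fromY y).1 i < (fromY y).1 j then (1 : ℝ) else -1) else 1) := by
      intro i
      by_cases hij : i < j
      · rw [if_pos hij, if_pos hij]
        have h1 : (fromY y).1 i < (fromY y).1 j ↔ ¬ ((y j).natAbs < (y i).natAbs) := by
          rw [fromY_lt_iff, key_lt_iff y hij, if_pos h]; omega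
        by_cases h2 : (y j).natAbs < (y i).natAbs
        · rw [if_pos h2, if_neg (fun h3 => (h1.mp h3) h2)]
        · rw [if_neg h2, if_pos (h1.mpr h2)]
      · rw [if_neg hij, if_neg hij]
    dsimp only
    rw [Finset.prod_congr rfl fun i _ => this i]
    push_cast
    ring

lemma mat_det {n : ℕ} (π : SignedPerm n) :
    π.mat.det = (Equiv.Perm.sign π.1 : ℤ) * ∏ i, (π.2 i : ℤ) := by
  rw [Matrix.det_apply', Finset.sum_eq_single π.1]
  · simp [SignedPerm.mat]
  · intro τ _ hne
    obtain ⟨i, hi⟩ : ∃ i, π.1 i ≠ τ i := by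
      by_contra hcon
      push Not at hcon
      exact hne (Equiv.ext fun i => (hcon i).symm)
    have : ∏ i, π.mat (τ i) i = 0 := by
      apply Finset.prod_eq_zero (Finset.mem_univ i)
      simp [SignedPerm.mat, hi]
    rw [this, mul_zero]
  · intro h; exact absurd (Finset.mem_univ _) h

lemma det_real {n : ℕ} (π : SignedPerm n) : ((π.mat.det : ℤ) : ℝ) = chi π := by
  rw [mat_det]; unfold chi; push_cast; ring

lemma det_eq_or {n : ℕ} (π : SignedPerm n) : π.mat.det = 1 ∨ π.mat.det = -1 := by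
  have h : π.mat.det = ((Equiv.Perm.sign π.1 * ∏ i, π.2 i : ℤˣ) : ℤ) := by
    rw [mat_det]; push_cast; rfl
  rw [h]
  rcases Int.units_eq_one_or (Equiv.Perm.sign π.1 * ∏ i, π.2 i) with h | h <;> rw [h] <;> simp

theorem sum_signed (n k l : ℕ) :
    ∑ π : SignedPerm n, chi π * (bt n π.des k * bt n π.inv.des l) =
      ∑ p ∈ Finset.HasAntidiagonal.antidiagonal n, (-1 : ℝ) ^ p.2 * Gab p.1 p.2 k l := by
  rw [← Srec_signed]
  apply sum_identity
  intro z _
  rw [wt_eq, prod_wgt]

theorem sum_unsigned (n k l : ℕ) :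
    ∑ π : SignedPerm n, (bt n π.des k * bt n π.inv.des l) =
      ∑ p ∈ Finset.HasAntidiagonal.antidiagonal n, Gab p.1 p.2 k l := by
  have h := sum_identity (n := n) k l (S := Unit) (fun _ _ => 1) (fun _ _ => ()) () (fun _ => 1) ?_
  · simp only [one_mul] at h
    rw [h, Srec_unsigned]
  · intro z _
    have : ∀ (m : ℕ) (z : Fin m → ℕ), wt (fun _ _ => (1 : ℝ)) (fun _ (_ : Unit) => ()) m z () = 1 := by
      intro m
      induction m with
      | zero => intro z; rfl
      | succ m ih => intro z; rw [wt, ih]; simp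
    exact this n z

open MvPolynomial in
/-- the polynomial -/
def Tpoly (n : ℕ) (ε : ℤ) : R2 :=
  ∑ π : SignedPerm n with π.mat.det = ε, C (1 : ℝ) * (X 0 ^ π.des * X 1 ^ π.inv.des)

lemma Lam_Tpoly (n : ℕ) (ε : ℤ) (hε : ε = 1 ∨ ε = -1) (k l : ℕ) :
    Lam n k l (Tpoly n ε) =
      ∑ p ∈ (Finset.HasAntidiagonal.antidiagonal n).filter (fun p => (-1 : ℤ) ^ p.2 = ε),
        Gab p.1 p.2 k l := by
  unfold Tpoly
  rw [map_sum]
  simp only [Lam_XX, one_mul]
  rw [Finset.sum_filter, Finset.sum_filter]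
  have hε2 : (ε : ℝ) * ε = 1 := by rcases hε with h | h <;> rw [h] <;> norm_num
  have h1 : ∀ π : SignedPerm n, (if π.mat.det = ε then bt n π.des k * bt n π.inv.des l else 0) =
      1 / 2 * (bt n π.des k * bt n π.inv.des l) +
        ε / 2 * (chi π * (bt n π.des k * bt n π.inv.des l)) := by
    intro π
    rw [← det_real]
    rcases det_eq_or π with h | h <;> rcases hε with h' | h' <;> rw [h, h'] <;> norm_num <;> ring
  have h2 : ∀ p : ℕ × ℕ, (if (-1 : ℤ) ^ p.2 = ε then Gab p.1 p.2 k l else 0) =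
      1 / 2 * Gab p.1 p.2 k l + ε / 2 * ((-1 : ℝ) ^ p.2 * Gab p.1 p.2 k l) := by
    intro p
    have h4 : (-1 : ℝ) ^ p.2 = (((-1 : ℤ) ^ p.2 : ℤ) : ℝ) := by push_cast; rfl
    rw [h4]
    rcases neg_one_pow_eq_or ℤ p.2 with h | h <;>
      rcases hε with h' | h' <;> rw [h, h'] <;> norm_num <;> ring
  rw [Finset.sum_congr rfl fun π _ => h1 π, Finset.sum_congr rfl fun p _ => h2 p,
    Finset.sum_add_distrib, Finset.sum_add_distrib, ← Finset.mul_sum, ← Finset.mul_sum,
    ← Finset.mul_sum, ← Finset.mul_sum, sum_signed, sum_unsigned]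

theorem gpos_Tpoly (n : ℕ) (hn : Even n) (ε : ℤ) (hε : ε = 1 ∨ ε = -1) : GPos n (Tpoly n ε) := by
  apply gpos_of_Lam n _ ?_ ?_ _ (Lam_Tpoly n ε hε)
  · intro p hp
    rw [Finset.mem_filter] at hp
    simpa using hp.1
  · intro p hp
    rw [Finset.mem_filter] at hp ⊢
    have h1 : p.1 + p.2 = n := by simpa using hp.1
    refine ⟨by simp; omega, ?_⟩
    rw [← hp.2]
    have h2 : Even (p.1 + p.2) := by rw [h1]; exact hn
    have h3 : (-1 : ℤ) ^ p.1 * (-1 : ℤ) ^ p.2 = 1 := by rw [← pow_add, h2.neg_one_pow]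
    show (-1 : ℤ) ^ p.1 = (-1 : ℤ) ^ p.2
    rcases neg_one_pow_eq_or ℤ p.1 with h | h <;> rcases neg_one_pow_eq_or ℤ p.2 with h' | h' <;>
      rw [h, h'] at h3 ⊢ <;> norm_num at h3

theorem main (n : ℕ) (hn : Even n) (ε : ℤ) (hε : ε = 1 ∨ ε = -1) :
    ∃ γ : ℕ → ℕ → ℝ, (∀ i j, 0 ≤ γ i j) ∧
      ∀ s t : ℝ, TSB n ε s t = ∑ i ∈ Finset.range (n / 2 + 1), ∑ j ∈ Finset.range (n - 2 * i + 1),
        γ i j * (s * t) ^ i * (s + t) ^ j * (1 + s * t) ^ (n - 2 * i - j) := by
  obtain ⟨γ, h1, h2⟩ := gpos_Tpoly n hn ε hε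
  refine ⟨γ, h1, fun s t => ?_⟩
  have h3 := congrArg (MvPolynomial.eval (fun i : Fin 2 => if i = 0 then t else s)) h2
  unfold Tpoly at h3
  simp only [map_sum, map_mul, map_pow, MvPolynomial.eval_C, MvPolynomial.eval_X, gU, gV, gW,
    map_add, map_one, one_mul] at h3
  simp only [if_true, Fin.isValue, one_ne_zero, if_false] at h3
  unfold TSB
  rw [h3]
  apply Finset.sum_congr rfl
  intro i _
  apply Finset.sum_congr rfl
  intro j _
  ring

end

end Pool.Agent.TwoSidedGamma
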