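import Mathlib

/-!
Differential operators on bivariate polynomials and their action on the
gamma basis `(st)^i (s+t)^j (1+st)^k`.
-/

namespace Pool.Agent.TwoSidedGamma

open MvPolynomial

noncomputable section

/-- bivariate polynomials over the reals -/
abbrev R2 := MvPolynomial (Fin 2) ℝ

/-- the product `s t` -/
def gU : R2 := X 0 * X 1
/-- the sum `s + t` -/
def gV : R2 := X 0 + X 1
/-- the polynomial `1 + s t` -/
def gW : R2 := 1 + X 0 * X 1

/-- Euler operator -/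
def eul (v : Fin 2) (F : R2) : R2 := X v * pderiv v F

def dop (n : ℕ) (v : Fin 2) (F : R2) : R2 :=
  (1 + ((n : R2) - 1) * X v) * F + (1 - X v) * eul v F

def eop (n : ℕ) (v : Fin 2) (F : R2) : R2 :=
  (n : R2) * X v * F + (1 - X v) * eul v F

def DD (n a : ℕ) (F : R2) : R2 :=
  dop n 0 (dop n 1 F) + (a : R2) * ((1 - X 0) * (1 - X 1)) * F

def EE (n a : ℕ) (F : R2) : R2 :=
  eop n 0 (eop n 1 F) + (a : R2) * ((1 - X 0) * (1 - X 1)) * F

lemma eul_add (v : Fin 2) (F G : R2) : eul v (F + G) = eul v F + eul v G := by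
  simp [eul, mul_add]

lemma eul_sub (v : Fin 2) (F G : R2) : eul v (F - G) = eul v F - eul v G := by
  simp [eul, mul_sub]

lemma eul_mul (v : Fin 2) (F G : R2) : eul v (F * G) = eul v F * G + F * eul v G := by
  simp only [eul, Derivation.leibniz, smul_eq_mul]; ring

lemma eul_C (v : Fin 2) (c : ℝ) : eul v (C c) = 0 := by simp [eul]

lemma eul_natCast (v : Fin 2) (m : ℕ) : eul v (m : R2) = 0 := by
  simp [eul]

lemma eul_one (v : Fin 2) : eul v (1 : R2) = 0 := by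
  simp [eul]

lemma eul_X0_0 : eul 0 (X 0 : R2) = X 0 := by simp [eul]
lemma eul_X1_1 : eul 1 (X 1 : R2) = X 1 := by simp [eul]
lemma eul_X0_1 : eul 0 (X 1 : R2) = 0 := by simp [eul, pderiv_X]
lemma eul_X1_0 : eul 1 (X 0 : R2) = 0 := by simp [eul, pderiv_X]

lemma eul_pow (v : Fin 2) (F : R2) (m : ℕ) :
    eul v (F ^ m) = (m : R2) * F ^ (m - 1) * eul v F := by
  simp only [eul, Derivation.leibniz_pow, smul_eq_mul, nsmul_eq_mul]; ring

lemma eul0_U (i : ℕ) : eul 0 (gU ^ i) = (i : R2) * gU ^ i := by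
  rcases i with _ | i
  · simp [eul_one]
  · rw [eul_pow]
    simp only [gU, eul_mul, eul_X0_0, eul_X0_1]
    simp; ring

lemma eul1_U (i : ℕ) : eul 1 (gU ^ i) = (i : R2) * gU ^ i := by
  rcases i with _ | i
  · simp [eul_one]
  · rw [eul_pow]
    simp only [gU, eul_mul, eul_X1_0, eul_X1_1]
    simp; ring

lemma eul0_V (j : ℕ) : eul 0 (gV ^ j) = (j : R2) * gV ^ (j - 1) * X 0 := by
  rw [eul_pow]; simp only [gV, eul_add, eul_X0_0, eul_X0_1]; ring

lemma eul1_V (j : ℕ) : eul 1 (gV ^ j) = (j : R2) * gV ^ (j - 1) * X 1 := by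
  rw [eul_pow]; simp only [gV, eul_add, eul_X1_0, eul_X1_1]; ring

lemma eul0_W (k : ℕ) : eul 0 (gW ^ k) = (k : R2) * gW ^ (k - 1) * (X 0 * X 1) := by
  rw [eul_pow]; simp only [gW, eul_add, eul_one, eul_mul, eul_X0_0, eul_X0_1]; ring

lemma eul1_W (k : ℕ) : eul 1 (gW ^ k) = (k : R2) * gW ^ (k - 1) * (X 0 * X 1) := by
  rw [eul_pow]; simp only [gW, eul_add, eul_one, eul_mul, eul_X1_0, eul_X1_1]; ring

set_option linter.unusedSimpArgs false

lemma DD_x (i j k n a : ℕ) (hn : n = 2 * i + j + k + 2) :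
    DD n a (gU ^ i * gV ^ j * gW ^ k) =
      (((i : R2) + 1) * (i + j + 1) + a) * (gU ^ i * gV ^ j * gW ^ (k + 1))
      + (((i : R2) + 1) * (i + k + 1) - a) * (gU ^ i * gV ^ (j + 1) * gW ^ k)
      + ((k : R2) * (2 * n - k + 1)) * (gU ^ (i + 1) * gV ^ j * gW ^ (k - 1))
      + ((j : R2) * (2 * n - j + 1)) * (gU ^ (i + 1) * gV ^ (j - 1) * gW ^ k)
      + ((j : R2) * (j - 1)) * (gU ^ (i + 1) * gV ^ (j - 2) * gW ^ (k + 1))
      + ((k : R2) * (k - 1)) * (gU ^ (i + 1) * gV ^ (j + 1) * gW ^ (k - 2)) := by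
  subst hn
  simp only [DD, EE, dop, eop, eul_add, eul_sub, eul_mul, eul_one, eul_natCast, eul0_U, eul1_U,
    eul0_V, eul1_V, eul0_W, eul1_W, eul_X0_0, eul_X1_1, eul_X0_1, eul_X1_0]
  rcases j with _ | _ | j <;> rcases k with _ | _ | k <;>
    simp only [Nat.add_sub_cancel, Nat.zero_sub, Nat.reduceAdd, Nat.reduceSubDiff, Nat.sub_self,
      Nat.cast_add, Nat.cast_mul, Nat.cast_ofNat, Nat.cast_one, Nat.cast_zero, pow_zero,
      zero_add, Nat.add_one_sub_one, Nat.reduceSub, Nat.sub_zero] <;>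
    simp only [gV, gW, gU] <;> ring

lemma EE_x (i j k n a : ℕ) (hn : n = 2 * i + j + k + 2) :
    EE n a (gU ^ (i + 1) * gV ^ j * gW ^ k) =
      (((i : R2) + 1) * (i + j + 1) + a) * (gU ^ (i + 1) * gV ^ j * gW ^ (k + 1))
      + (((i : R2) + 1) * (i + k + 1) - a) * (gU ^ (i + 1) * gV ^ (j + 1) * gW ^ k)
      + ((k : R2) * (2 * n - k + 1)) * (gU ^ (i + 2) * gV ^ j * gW ^ (k - 1))
      + ((j : R2) * (2 * n - j + 1)) * (gU ^ (i + 2) * gV ^ (j - 1) * gW ^ k)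
      + ((j : R2) * (j - 1)) * (gU ^ (i + 2) * gV ^ (j - 2) * gW ^ (k + 1))
      + ((k : R2) * (k - 1)) * (gU ^ (i + 2) * gV ^ (j + 1) * gW ^ (k - 2)) := by
  subst hn
  simp only [DD, EE, dop, eop, eul_add, eul_sub, eul_mul, eul_one, eul_natCast, eul0_U, eul1_U,
    eul0_V, eul1_V, eul0_W, eul1_W, eul_X0_0, eul_X1_1, eul_X0_1, eul_X1_0]
  rcases j with _ | _ | j <;> rcases k with _ | _ | k <;>
    simp only [Nat.add_sub_cancel, Nat.zero_sub, Nat.reduceAdd, Nat.reduceSubDiff, Nat.sub_self,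
      Nat.cast_add, Nat.cast_mul, Nat.cast_ofNat, Nat.cast_one, Nat.cast_zero, pow_zero,
      zero_add, Nat.add_one_sub_one, Nat.reduceSub, Nat.sub_zero] <;>
    simp only [gV, gW, gU] <;> ring

lemma DD_y (i j k n a : ℕ) (hn : n = 2 * i + j + k + 2) :
    DD n a (gU ^ (i + 1) * gV ^ j * gW ^ k) =
      ((i : R2) * (i + j) + a) * (gU ^ (i + 1) * gV ^ j * gW ^ (k + 1))
      + ((i : R2) * (i + k + 2) - a) * (gU ^ (i + 1) * gV ^ (j + 1) * gW ^ k)
      + ((k : R2) * (2 * n - k + 1)) * (gU ^ (i + 2) * gV ^ j * gW ^ (k - 1))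
      + ((j : R2) * (2 * n - j + 1)) * (gU ^ (i + 2) * gV ^ (j - 1) * gW ^ k)
      + ((j : R2) * (j - 1)) * (gU ^ (i + 2) * gV ^ (j - 2) * gW ^ (k + 1))
      + ((k : R2) * (k - 1)) * (gU ^ (i + 2) * gV ^ (j + 1) * gW ^ (k - 2))
      + (2 * ((n : R2) - k)) * (gU ^ (i + 1) * gV ^ j * gW ^ k)
      + (2 * (k : R2)) * (gU ^ (i + 1) * gV ^ (j + 1) * gW ^ (k - 1)) := by
  subst hn
  simp only [DD, EE, dop, eop, eul_add, eul_sub, eul_mul, eul_one, eul_natCast, eul0_U, eul1_U,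
    eul0_V, eul1_V, eul0_W, eul1_W, eul_X0_0, eul_X1_1, eul_X0_1, eul_X1_0]
  rcases j with _ | _ | j <;> rcases k with _ | _ | k <;>
    simp only [Nat.add_sub_cancel, Nat.zero_sub, Nat.reduceAdd, Nat.reduceSubDiff, Nat.sub_self,
      Nat.cast_add, Nat.cast_mul, Nat.cast_ofNat, Nat.cast_one, Nat.cast_zero, pow_zero,
      zero_add, Nat.add_one_sub_one, Nat.reduceSub, Nat.sub_zero] <;>
    simp only [gV, gW, gU] <;> ring

lemma EE_y (i j k n a : ℕ) (hn : n = 2 * i + j + k + 2) :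
    EE n a (gU ^ i * gV ^ j * gW ^ k) =
      ((i : R2) * (i + j) + a) * (gU ^ i * gV ^ j * gW ^ (k + 1))
      + ((i : R2) * (i + k + 2) - a) * (gU ^ i * gV ^ (j + 1) * gW ^ k)
      + ((k : R2) * (2 * n - k + 1)) * (gU ^ (i + 1) * gV ^ j * gW ^ (k - 1))
      + ((j : R2) * (2 * n - j + 1)) * (gU ^ (i + 1) * gV ^ (j - 1) * gW ^ k)
      + ((j : R2) * (j - 1)) * (gU ^ (i + 1) * gV ^ (j - 2) * gW ^ (k + 1))
      + ((k : R2) * (k - 1)) * (gU ^ (i + 1) * gV ^ (j + 1) * gW ^ (k - 2))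
      + (2 * ((n : R2) - k)) * (gU ^ (i + 1) * gV ^ j * gW ^ k)
      + (2 * (k : R2)) * (gU ^ (i + 1) * gV ^ (j + 1) * gW ^ (k - 1)) := by
  subst hn
  simp only [DD, EE, dop, eop, eul_add, eul_sub, eul_mul, eul_one, eul_natCast, eul0_U, eul1_U,
    eul0_V, eul1_V, eul0_W, eul1_W, eul_X0_0, eul_X1_1, eul_X0_1, eul_X1_0]
  rcases j with _ | _ | j <;> rcases k with _ | _ | k <;>
    simp only [Nat.add_sub_cancel, Nat.zero_sub, Nat.reduceAdd, Nat.reduceSubDiff, Nat.sub_self,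
      Nat.cast_add, Nat.cast_mul, Nat.cast_ofNat, Nat.cast_one, Nat.cast_zero, pow_zero,
      zero_add, Nat.add_one_sub_one, Nat.reduceSub, Nat.sub_zero] <;>
    simp only [gV, gW, gU] <;> ring

lemma DD_h (i j n a : ℕ) (hn : n = 2 * i + j + 1) :
    DD n a (gU ^ i * gV ^ j) =
      ((i : R2) * (i + 1) - a) * (gU ^ i * gV ^ (j + 1))
      + ((j : R2) * (2 * n - j + 1)) * (gU ^ (i + 1) * gV ^ (j - 1))
      + ((j : R2) * (j - 1)) * (gU ^ (i + 1) * gV ^ (j - 2) * gW)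
      + ((i : R2) * i + i * j + 2 * i + j + a + 1) * (gU ^ i * gV ^ j)
      + ((i : R2) * i + i * j + a) * (gU ^ (i + 1) * gV ^ j) := by
  subst hn
  simp only [DD, EE, dop, eop, eul_add, eul_sub, eul_mul, eul_one, eul_natCast, eul0_U, eul1_U,
    eul0_V, eul1_V, eul0_W, eul1_W, eul_X0_0, eul_X1_1, eul_X0_1, eul_X1_0]
  rcases j with _ | _ | j <;>
    simp only [Nat.add_sub_cancel, Nat.zero_sub, Nat.reduceAdd, Nat.reduceSubDiff, Nat.sub_self,
      Nat.cast_add, Nat.cast_mul, Nat.cast_ofNat, Nat.cast_one, Nat.cast_zero, pow_zero,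
      zero_add, Nat.add_one_sub_one, Nat.reduceSub, Nat.sub_zero] <;>
    simp only [gV, gW, gU] <;> ring

lemma EE_h (i j n a : ℕ) (hn : n = 2 * i + j + 1) :
    EE n a (gU ^ i * gV ^ j) =
      ((i : R2) * (i + 1) - a) * (gU ^ i * gV ^ (j + 1))
      + ((j : R2) * (2 * n - j + 1)) * (gU ^ (i + 1) * gV ^ (j - 1))
      + ((j : R2) * (j - 1)) * (gU ^ (i + 1) * gV ^ (j - 2) * gW)
      + ((i : R2) * i + i * j + 2 * i + j + a + 1) * (gU ^ (i + 1) * gV ^ j)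
      + ((i : R2) * i + i * j + a) * (gU ^ i * gV ^ j) := by
  subst hn
  simp only [DD, EE, dop, eop, eul_add, eul_sub, eul_mul, eul_one, eul_natCast, eul0_U, eul1_U,
    eul0_V, eul1_V, eul0_W, eul1_W, eul_X0_0, eul_X1_1, eul_X0_1, eul_X1_0]
  rcases j with _ | _ | j <;>
    simp only [Nat.add_sub_cancel, Nat.zero_sub, Nat.reduceAdd, Nat.reduceSubDiff, Nat.sub_self,
      Nat.cast_add, Nat.cast_mul, Nat.cast_ofNat, Nat.cast_one, Nat.cast_zero, pow_zero,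
      zero_add, Nat.add_one_sub_one, Nat.reduceSub, Nat.sub_zero] <;>
    simp only [gV, gW, gU] <;> ring

end

end Pool.Agent.TwoSidedGamma
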