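import Pool.Agent.Helper62.GamTransform

/-!
Existence of the polynomials `F_{a,b}` in the cone and two-sided gamma-positivity of
`F_{a,b} + F_{b,a}`.
-/

namespace Pool.Agent.TwoSidedGamma

open MvPolynomial

noncomputable section

/-- two-sided gamma positivity with centre `n` -/
def GPos (n : ℕ) (F : R2) : Prop :=
  ∃ γ : ℕ → ℕ → ℝ, (∀ i j, 0 ≤ γ i j) ∧
    F = ∑ i ∈ Finset.range (n / 2 + 1), ∑ j ∈ Finset.range (n - 2 * i + 1),
      C (γ i j) * (gU ^ i * gV ^ j * gW ^ (n - 2 * i - j))

lemma GPos.zero (n : ℕ) : GPos n 0 := ⟨fun _ _ => 0, fun _ _ => le_rfl, by simp⟩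

lemma GPos.add {n : ℕ} {F G : R2} (hF : GPos n F) (hG : GPos n G) : GPos n (F + G) := by
  obtain ⟨γ, h1, rfl⟩ := hF
  obtain ⟨δ, h2, rfl⟩ := hG
  refine ⟨fun i j => γ i j + δ i j, fun i j => add_nonneg (h1 i j) (h2 i j), ?_⟩
  simp only [map_add, add_mul, Finset.sum_add_distrib]

lemma GPos.smul {n : ℕ} {F : R2} (c : ℝ) (hc : 0 ≤ c) (hF : GPos n F) : GPos n (C c * F) := by
  obtain ⟨γ, h1, rfl⟩ := hF
  refine ⟨fun i j => c * γ i j, fun i j => mul_nonneg hc (h1 i j), ?_⟩
  simp only [map_mul, Finset.mul_sum, mul_assoc]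

lemma GPos.gen (n i j k : ℕ) (h : 2 * i + j + k = n) : GPos n (gU ^ i * gV ^ j * gW ^ k) := by
  refine ⟨fun i' j' => if i' = i ∧ j' = j then 1 else 0, fun i' j' => by dsimp only; split_ifs <;> simp, ?_⟩
  rw [Finset.sum_eq_single i, Finset.sum_eq_single j]
  · rw [show n - 2 * i - j = k by omega]; simp
  · intro j' _ hne; simp [hne]
  · intro hj; exfalso; apply hj; rw [Finset.mem_range]; omega
  · intro i' _ hne
    apply Finset.sum_eq_zero
    intro j' _; simp [hne]
  · intro hi; exfalso; apply hi; rw [Finset.mem_range]; omega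

lemma GPos.sum {n : ℕ} {ι : Type*} (s : Finset ι) (F : ι → R2) (h : ∀ i ∈ s, GPos n (F i)) :
    GPos n (∑ i ∈ s, F i) := by
  classical
  induction s using Finset.induction_on with
  | empty => simpa using GPos.zero n
  | insert a s ha ih =>
    rw [Finset.sum_insert ha]
    exact GPos.add (h a (Finset.mem_insert_self a s))
      (ih fun i hi => h i (Finset.mem_insert_of_mem hi))

theorem Cone.gpos {a b : ℕ} {F F' : R2} (h : Cone a b F F') : GPos (a + b) (F + F') := by
  induction h with
  | zero => simpa using GPos.zero _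
  | @add F F' G G' _ _ h1 h2 =>
    have := GPos.add h1 h2
    rwa [show F + G + (F' + G') = F + F' + (G + G') by ring]
  | @smul F F' c hc _ h1 =>
    have := GPos.smul c hc h1
    rwa [← mul_add]
  | x i j k h ha hb =>
    have := GPos.gen (a + b) i j (k + 1) (by omega)
    have hW : gW = 1 + gU := rfl
    convert this using 1
    rw [pow_succ gW, hW]; ring
  | y i j k h ha hb =>
    have := GPos.gen (a + b) i j (k + 1) (by omega)
    have hW : gW = 1 + gU := rfl
    convert this using 1
    rw [pow_succ gW, hW]; ring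
  | h i j h ha hb =>
    have := GPos.gen (a + b) i j 0 (by omega)
    convert GPos.add this this using 1
    simp

/-- number of multisets, as a real number -/
def hc (N b : ℕ) : ℝ := (Nat.multichoose N b : ℝ)

lemma hc_zero (N : ℕ) : hc N 0 = 1 := by simp [hc]

lemma hc_succ (N b : ℕ) : ((b : ℝ) + 1) * hc N (b + 1) = ((N : ℝ) + b) * hc N b := by
  rcases N with _ | N
  · rcases b with _ | b
    · simp [hc]
    · simp [hc]
  · simp only [hc, Nat.multichoose_eq]
    rw [show N + 1 + (b + 1) - 1 = N + b + 1 by omega, show N + 1 + b - 1 = N + b by omega]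
    have := Nat.add_one_mul_choose_eq (N + b) b
    have h2 : ((N + b : ℕ) + 1 : ℝ) * ((N + b).choose b : ℝ) =
      ((N + b + 1).choose (b + 1) : ℝ) * ((b : ℝ) + 1) := by exact_mod_cast this
    push_cast at h2 ⊢
    linarith

/-- the refined coefficients -/
def Gab (a b k l : ℕ) : ℝ := hc ((k + 1) * (l + 1)) a * hc (k * l) b

lemma Gab_succ_left (a b k l : ℕ) :
    ((a : ℝ) + 1) * Gab (a + 1) b k l = (((k : ℝ) + 1) * (l + 1) + a) * Gab a b k l := by
  have := hc_succ ((k + 1) * (l + 1)) a
  push_cast at this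
  simp only [Gab]
  linear_combination hc (k * l) b * this

lemma Gab_succ_right (a b k l : ℕ) :
    ((b : ℝ) + 1) * Gab a (b + 1) k l = ((k : ℝ) * l + b) * Gab a b k l := by
  have := hc_succ (k * l) b
  push_cast at this
  simp only [Gab]
  linear_combination hc ((k + 1) * (l + 1)) a * this

/-- the pair `(F_{a,b}, F_{b,a})` -/
def IsPair (a b : ℕ) (F F' : R2) : Prop :=
  Cone a b F F' ∧ (∀ k l, Lam (a + b) k l F = Gab a b k l) ∧
    (∀ k l, Lam (a + b) k l F' = Gab b a k l)

lemma IsPair.swap {a b : ℕ} {F F' : R2} (h : IsPair a b F F') : IsPair b a F' F := by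
  obtain ⟨h1, h2, h3⟩ := h
  refine ⟨h1.swap, ?_, ?_⟩
  · rw [Nat.add_comm]; exact h3
  · rw [Nat.add_comm]; exact h2

lemma IsPair.step {a b : ℕ} {F F' : R2} (h : IsPair a b F F') :
    IsPair (a + 1) b (C (1 / ((a : ℝ) + 1)) * DD (a + b + 1) a F)
      (C (1 / ((a : ℝ) + 1)) * EE (a + b + 1) a F') := by
  obtain ⟨h1, h2, h3⟩ := h
  have ha : ((a : ℝ) + 1) ≠ 0 := by positivity
  refine ⟨Cone.smul _ (by positivity) h1.step, ?_, ?_⟩
  · intro k l
    rw [show a + 1 + b = a + b + 1 by ring, ← smul_eq_C_mul, map_smul, Lam_DD, h2, smul_eq_mul]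
    have := Gab_succ_left a b k l
    field_simp
    linear_combination -this
  · intro k l
    rw [show a + 1 + b = a + b + 1 by ring, ← smul_eq_C_mul, map_smul, Lam_EE, h3, smul_eq_mul]
    have := Gab_succ_right b a k l
    field_simp
    linear_combination -this

lemma isPair_zero : IsPair 0 0 1 1 := by
  refine ⟨?_, ?_, ?_⟩
  · have := Cone.h (a := 0) (b := 0) 0 0 (by omega) (by omega) (by omega)
    simpa using this
  · intro k l
    have := Lam_XX 0 k l 0 0 1
    simp only [pow_zero, map_one, one_mul] at this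
    rw [show (0 + 0 : ℕ) = 0 from rfl, this]
    simp [bt, Gab, hc_zero]
  · intro k l
    have := Lam_XX 0 k l 0 0 1
    simp only [pow_zero, map_one, one_mul] at this
    rw [show (0 + 0 : ℕ) = 0 from rfl, this]
    simp [bt, Gab, hc_zero]

lemma exists_isPair_zero_right (a : ℕ) : ∃ F F', IsPair a 0 F F' := by
  induction a with
  | zero => exact ⟨1, 1, isPair_zero⟩
  | succ a ih =>
    obtain ⟨F, F', h⟩ := ih
    exact ⟨_, _, h.step⟩

theorem exists_isPair (a b : ℕ) : ∃ F F', IsPair a b F F' := by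
  induction b with
  | zero => exact exists_isPair_zero_right a
  | succ b ih =>
    obtain ⟨F, F', h⟩ := ih
    exact ⟨_, _, h.swap.step.swap⟩

/-- the target theorem on the level of the transform: any polynomial whose transform is the sum
of the refined coefficients over `b` of a given parity (stable under the swap) is
gamma-positive -/
theorem gpos_of_Lam (n : ℕ) (S : Finset (ℕ × ℕ)) (hS : ∀ p ∈ S, p.1 + p.2 = n)
    (hswap : ∀ p ∈ S, p.swap ∈ S) (T : R2)
    (hT : ∀ k l, Lam n k l T = ∑ p ∈ S, Gab p.1 p.2 k l) : GPos n T := by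
  choose F F' hF using exists_isPair
  have hsum : C (2 : ℝ) * T = ∑ p ∈ S, (F p.1 p.2 + F' p.1 p.2) := by
    apply eq_of_Lam n
    intro k l
    rw [← smul_eq_C_mul, map_smul, hT, smul_eq_mul, map_sum]
    have h1 : ∀ p ∈ S, Lam n k l (F p.1 p.2 + F' p.1 p.2) = Gab p.1 p.2 k l + Gab p.2 p.1 k l := by
      intro p hp
      have := hS p hp
      rw [map_add, ← this, (hF p.1 p.2).2.1, (hF p.1 p.2).2.2]
    rw [Finset.sum_congr rfl h1, Finset.sum_add_distrib]
    have h2 : ∑ p ∈ S, Gab p.2 p.1 k l = ∑ p ∈ S, Gab p.1 p.2 k l := by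
      refine Finset.sum_nbij' Prod.swap Prod.swap hswap hswap ?_ ?_ ?_
      · intro p _; simp
      · intro p _; simp
      · intro p _; simp
    rw [h2]; ring
  have h3 : GPos n (C (2 : ℝ) * T) := by
    rw [hsum]
    apply GPos.sum
    intro p hp
    have := (hF p.1 p.2).1.gpos
    rwa [hS p hp] at this
  have h4 := GPos.smul (1 / 2 : ℝ) (by norm_num) h3
  rwa [← mul_assoc, ← C_mul, show (1 / 2 : ℝ) * 2 = 1 by norm_num, C_1, one_mul] at h4

end

end Pool.Agent.TwoSidedGamma
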