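import Pool.Agent.Helper62.GamBij

/-!
The double generating function identity.
-/

namespace Pool.Agent.TwoSidedGamma

noncomputable section

variable {n : ℕ}

lemma zdecomp (l z : ℕ) : (z : ℤ) = (xx l z : ℤ) * (2 * l + 1) + yy l z := by
  obtain ⟨x, r, hr, hz⟩ := exists_xr l z
  obtain ⟨h1, h2⟩ := xx_yy_of hr hz
  rw [h1, h2]
  have : ((z + l : ℕ) : ℤ) = ((x * (2 * l + 1) + r : ℕ) : ℤ) := by rw [hz]
  push_cast at this
  linarith

lemma xy_of (l x : ℕ) (y : ℤ) (hy : y.natAbs ≤ l) (h0 : 0 ≤ (x : ℤ) * (2 * l + 1) + y) :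
    xx l ((x : ℤ) * (2 * l + 1) + y).toNat = x ∧ yy l ((x : ℤ) * (2 * l + 1) + y).toNat = y := by
  have hz : ((x : ℤ) * (2 * l + 1) + y).toNat + l = x * (2 * l + 1) + (y + l).toNat := by
    zify
    rw [Int.toNat_of_nonneg h0, Int.toNat_of_nonneg (by omega)]
    ring
  obtain ⟨h1, h2⟩ := xx_yy_of (show (y + l).toNat ≤ 2 * l by omega) hz
  refine ⟨h1, ?_⟩
  rw [h2]; omega

lemma lex_aux {l : ℕ} {x x' : ℕ} {y y' : ℤ} (hy : y.natAbs ≤ l) (hy' : y'.natAbs ≤ l)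
    (h : x < x') : (x : ℤ) * (2 * l + 1) + y < (x' : ℤ) * (2 * l + 1) + y' := by
  have h1 : (x : ℤ) + 1 ≤ x' := by exact_mod_cast h
  have h2 : ((x : ℤ) + 1) * (2 * l + 1) ≤ (x' : ℤ) * (2 * l + 1) :=
    mul_le_mul_of_nonneg_right h1 (by positivity)
  have h3 : ((x : ℤ) + 1) * (2 * l + 1) = (x : ℤ) * (2 * l + 1) + (2 * l + 1) := by ring
  omega

lemma lex_le (l z z' : ℕ) :
    z ≤ z' ↔ xx l z < xx l z' ∨ (xx l z = xx l z' ∧ yy l z ≤ yy l z') := by
  have h1 := zdecomp l z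
  have h2 := zdecomp l z'
  have h3 := natAbs_yy_le l z
  have h4 := natAbs_yy_le l z'
  rcases lt_trichotomy (xx l z) (xx l z') with h | h | h
  · have := lex_aux h3 h4 h
    constructor
    · intro _; left; exact h
    · intro _; omega
  · rw [h] at h1
    constructor
    · intro _; right; refine ⟨h, ?_⟩; omega
    · rintro (h' | h')
      · omega
      · omega
  · have := lex_aux h4 h3 h
    constructor
    · intro _; omega
    · rintro (h' | h')
      · omega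
      · omega

lemma xx_le {k l z : ℕ} (hz : z < ZZ k l) : xx l z ≤ k := by
  by_contra hlt
  have h1 := zdecomp l z
  have h3 := natAbs_yy_le l z
  have h2 : (k : ℤ) + 1 ≤ xx l z := by exact_mod_cast (by omega : k + 1 ≤ xx l z)
  have h4 : ((k : ℤ) + 1) * (2 * l + 1) ≤ (xx l z : ℤ) * (2 * l + 1) :=
    mul_le_mul_of_nonneg_right h2 (by positivity)
  have h5 : ((k : ℤ) + 1) * (2 * l + 1) = 2 * k * l + k + 2 * l + 1 := by ring
  have h6 : (z : ℤ) < 2 * k * l + k + l + 1 := by exact_mod_cast hz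
  omega

lemma xy_lt {k l x : ℕ} {y : ℤ} (hx : x ≤ k) (hy : y.natAbs ≤ l) :
    ((x : ℤ) * (2 * l + 1) + y).toNat < ZZ k l := by
  have h1 : (x : ℤ) * (2 * l + 1) ≤ (k : ℤ) * (2 * l + 1) :=
    mul_le_mul_of_nonneg_right (by exact_mod_cast hx) (by positivity)
  have h2 : (k : ℤ) * (2 * l + 1) = 2 * k * l + k := by ring
  have h3 : ((ZZ k l : ℕ) : ℤ) = 2 * k * l + k + l + 1 := by unfold ZZ; push_cast; ring
  have h4 : (0 : ℤ) ≤ 2 * k * l := by positivity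
  omega

/-- the set of triples -/
def TT (n k l : ℕ) : Finset (SignedPerm n × (Fin n → ℕ) × (Fin n → ℕ)) :=
  (Finset.univ ×ˢ (Fintype.piFinset (fun _ : Fin n => Finset.Ico 0 (k + 1)) ×ˢ
    Fintype.piFinset (fun _ : Fin n => Finset.Ico 0 (l + 1)))).filter
    fun x => Compat 0 0 (win x.1) x.2.1 ∧ Compat 0 0 (win x.1.inv) x.2.2

lemma mem_TT {k l : ℕ} {x : SignedPerm n × (Fin n → ℕ) × (Fin n → ℕ)} :
    x ∈ TT n k l ↔ ((∀ i, x.2.1 i ≤ k) ∧ (∀ i, x.2.2 i ≤ l)) ∧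
      Compat 0 0 (win x.1) x.2.1 ∧ Compat 0 0 (win x.1.inv) x.2.2 := by
  unfold TT
  rw [Finset.mem_filter, Finset.mem_product, Finset.mem_product, Fintype.mem_piFinset,
    Fintype.mem_piFinset]
  simp

lemma sum_TT (k l : ℕ) (χ : SignedPerm n → ℝ) :
    ∑ x ∈ TT n k l, χ x.1 = ∑ π : SignedPerm n, χ π * (bt n π.des k * bt n π.inv.des l) := by
  unfold TT
  rw [Finset.sum_filter, Finset.sum_product]
  apply Finset.sum_congr rfl
  intro π _
  rw [Finset.sum_product]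
  have h1 := count_compat 0 k (Nat.zero_le _) 0 (win π) (val_injective π)
  have h2 := count_compat 0 l (Nat.zero_le _) 0 (win π.inv) (val_injective π.inv)
  rw [Nat.sub_zero] at h1 h2
  rw [des_eq, des_eq, ← h1, ← h2, Finset.sum_mul_sum, Finset.mul_sum]
  apply Finset.sum_congr rfl
  intro f _
  rw [Finset.mul_sum]
  apply Finset.sum_congr rfl
  intro g _
  simp only
  by_cases hA : Compat 0 0 (win π) f <;> by_cases hB : Compat 0 0 (win π.inv) g <;>
    simp [hA, hB]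

def toZ (l : ℕ) (x : SignedPerm n × (Fin n → ℕ) × (Fin n → ℕ)) : Fin n → ℕ :=
  fun i => ((x.2.1 i : ℤ) * (2 * l + 1) + yw x.1 x.2.2 i).toNat

def fromZ (l : ℕ) (z : Fin n → ℕ) : SignedPerm n × (Fin n → ℕ) × (Fin n → ℕ) :=
  (fromY (fun i => yy l (z i)), (fun i => xx l (z i)), gY (fun i => yy l (z i)))

lemma cell_nonneg {l x : ℕ} {y : ℤ} (hy : y.natAbs ≤ l) (h : 0 < x ∨ 0 ≤ y) :
    0 ≤ (x : ℤ) * (2 * l + 1) + y := by
  rcases h with h | h
  · have := lex_aux (x := 0) (y := 0) (x' := x) (y' := y) (l := l) (by simp) hy h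
    simp at this
    exact this.le
  · positivity

lemma toZ_xy {k l : ℕ} {x : SignedPerm n × (Fin n → ℕ) × (Fin n → ℕ)} (hx : x ∈ TT n k l)
    (i : Fin n) : xx l (toZ l x i) = x.2.1 i ∧ yy l (toZ l x i) = yw x.1 x.2.2 i := by
  rw [mem_TT] at hx
  obtain ⟨⟨h1, h2⟩, h3, h4⟩ := hx
  have hs := sorted2_yw x.1 x.2.1 x.2.2 h3 h4
  have hy : (yw x.1 x.2.2 i).natAbs ≤ l := by rw [natAbs_yw]; exact h2 _
  exact xy_of l _ _ hy (cell_nonneg hy (hs.1 i))

lemma toZ_mem {k l : ℕ} {x : SignedPerm n × (Fin n → ℕ) × (Fin n → ℕ)} (hx : x ∈ TT n k l) :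
    toZ l x ∈ mono (ZZ k l) n 0 := by
  have hxy := toZ_xy hx
  have hx' := hx
  rw [mem_TT] at hx
  obtain ⟨⟨h1, h2⟩, h3, h4⟩ := hx
  have hs := sorted2_yw x.1 x.2.1 x.2.2 h3 h4
  rw [mem_mono]
  refine ⟨fun i => ⟨Nat.zero_le _, ?_⟩, ?_⟩
  · exact xy_lt (h1 i) (by rw [natAbs_yw]; exact h2 _)
  · intro i j hij
    rcases eq_or_lt_of_le hij with h | h
    · rw [h]
    · rw [lex_le l, (hxy i).1, (hxy i).2, (hxy j).1, (hxy j).2]
      exact hs.2 i j h

lemma sorted2_z {k l : ℕ} {z : Fin n → ℕ} (hz : z ∈ mono (ZZ k l) n 0) :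
    Sorted2 (fun i => xx l (z i)) (fun i => yy l (z i)) := by
  rw [mem_mono] at hz
  refine ⟨fun i => ?_, fun i j hij => ?_⟩
  · rcases Nat.eq_zero_or_pos (xx l (z i)) with h | h
    · right
      have := zdecomp l (z i)
      rw [h] at this
      simp at this
      show 0 ≤ yy l (z i)
      omega
    · left; exact h
  · exact (lex_le l _ _).mp (hz.2 hij.le)

lemma fromZ_mem {k l : ℕ} {z : Fin n → ℕ} (hz : z ∈ mono (ZZ k l) n 0) :
    fromZ l z ∈ TT n k l := by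
  have hs := sorted2_z hz
  rw [mem_mono] at hz
  rw [mem_TT]
  refine ⟨⟨fun i => xx_le (hz.1 i).2, fun i => ?_⟩, compat_fromY _ _ hs, compat_gY _⟩
  exact natAbs_yy_le l _

lemma fromZ_toZ {k l : ℕ} {x : SignedPerm n × (Fin n → ℕ) × (Fin n → ℕ)} (hx : x ∈ TT n k l) :
    fromZ l (toZ l x) = x := by
  have hxy := toZ_xy hx
  rw [mem_TT] at hx
  obtain ⟨⟨h1, h2⟩, h3, h4⟩ := hx
  unfold fromZ
  have e1 : (fun i => xx l (toZ l x i)) = x.2.1 := funext fun i => (hxy i).1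
  have e2 : (fun i => yy l (toZ l x i)) = yw x.1 x.2.2 := funext fun i => (hxy i).2
  rw [e1, e2, fromY_yw x.1 x.2.2 h4]
  have e3 : gY (yw x.1 x.2.2) = x.2.2 := by
    funext j
    have h5 := fromY_yw x.1 x.2.2 h4
    have h6 : Tuple.sort (key (yw x.1 x.2.2)) = x.1.1⁻¹ := by
      have := congrArg Prod.fst h5
      simp only [fromY] at this
      rw [← this, inv_inv]
    unfold gY
    rw [natAbs_yw, h6]
    simp
  rw [e3]

lemma toZ_fromZ (l : ℕ) (z : Fin n → ℕ) : toZ l (fromZ l z) = z := by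
  funext i
  unfold toZ fromZ
  simp only
  rw [yw_fromY]
  have := zdecomp l (z i)
  omega

theorem sum_identity (k l : ℕ) {S : Type*} (w : ℕ → S → ℝ) (τ : ℕ → S → S) (P : S)
    (χ : SignedPerm n → ℝ)
    (hw : ∀ z ∈ mono (ZZ k l) n 0, wt w τ n z P = χ (fromY fun i => yy l (z i))) :
    ∑ π : SignedPerm n, χ π * (bt n π.des k * bt n π.inv.des l) =
      Srec w τ (ZZ k l) n 0 P := by
  rw [← sum_TT, ← sum_mono, Finset.sum_congr rfl hw]
  refine Finset.sum_nbij' (toZ l) (fromZ l) (fun x hx => toZ_mem hx) (fun z hz => fromZ_mem hz)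
    (fun x hx => fromZ_toZ hx) (fun z _ => toZ_fromZ l z) ?_
  intro x hx
  have := fromZ_toZ hx
  conv_lhs => rw [← this]
  rfl

end

end Pool.Agent.TwoSidedGamma
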