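import Pool.Agent.Helper62.GamPos

/-!
Sums over weakly increasing sequences of cells, evaluated by a one-step transfer rule.
-/

namespace Pool.Agent.TwoSidedGamma

noncomputable section

section generic

variable {S : Type*} (w : ℕ → S → ℝ) (τ : ℕ → S → S) (Z : ℕ)

/-- first-letter recursion -/
def Srec : ℕ → ℕ → S → ℝ
  | 0, _, _ => 1
  | n + 1, z, P => ∑ z' ∈ Finset.Ico z Z, w z' P * Srec n z' (τ z' P)

/-- the weight of a sequence of cells -/
def wt : (n : ℕ) → (Fin n → ℕ) → S → ℝ
  | 0, _, _ => 1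
  | n + 1, z, P => w (z 0) P * wt n (Fin.tail z) (τ (z 0) P)

/-- weakly increasing sequences with values in `[z0, Z)` -/
def mono (n z0 : ℕ) : Finset (Fin n → ℕ) :=
  (Fintype.piFinset fun _ : Fin n => Finset.Ico z0 Z).filter fun z => Monotone z

lemma mem_mono {n z0 : ℕ} {z : Fin n → ℕ} :
    z ∈ mono Z n z0 ↔ (∀ i, z0 ≤ z i ∧ z i < Z) ∧ Monotone z := by
  simp [mono]

lemma monotone_cons {n : ℕ} (a : ℕ) (t : Fin n → ℕ) (h : ∀ i, a ≤ t i) (ht : Monotone t) :
    Monotone (Fin.cons a t : Fin (n + 1) → ℕ) := by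
  intro i j
  refine Fin.cases ?_ (fun i => ?_) i <;> refine Fin.cases ?_ (fun j => ?_) j
  · intro _; exact le_rfl
  · intro _; simpa using h j
  · intro hij; exact absurd hij (by simp)
  · intro hij
    simpa using ht (Fin.succ_le_succ_iff.mp hij)

theorem sum_mono (n z0 : ℕ) (P : S) :
    ∑ z ∈ mono Z n z0, wt w τ n z P = Srec w τ Z n z0 P := by
  induction n generalizing z0 P with
  | zero =>
    have : mono Z 0 z0 = {Fin.elim0} := by
      ext z
      rw [mem_mono, Finset.mem_singleton]
      constructor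
      · intro _; exact Subsingleton.elim _ _
      · intro _; exact ⟨fun i => i.elim0, fun i => i.elim0⟩
    rw [this]; simp [wt, Srec]
  | succ n ih =>
    simp only [Srec]
    simp_rw [← ih, Finset.mul_sum]
    rw [Finset.sum_sigma']
    refine Finset.sum_nbij' (fun z => ⟨z 0, Fin.tail z⟩) (fun x => Fin.cons x.1 x.2) ?_ ?_ ?_ ?_ ?_
    · intro z hz
      rw [mem_mono] at hz
      rw [Finset.mem_sigma, mem_mono, Finset.mem_Ico]
      refine ⟨hz.1 0, fun i => ⟨hz.2 (Fin.zero_le _), (hz.1 i.succ).2⟩, fun i j hij => hz.2 ?_⟩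
      exact Fin.succ_le_succ_iff.mpr hij
    · intro x hx
      rw [Finset.mem_sigma, mem_mono, Finset.mem_Ico] at hx
      obtain ⟨⟨h1, h2⟩, h3, h4⟩ := hx
      rw [mem_mono]
      refine ⟨fun i => ?_, monotone_cons _ _ (fun i => (h3 i).1) h4⟩
      refine Fin.cases ?_ (fun i => ?_) i
      · simpa using ⟨h1, h2⟩
      · simpa using ⟨le_trans h1 (h3 i).1, (h3 i).2⟩
    · intro z _; simp
    · intro x _; simp
    · intro z _; simp [wt]

open PowerSeries in
theorem Srec_eq (V : ℕ → S → PowerSeries ℝ) (good : S → Prop)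
    (hgood : ∀ z P, good P → good (τ z P)) (hZ : ∀ P, good P → V Z P = 1)
    (hV : ∀ z P, z < Z → good P → V z P = V (z + 1) P + X * C (w z P) * V z (τ z P)) :
    ∀ n z P, z ≤ Z → good P → Srec w τ Z n z P = coeff n (V z P) := by
  intro n
  induction n with
  | zero =>
    intro z P hz hP
    simp only [Srec]
    induction hz using Nat.decreasingInduction with
    | self => rw [hZ P hP]; simp
    | of_succ z hz ih =>
      rw [hV z P hz hP]
      rw [map_add, ← ih]
      simp [mul_assoc]
  | succ n ihn =>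
    intro z P hz hP
    simp only [Srec]
    induction hz using Nat.decreasingInduction with
    | self => rw [hZ P hP]; simp [coeff_one]
    | of_succ z hz ih =>
      rw [hV z P hz hP, map_add, ← ih, mul_assoc, coeff_succ_X_mul, coeff_C_mul,
        ← Finset.sum_Ico_consecutive _ (Nat.le_succ z) hz]
      rw [← ihn z _ hz.le (hgood z P hP)]
      simp [add_comm]

end generic

end

end Pool.Agent.TwoSidedGamma
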