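import Pool.Agent.Helper62.GamCone

/-!
The transform `F ↦ ∑ F_{pq} β(n,p,k) β(n,q,l)`, i.e. the coefficients of
`F / ((1-s)(1-t))^(n+1)`.
-/

namespace Pool.Agent.TwoSidedGamma

open MvPolynomial

noncomputable section

/-- the coefficient of `t^k` in `t^d / (1-t)^(n+1)` -/
def bt (n d k : ℕ) : ℝ := if d ≤ k then ((n + (k - d)).choose n : ℝ) else 0

lemma bt_of_lt {n d k : ℕ} (h : k < d) : bt n d k = 0 := by simp [bt, not_le.mpr h]

lemma bt_add (n d m : ℕ) : bt n d (d + m) = ((n + m).choose n : ℝ) := by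
  simp [bt]

lemma bt_self (n d : ℕ) : bt n d d = 1 := by simp [bt]

lemma bt_succ_sub (n d k : ℕ) : bt (n + 1) d k - bt (n + 1) (d + 1) k = bt n d k := by
  rcases lt_or_ge k d with h | h
  · rw [bt_of_lt h, bt_of_lt (by omega : k < d + 1), bt_of_lt h]; simp
  · obtain ⟨m, rfl⟩ := Nat.exists_eq_add_of_le h
    rcases m with _ | m
    · simp [bt]
    · rw [bt_add, bt_add, show d + (m + 1) = (d + 1) + m by ring, bt_add]
      have := Nat.choose_succ_succ (n + (m + 1)) n
      rw [show n + 1 + (m + 1) = (n + (m + 1)).succ by omega, this]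
      push_cast
      rw [show n + 1 + m = n + (m + 1) by omega]
      ring

lemma choose_rel1 (n m : ℕ) :
    ((n : ℝ) + 1) * ((n + 1 + m).choose (n + 1) : ℝ) = ((n : ℝ) + 1 + m) * ((n + m).choose n : ℝ) := by
  have := Nat.add_one_mul_choose_eq (n + m) n
  have h2 : ((n + m : ℕ) + 1 : ℝ) * ((n + m).choose n : ℝ) =
      ((n + m + 1).choose (n + 1) : ℝ) * ((n : ℝ) + 1) := by exact_mod_cast this
  rw [show n + 1 + m = n + m + 1 by omega]
  push_cast at h2
  linarith

lemma choose_rel2 (n m : ℕ) :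
    ((n : ℝ) + 1) * ((n + m).choose (n + 1) : ℝ) = (m : ℝ) * ((n + m).choose n : ℝ) := by
  have h1 := choose_rel1 n m
  have h2 := Nat.choose_succ_succ (n + m) n
  rw [show n + 1 + m = (n + m).succ by omega, h2] at h1
  push_cast at h1
  linarith

lemma bt_dop (n d k : ℕ) :
    ((d : ℝ) + 1) * bt (n + 1) d k + ((n : ℝ) - d) * bt (n + 1) (d + 1) k = ((k : ℝ) + 1) * bt n d k := by
  rcases lt_or_ge k d with h | h
  · rw [bt_of_lt h, bt_of_lt (by omega : k < d + 1), bt_of_lt h]; simp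
  · obtain ⟨m, rfl⟩ := Nat.exists_eq_add_of_le h
    have e1 : bt (n + 1) (d + 1) (d + m) = ((n + m).choose (n + 1) : ℝ) := by
      rcases m with _ | m
      · rw [bt_of_lt (by omega)]; simp
      · rw [show d + (m + 1) = (d + 1) + m by ring, bt_add]
        rw [show n + 1 + m = n + (m + 1) by omega]
    rw [e1, bt_add, bt_add]
    have h1 := choose_rel1 n m
    have h2 := choose_rel2 n m
    have hn : ((n : ℝ) + 1) ≠ 0 := by positivity
    apply mul_left_cancel₀ hn
    push_cast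
    linear_combination ((d : ℝ) + 1) * h1 + ((n : ℝ) - d) * h2

lemma bt_eop (n d k : ℕ) :
    (d : ℝ) * bt (n + 1) d k + ((n : ℝ) + 1 - d) * bt (n + 1) (d + 1) k = (k : ℝ) * bt n d k := by
  have h1 := bt_dop n d k
  have h2 := bt_succ_sub n d k
  linear_combination h1 - h2

/-- the transform -/
def Lam (n k l : ℕ) : R2 →ₗ[ℝ] ℝ :=
  (basisMonomials (Fin 2) ℝ).constr ℝ (fun m => bt n (m 0) k * bt n (m 1) l)

lemma Lam_monomial (n k l : ℕ) (m : Fin 2 →₀ ℕ) (c : ℝ) :
    Lam n k l (monomial m c) = c * (bt n (m 0) k * bt n (m 1) l) := by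
  have h : (monomial m c : R2) = c • (basisMonomials (Fin 2) ℝ) m := by
    rw [coe_basisMonomials, smul_monomial]; simp
  rw [h, map_smul, Lam, Module.Basis.constr_basis]; simp

lemma monomial_eq_XX (m : Fin 2 →₀ ℕ) (c : ℝ) :
    (monomial m c : R2) = C c * (X 0 ^ (m 0) * X 1 ^ (m 1)) := by
  rw [monomial_eq, Finsupp.prod_fintype _ _ (by simp)]
  simp

lemma Lam_XX (n k l p q : ℕ) (c : ℝ) :
    Lam n k l (C c * (X 0 ^ p * X 1 ^ q)) = c * (bt n p k * bt n q l) := by
  have h : (C c * (X 0 ^ p * X 1 ^ q) : R2) =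
      monomial (Finsupp.single 0 p + Finsupp.single 1 q) c := by
    rw [monomial_eq_XX]; simp
  rw [h, Lam_monomial]; simp

lemma eul_zero (v : Fin 2) : eul v (0 : R2) = 0 := by simp [eul]

lemma eul_X0_pow (p : ℕ) : eul 0 (X 0 ^ p : R2) = (p : R2) * (X 0 ^ p : R2) := by
  rcases p with _ | p
  · simp [eul_one]
  · rw [eul_pow, eul_X0_0]; simp; ring

lemma eul_X1_pow (q : ℕ) : eul 1 (X 1 ^ q : R2) = (q : R2) * (X 1 ^ q : R2) := by
  rcases q with _ | q
  · simp [eul_one]
  · rw [eul_pow, eul_X1_1]; simp; ring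

lemma eul_X01_pow (q : ℕ) : eul 0 (X 1 ^ q : R2) = 0 := by rw [eul_pow, eul_X0_1]; simp
lemma eul_X10_pow (p : ℕ) : eul 1 (X 0 ^ p : R2) = 0 := by rw [eul_pow, eul_X1_0]; simp

set_option linter.unusedSimpArgs false

lemma Lam_DD (n a k l : ℕ) (F : R2) :
    Lam (n + 1) k l (DD (n + 1) a F) = (((k : ℝ) + 1) * (l + 1) + a) * Lam n k l F := by
  induction F using MvPolynomial.induction_on' with
  | monomial m c =>
    rw [monomial_eq_XX, DD_C_mul, Lam_XX]
    generalize m 0 = p
    generalize m 1 = q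
    have e : C c * DD (n + 1) a (X 0 ^ p * X 1 ^ q) =
        C (c * ((p + 1) * (q + 1) + a)) * (X 0 ^ p * X 1 ^ q)
        + C (c * ((n - p) * (q + 1) - a)) * (X 0 ^ (p + 1) * X 1 ^ q)
        + C (c * ((p + 1) * (n - q) - a)) * (X 0 ^ p * X 1 ^ (q + 1))
        + C (c * ((n - p) * (n - q) + a)) * (X 0 ^ (p + 1) * X 1 ^ (q + 1)) := by
      simp only [DD, dop, eul_add, eul_sub, eul_mul, eul_one, eul_natCast, eul_X0_0, eul_X1_1,
        eul_X0_1, eul_X1_0, eul_X0_pow, eul_X1_pow, eul_X01_pow, eul_X10_pow, eul_zero]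
      simp only [map_mul, map_add, map_sub, map_one, map_natCast, Nat.cast_add, Nat.cast_one]
      ring
    rw [e]
    simp only [map_add, Lam_XX]
    have h1 := bt_dop n p k
    have h2 := bt_dop n q l
    have h3 := bt_succ_sub n p k
    have h4 := bt_succ_sub n q l
    rw [show c * (bt n p k * bt n q l) = c * (bt n p k * bt n q l) from rfl]
    have key : (((p : ℝ) + 1) * bt (n + 1) p k + ((n : ℝ) - p) * bt (n + 1) (p + 1) k) *
        (((q : ℝ) + 1) * bt (n + 1) q l + ((n : ℝ) - q) * bt (n + 1) (q + 1) l) =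
        (((k : ℝ) + 1) * bt n p k) * (((l : ℝ) + 1) * bt n q l) := by rw [h1, h2]
    have key2 : (bt (n + 1) p k - bt (n + 1) (p + 1) k) * (bt (n + 1) q l - bt (n + 1) (q + 1) l) =
        bt n p k * bt n q l := by rw [h3, h4]
    linear_combination c * key + c * a * key2
  | add F G hF hG => rw [DD_add, map_add, map_add, hF, hG]; ring

lemma Lam_EE (n a k l : ℕ) (F : R2) :
    Lam (n + 1) k l (EE (n + 1) a F) = ((k : ℝ) * l + a) * Lam n k l F := by
  induction F using MvPolynomial.induction_on' with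
  | monomial m c =>
    rw [monomial_eq_XX, EE_C_mul, Lam_XX]
    generalize m 0 = p
    generalize m 1 = q
    have e : C c * EE (n + 1) a (X 0 ^ p * X 1 ^ q) =
        C (c * (p * q + a)) * (X 0 ^ p * X 1 ^ q)
        + C (c * ((n + 1 - p) * q - a)) * (X 0 ^ (p + 1) * X 1 ^ q)
        + C (c * (p * (n + 1 - q) - a)) * (X 0 ^ p * X 1 ^ (q + 1))
        + C (c * ((n + 1 - p) * (n + 1 - q) + a)) * (X 0 ^ (p + 1) * X 1 ^ (q + 1)) := by
      simp only [EE, eop, eul_add, eul_sub, eul_mul, eul_one, eul_natCast, eul_X0_0, eul_X1_1,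
        eul_X0_1, eul_X1_0, eul_X0_pow, eul_X1_pow, eul_X01_pow, eul_X10_pow, eul_zero]
      simp only [map_mul, map_add, map_sub, map_one, map_natCast, Nat.cast_add, Nat.cast_one]
      ring
    rw [e]
    simp only [map_add, Lam_XX]
    have h1 := bt_eop n p k
    have h2 := bt_eop n q l
    have h3 := bt_succ_sub n p k
    have h4 := bt_succ_sub n q l
    have key : ((p : ℝ) * bt (n + 1) p k + ((n : ℝ) + 1 - p) * bt (n + 1) (p + 1) k) *
        ((q : ℝ) * bt (n + 1) q l + ((n : ℝ) + 1 - q) * bt (n + 1) (q + 1) l) =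
        ((k : ℝ) * bt n p k) * ((l : ℝ) * bt n q l) := by rw [h1, h2]
    have key2 : (bt (n + 1) p k - bt (n + 1) (p + 1) k) * (bt (n + 1) q l - bt (n + 1) (q + 1) l) =
        bt n p k * bt n q l := by rw [h3, h4]
    linear_combination c * key + c * a * key2
  | add F G hF hG => rw [EE_add, map_add, map_add, hF, hG]; ring

lemma Lam_eq_sum (n k l : ℕ) (F : R2) :
    Lam n k l F = ∑ m ∈ F.support, coeff m F * (bt n (m 0) k * bt n (m 1) l) := by
  conv_lhs => rw [← support_sum_monomial_coeff F]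
  rw [map_sum]
  exact Finset.sum_congr rfl fun m _ => Lam_monomial n k l m _

theorem eq_zero_of_Lam (n : ℕ) (F : R2) (h : ∀ k l, Lam n k l F = 0) : F = 0 := by
  by_contra hF
  have hne : F.support.Nonempty := by
    rw [Finset.nonempty_iff_ne_empty]; simpa using hF
  obtain ⟨m, hm, hmin⟩ := Finset.exists_min_image F.support (fun m => m 0 + m 1) hne
  have h1 := h (m 0) (m 1)
  rw [Lam_eq_sum, Finset.sum_eq_single m] at h1
  · rw [bt_self, bt_self] at h1
    simp at h1
    exact (mem_support_iff.mp hm) h1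
  · intro m' hm' hne'
    by_cases h0 : m' 0 ≤ m 0
    · by_cases h1 : m' 1 ≤ m 1
      · exfalso
        have h2 := hmin m' hm'
        apply hne'
        ext i
        fin_cases i
        · simp only [Fin.zero_eta]; omega
        · simp only [Fin.mk_one]; omega
      · rw [bt_of_lt (by omega : m 1 < m' 1)]; simp
    · rw [bt_of_lt (by omega : m 0 < m' 0)]; simp
  · intro hm'; exact absurd hm hm'

theorem eq_of_Lam (n : ℕ) (F G : R2) (h : ∀ k l, Lam n k l F = Lam n k l G) : F = G := by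
  rw [← sub_eq_zero]
  apply eq_zero_of_Lam n
  intro k l
  rw [map_sub, h k l, sub_self]

end

end Pool.Agent.TwoSidedGamma
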